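import Pool.Agent.N948.XE.Stm
import Pool.Agent.N948.IX.X14

/-!
# Project XE (helper948): the corridors and the two circuits (proof of `St_COR6`)
-/

set_option autoImplicit false

namespace Pool.Agent.N948.XE.Y1

open H974 H12S Finset H984P H342P
open Pool.Agent.W92.DP (core4 DTB DLR)
open Pool.Agent.W822.PD (SC)
open Pool.Agent.N948.IX (Gd2)
open Pool.Agent.W52.DPInd Pool.Agent.W52.DPOne
open Pool.Agent.N948.IX.X14
open H973 (dlt dlt_pos rswL)

/-- A rectangle inside `SC U`. -/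
theorem RE_SC {U a b c d : ℤ} (h1 : -(27 * U) ≤ a) (h2 : b ≤ 27 * U) (h3 : -(28 * U) ≤ c)
    (h4 : d ≤ 68 * U) : RE a b c d ⊆ SC U := by
  intro e he
  unfold SC
  obtain ⟨x, y, _ | _⟩ := e
  · rw [mem_RE_false] at he ⊢
    omega
  · rw [mem_RE_true] at he ⊢
    omega

/-- The increasing event. -/
def AO6 (a : ℕ) (c : Vtx) (U : ℤ) (F : Finset Edg) : Prop :=
  BO a c ⊆ F ∧ (LRc (c.1 - 14 * U) (c.1 + 6 * U) (c.2 - 14 * U) (c.2 - 12 * U) F ∧
    (TBc (c.1 - 14 * U) (c.1 - 12 * U) (c.2 - 14 * U) (c.2 + 4 * U) F ∧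
    TBc (c.1 + 2 * U) (c.1 + 6 * U) (-(28 * U)) (c.2 - 12 * U) F))

/-- The decreasing event. -/
def AC6 (a : ℕ) (c : Vtx) (U : ℤ) (F : Finset Edg) : Prop :=
  (∀ e ∈ BC a c, e ∉ F) ∧ (¬ TBc (c.1 - 10 * U) (c.1 + 6 * U) (c.2 - 10 * U) (c.2 - 8 * U) F ∧
    ¬ LRc (c.1 - 10 * U) (c.1 - 8 * U) (c.2 - 10 * U) (68 * U) F)

/-- The region of the increasing event. -/
noncomputable def RA6 (a : ℕ) (c : Vtx) (U : ℤ) : Finset Edg :=
  BO a c ∪ (RE (c.1 - 14 * U) (c.1 + 6 * U) (c.2 - 14 * U) (c.2 - 12 * U) ∪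
    (RE (c.1 - 14 * U) (c.1 - 12 * U) (c.2 - 14 * U) (c.2 + 4 * U) ∪
    RE (c.1 + 2 * U) (c.1 + 6 * U) (-(28 * U)) (c.2 - 12 * U)))

/-- The region of the decreasing event. -/
noncomputable def RB6 (a : ℕ) (c : Vtx) (U : ℤ) : Finset Edg :=
  BC a c ∪ (RE (c.1 - 10 * U) (c.1 + 6 * U) (c.2 - 10 * U) (c.2 - 8 * U) ∪
    RE (c.1 - 10 * U) (c.1 - 8 * U) (c.2 - 10 * U) (68 * U))

theorem RA6_sub {a : ℕ} {U : ℤ} (ha : 1 ≤ a) (hU : 100 * (a : ℤ) ≤ U) {c : Vtx}
    (hc : c ∈ core4 U) : RA6 a c U ⊆ SC U := by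
  rw [mem_core4] at hc
  exact Finset.union_subset (RE_SC (by omega) (by omega) (by omega) (by omega))
    (Finset.union_subset (RE_SC (by omega) (by omega) (by omega) (by omega))
    (Finset.union_subset (RE_SC (by omega) (by omega) (by omega) (by omega))
      (RE_SC (by omega) (by omega) (by omega) (by omega))))

theorem RB6_sub {a : ℕ} {U : ℤ} (ha : 1 ≤ a) (hU : 100 * (a : ℤ) ≤ U) {c : Vtx}
    (hc : c ∈ core4 U) : RB6 a c U ⊆ SC U := by
  rw [mem_core4] at hc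
  exact Finset.union_subset ((Finset.filter_subset _ _).trans
      (RE_SC (by omega) (by omega) (by omega) (by omega)))
    (Finset.union_subset (RE_SC (by omega) (by omega) (by omega) (by omega))
      (RE_SC (by omega) (by omega) (by omega) (by omega)))

theorem R6_disj {a : ℕ} {U : ℤ} (ha : 1 ≤ a) (hU : 100 * (a : ℤ) ≤ U) {c : Vtx}
    (hc : c ∈ core4 U) : Disjoint (RA6 a c U) (RB6 a c U) := by
  rw [mem_core4] at hc
  rw [Finset.disjoint_left]
  intro e h1 h2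
  unfold RA6 BO at h1
  unfold RB6 BC at h2
  obtain ⟨x, y, _ | _⟩ := e
  · simp only [Finset.mem_union, Finset.mem_filter, mem_RE_false, src_mk, Pool.Agent.N948.IX.lv, le_max_iff,
      le_abs] at h1 h2
    omega
  · simp only [Finset.mem_union, Finset.mem_filter, mem_RE_true, src_mk, Pool.Agent.N948.IX.lv, le_max_iff,
      le_abs] at h1 h2
    omega

theorem AO6_local (a : ℕ) (c : Vtx) (U : ℤ) (F : Finset Edg) :
    AO6 a c U F ↔ AO6 a c U (F ∩ RA6 a c U) := by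
  unfold AO6
  have h0 : BO a c ⊆ RA6 a c U := Finset.subset_union_left
  have h1 : LRE (c.1 - 14 * U) (c.1 + 6 * U) (c.2 - 14 * U) (c.2 - 12 * U) ⊆ RA6 a c U :=
    LRE_subset_RE.trans (Finset.subset_union_left.trans Finset.subset_union_right)
  have h2 : TBE (c.1 - 14 * U) (c.1 - 12 * U) (c.2 - 14 * U) (c.2 + 4 * U) ⊆ RA6 a c U :=
    TBE_subset_RE.trans (Finset.subset_union_left.trans (Finset.subset_union_right.trans
      Finset.subset_union_right))
  have h3 : TBE (c.1 + 2 * U) (c.1 + 6 * U) (-(28 * U)) (c.2 - 12 * U) ⊆ RA6 a c U :=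
    TBE_subset_RE.trans (Finset.subset_union_right.trans (Finset.subset_union_right.trans
      Finset.subset_union_right))
  rw [← LRc_local h1, ← TBc_local h2, ← TBc_local h3]
  constructor
  · rintro ⟨h4, h5⟩
    exact ⟨Finset.subset_inter h4 h0, h5⟩
  · rintro ⟨h4, h5⟩
    exact ⟨h4.trans Finset.inter_subset_left, h5⟩

theorem AC6_local (a : ℕ) (c : Vtx) (U : ℤ) (F : Finset Edg) :
    AC6 a c U F ↔ AC6 a c U (F ∩ RB6 a c U) := by
  unfold AC6
  have h0 : BC a c ⊆ RB6 a c U := Finset.subset_union_left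
  have h1 : TBE (c.1 - 10 * U) (c.1 + 6 * U) (c.2 - 10 * U) (c.2 - 8 * U) ⊆ RB6 a c U :=
    TBE_subset_RE.trans (Finset.subset_union_left.trans Finset.subset_union_right)
  have h2 : LRE (c.1 - 10 * U) (c.1 - 8 * U) (c.2 - 10 * U) (68 * U) ⊆ RB6 a c U :=
    LRE_subset_RE.trans (Finset.subset_union_right.trans Finset.subset_union_right)
  rw [← TBc_local h1, ← LRc_local h2]
  constructor
  · rintro ⟨h5, h6⟩
    exact ⟨fun e he h7 => h5 e he (Finset.mem_inter.1 h7).1, h6⟩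
  · rintro ⟨h5, h6⟩
    exact ⟨fun e he h7 => h5 e he (Finset.mem_inter.2 ⟨h7, h0 he⟩), h6⟩

theorem pr_AO6 {a : ℕ} {U : ℤ} (ha : 1 ≤ a) (hU : 100 * (a : ℤ) ≤ U) {c : Vtx}
    (hc : c ∈ core4 U) {S : Finset Edg} (hS : SC U ⊆ S) :
    (1/2 : ℝ) ^ ((2 * a + 3) * ((2 * a + 3) * 2)) * (dlt * (dlt * dlt)) ≤
      PQ (1/2) S (AO6 a c U) := by
  have hd0 := dlt_pos
  have hR : RA6 a c U ⊆ S := (RA6_sub ha hU hc).trans hS
  rw [mem_core4] at hc
  have q0 : (1/2 : ℝ) ^ ((2 * a + 3) * ((2 * a + 3) * 2)) ≤ PQ (1/2) S (fun F => BO a c ⊆ F) :=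
    (pow_le_pow_of_le_one (by norm_num) (by norm_num) (card_BO a c)).trans
      (op_lb S (BO a c) (Finset.subset_union_left.trans hR))
  have q1 : dlt ≤ PQ (1/2) S (LRc (c.1 - 14 * U) (c.1 + 6 * U) (c.2 - 14 * U) (c.2 - 12 * U)) :=
    p_LR (m := U) ((Finset.subset_union_left.trans Finset.subset_union_right).trans hR)
      (by omega) (by omega) (by omega) (by omega)
  have q2 : dlt ≤ PQ (1/2) S (TBc (c.1 - 14 * U) (c.1 - 12 * U) (c.2 - 14 * U) (c.2 + 4 * U)) :=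
    p_TB (m := U) ((Finset.subset_union_left.trans (Finset.subset_union_right.trans
      Finset.subset_union_right)).trans hR) (by omega) (by omega) (by omega) (by omega)
  have q3 : dlt ≤ PQ (1/2) S (TBc (c.1 + 2 * U) (c.1 + 6 * U) (-(28 * U)) (c.2 - 12 * U)) :=
    p_TB (m := U) ((Finset.subset_union_right.trans (Finset.subset_union_right.trans
      Finset.subset_union_right)).trans hR) (by omega) (by omega) (by omega) (by omega)
  exact har_i (fun F G h hF => hF.trans h) ((inc_LR _ _ _ _).and ((inc_TB _ _ _ _).and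
    (inc_TB _ _ _ _))) (by positivity) (by positivity) q0
    (har_i (inc_LR _ _ _ _) ((inc_TB _ _ _ _).and (inc_TB _ _ _ _)) (by positivity)
      (by positivity) q1
      (har_i (inc_TB _ _ _ _) (inc_TB _ _ _ _) (by positivity) (by positivity) q2 q3))

theorem pr_AC6 {a : ℕ} {U : ℤ} (ha : 1 ≤ a) (hU : 100 * (a : ℤ) ≤ U) {c : Vtx}
    (hc : c ∈ core4 U) {S : Finset Edg} (hS : SC U ⊆ S) :
    (1/2 : ℝ) ^ ((18 * a + 3) * ((18 * a + 3) * 2)) * (dlt * dlt) ≤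
      PQ (1/2) S (AC6 a c U) := by
  have hd0 := dlt_pos
  have hR : RB6 a c U ⊆ S := (RB6_sub ha hU hc).trans hS
  rw [mem_core4] at hc
  have q0 : (1/2 : ℝ) ^ ((18 * a + 3) * ((18 * a + 3) * 2)) ≤
      PQ (1/2) S (fun F => ∀ e ∈ BC a c, e ∉ F) :=
    (pow_le_pow_of_le_one (by norm_num) (by norm_num) (card_BC a c)).trans
      (cl_lb S (BC a c) (Finset.subset_union_left.trans hR))
  have q1 : dlt ≤ PQ (1/2) S (fun F => ¬ TBc (c.1 - 10 * U) (c.1 + 6 * U) (c.2 - 10 * U)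
      (c.2 - 8 * U) F) :=
    p_nTB (m := U - 1) ((Finset.subset_union_left.trans Finset.subset_union_right).trans hR)
      (by omega) (by omega) (by omega) (by omega)
  have q2 : dlt ≤ PQ (1/2) S (fun F => ¬ LRc (c.1 - 10 * U) (c.1 - 8 * U) (c.2 - 10 * U)
      (68 * U) F) :=
    p_nLR (m := U - 1) ((Finset.subset_union_right.trans Finset.subset_union_right).trans hR)
      (by omega) (by omega) (by omega) (by omega)
  exact har_d (dec_no (BC a c)) ((dec_TB _ _ _ _).and (dec_LR _ _ _ _)) (by positivity)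
    (by positivity) q0
    (har_d (dec_TB _ _ _ _) (dec_LR _ _ _ _) (by positivity) (by positivity) q1 q2)

theorem QX_of {a : ℕ} {U : ℤ} (ha : 1 ≤ a) (hU : 100 * (a : ℤ) ≤ U) {c : Vtx}
    (hc : c ∈ core4 U) {F : Finset Edg} (h1 : AO6 a c U F) (h2 : AC6 a c U F) :
    QX a c U F := by
  rw [mem_core4] at hc
  obtain ⟨b1, b2, b3, b4⟩ := h1
  obtain ⟨c1, c2, c3⟩ := h2
  exact ⟨⟨not_DC b1, not_OC ha c1⟩, ⟨b2, b3, b4⟩, DLR_of (by omega) (by omega) c2,
    DTB_of (by omega) (by omega) c3⟩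

end Pool.Agent.N948.XE.Y1

namespace Pool.Agent.N948.XE

open H974 H12S Finset
open Pool.Agent.W92.DP (core4)
open Pool.Agent.W822.PD (SC)
open H973 (dlt dlt_pos)

/-- The corridors and the two circuits have positive probability. -/
theorem cor6 : St_COR6 := by
  intro a ha
  have hd0 := dlt_pos
  refine ⟨((1/2 : ℝ) ^ ((2 * a + 3) * ((2 * a + 3) * 2)) * (dlt * (dlt * dlt))) *
    ((1/2 : ℝ) ^ ((18 * a + 3) * ((18 * a + 3) * 2)) * (dlt * dlt)), 100 * a,
    by positivity, ?_⟩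
  intro U S hU hS c hc
  have ha1 : 1 ≤ a := by omega
  have hU' : 100 * (a : ℤ) ≤ (U : ℤ) := by exact_mod_cast hU
  have h1 := Y1.pr_AO6 ha1 hU' hc hS
  have h2 := Y1.pr_AC6 ha1 hU' hc hS
  have h3 : PQ (1/2) S (fun F => Y1.AO6 a c U F ∧ Y1.AC6 a c U F) =
      PQ (1/2) S (Y1.AO6 a c U) * PQ (1/2) S (Y1.AC6 a c U) :=
    Pr_indep ((Y1.RA6_sub ha1 hU' hc).trans hS) ((Y1.RB6_sub ha1 hU' hc).trans hS)
      (Y1.R6_disj ha1 hU' hc) (fun F _ => Y1.AO6_local a c U F) (fun F _ => Y1.AC6_local a c U F)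
  have h4 : PQ (1/2) S (fun F => Y1.AO6 a c U F ∧ Y1.AC6 a c U F) ≤ PQ (1/2) S (QX a c U) :=
    Pr_mono H973.okhalf (fun F _ hF => Y1.QX_of ha1 hU' hc hF.1 hF.2)
  refine le_trans ?_ h4
  rw [h3]
  exact mul_le_mul h1 h2 (by positivity) ((by positivity : (0:ℝ) ≤ _).trans h1)

end Pool.Agent.N948.XE
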