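import Pool.Agent.N948.XE.Stm
import Pool.Agent.W320.PD.Big

set_option autoImplicit false

/-!
Project XE, Y12 (helper667): deterministic conclusion for the largest cluster, for a general
predicate (port of the file Big of the library project PD).
-/

namespace Pool.Agent.N948.XE

open H974 H984P H342P Finset Pool.Agent.W822.PD Pool.Agent.W92.DP Pool.Agent.W320.PD

theorem big6 : St_BIG6 := by
  intro P t0 c0 E0 a0 n F R R1 m hF hm hR h1 h2 hlay hlow v hv
  classical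
  have hm0 : 0 < m := by omega
  obtain ⟨a, b, ha, hb, hmax⟩ := hv
  obtain ⟨c, d, hc, hd, hcd, h8⟩ := hm
  have h8' : 8 * m ^ 2 ≤ dsq a b := h8.trans (hmax c d hc hd hcd)
  have hab : 2 * m ≤ |a.1 - b.1| ∨ 2 * m ≤ |a.2 - b.2| := by
    by_contra hcon
    push Not at hcon
    obtain ⟨h3, h4⟩ := hcon
    unfold dsq at h8'
    have h5 : (a.1 - b.1) ^ 2 < (2 * m) ^ 2 := sq_lt_sq' (by linarith [(abs_lt.1 h3).1]) (abs_lt.1 h3).2
    have h6 : (a.2 - b.2) ^ 2 < (2 * m) ^ 2 := sq_lt_sq' (by linarith [(abs_lt.1 h4).1]) (abs_lt.1 h4).2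
    nlinarith
  have hane : a ≠ b := by
    rintro rfl
    simp only [sub_self, abs_zero] at hab
    omega
  -- every vertex of the cluster is in the box
  have hex : ∃ w, w ≠ v ∧ Reach (↑F : Set Edg) v w := by
    by_cases h3 : a = v
    · exact ⟨b, fun h4 => hane (h3.trans h4.symm), hb⟩
    · exact ⟨a, h3, ha⟩
  have hbox : ∀ w, Reach (↑F : Set Edg) v w → inR 0 n 0 n w := by
    intro w hw
    by_cases h3 : v = w
    · subst h3
      obtain ⟨w', h4, h5⟩ := hex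
      exact pb_box hF h5.symm h4
    · exact pb_box hF hw h3
  -- a leftmost vertex
  obtain ⟨vL, hvL, hleft⟩ : ∃ vL, Reach (↑F : Set Edg) v vL ∧
      ∀ w, Reach (↑F : Set Edg) v w → vL.1 ≤ w.1 := by
    have hne : ∃ k : ℕ, ∃ w, Reach (↑F : Set Edg) v w ∧ w.1 = k := by
      have h3 := hbox v (Reach.refl _ _)
      unfold inR at h3
      exact ⟨v.1.toNat, v, Reach.refl _ _, by omega⟩
    obtain ⟨w, hw, hwk⟩ := Nat.find_spec hne
    refine ⟨w, hw, fun w' hw' => ?_⟩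
    have h3 := hbox w' hw'
    unfold inR at h3
    have h4 : Nat.find hne ≤ w'.1.toNat := Nat.find_min' hne ⟨w', hw', by omega⟩
    omega
  set σ : St := (vL, .nw) with hσ
  have hσ1 : σ.1 = vL := rfl
  have hleft' : ∀ w, Reach (↑F : Set Edg) σ.1 w → σ.1.1 ≤ w.1 := by
    intro w hw
    exact hleft w (hvL.trans hw)
  have horb : ∀ s, Reach (↑F : Set Edg) v (orb (↑F) σ s).1 := fun s =>
    hvL.trans (pb_reach (↑F) σ s)
  have hextA := orb_extent (F := F) (σ := σ) rfl hleft' (hvL.symm.trans ha)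
  have hextB := orb_extent (F := F) (σ := σ) rfl hleft' (hvL.symm.trans hb)
  -- two far apart states
  obtain ⟨t1, t2, ht12, hfar⟩ : ∃ t1 t2 : ℕ, t1 ≤ t2 ∧
      (2 * m ≤ |(orb (↑F) σ t1).1.1 - (orb (↑F) σ t2).1.1| ∨
        2 * m ≤ |(orb (↑F) σ t1).1.2 - (orb (↑F) σ t2).1.2|) := by
    have hsym : (∃ t1 t2 : ℕ, (2 * m ≤ |(orb (↑F) σ t1).1.1 - (orb (↑F) σ t2).1.1| ∨
        2 * m ≤ |(orb (↑F) σ t1).1.2 - (orb (↑F) σ t2).1.2|)) → ∃ t1 t2 : ℕ, t1 ≤ t2 ∧
      (2 * m ≤ |(orb (↑F) σ t1).1.1 - (orb (↑F) σ t2).1.1| ∨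
        2 * m ≤ |(orb (↑F) σ t1).1.2 - (orb (↑F) σ t2).1.2|) := by
      rintro ⟨t1, t2, h⟩
      rcases le_total t1 t2 with h3 | h3
      · exact ⟨t1, t2, h3, h⟩
      · refine ⟨t2, t1, h3, ?_⟩
        rw [abs_sub_comm, abs_sub_comm (orb (↑F) σ t2).1.2]
        exact h
    apply hsym
    obtain ⟨⟨ta, hta⟩, ⟨ta2, hta2⟩, ⟨ta3, hta3⟩⟩ := hextA
    obtain ⟨⟨tb, htb⟩, ⟨tb2, htb2⟩, ⟨tb3, htb3⟩⟩ := hextB
    have hla := hleft a ha
    have hlb := hleft b hb
    have h0 : (orb (↑F) σ 0).1.1 = vL.1 := rfl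
    rcases hab with h3 | h3
    · rcases abs_cases (a.1 - b.1) with ⟨h4, h5⟩ | ⟨h4, h5⟩
      · refine ⟨ta, 0, Or.inl ?_⟩
        rw [h0]
        have := le_abs_self ((orb (↑F) σ ta).1.1 - vL.1)
        omega
      · refine ⟨tb, 0, Or.inl ?_⟩
        rw [h0]
        have := le_abs_self ((orb (↑F) σ tb).1.1 - vL.1)
        omega
    · rcases abs_cases (a.2 - b.2) with ⟨h4, h5⟩ | ⟨h4, h5⟩
      · refine ⟨ta2, tb3, Or.inr ?_⟩
        have := le_abs_self ((orb (↑F) σ ta2).1.2 - (orb (↑F) σ tb3).1.2)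
        omega
      · refine ⟨tb2, ta3, Or.inr ?_⟩
        have := le_abs_self ((orb (↑F) σ tb2).1.2 - (orb (↑F) σ ta3).1.2)
        omega
  obtain ⟨T, rfl⟩ : ∃ T, t2 = T + t1 := ⟨t2 - t1, by omega⟩
  rw [orb_add] at hfar
  set σ1 : St := orb (↑F) σ t1 with hσ1'
  obtain ⟨s, hsT, hs⟩ := pb_leave hlay (σ := σ1) (T := T) (by
    rcases hfar with h | h
    · exact Or.inl (by omega)
    · exact Or.inr (by omega))
  set σ' : St := orb (↑F) σ1 s with hσ'
  have hσ'' : σ' = orb (↑F) σ (s + t1) := by rw [orb_add]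
  -- the orbit of `σ'` goes far
  have hgo : ∃ t, Far σ'.1 R (orb (↑F) σ' t).1 := by
    obtain ⟨p, hp, hpσ⟩ := pb_period (n := n) (F := (↑F : Set Edg)) (σ := σ1) (by
      intro s'
      have := horb (s' + t1)
      rw [orb_add] at this
      exact hbox _ this)
    have hback : orb (↑F : Set Edg) σ' (s * p - s) = σ1 := by
      rw [hσ', ← orb_add]
      have : s * p - s + s = s * p := Nat.sub_add_cancel (Nat.le_mul_of_pos_right s hp)
      rw [this]
      exact pb_period_mul hpσ s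
    have hfwd : orb (↑F : Set Edg) σ' (T - s) = orb (↑F) σ1 T := by
      rw [hσ', ← orb_add, Nat.sub_add_cancel hsT]
    by_contra hcon
    push Not at hcon
    have h3 := hcon (s * p - s)
    have h4 := hcon (T - s)
    rw [hback] at h3
    rw [hfwd] at h4
    unfold Far at h3 h4
    push Not at h3 h4
    rcases hfar with h | h
    · rcases abs_cases (σ1.1.1 - (orb (↑F) σ1 T).1.1) with ⟨h5, -⟩ | ⟨h5, -⟩ <;> omega
    · rcases abs_cases (σ1.1.2 - (orb (↑F) σ1 T).1.2) with ⟨h5, -⟩ | ⟨h5, -⟩ <;> omega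
  have hpin : RP P t0 c0 E0 a0 σ' Set.univ (↑F) := by
    by_contra hcon
    exact hlow ⟨σ', hs, hgo, hcon⟩
  have hvLbox := hbox vL hvL
  unfold inR at hvLbox
  have hout := outer_left hF (σ := σ) rfl hleft' hvLbox.1.1 hvLbox.2.1
  have hEC : EC (↑F : Set Edg) v = EC (↑F) vL := by
    unfold EC
    ext e
    constructor
    · rintro ⟨he, h3⟩
      exact ⟨he, hvL.symm.trans h3⟩
    · rintro ⟨he, h3⟩
      exact ⟨he, hvL.trans h3⟩
  have hout' : Outer (↑F) v (face σ') := by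
    unfold Outer at hout ⊢
    rw [hEC]
    have h3 := pb_dreach (↑F) σ (s + t1)
    rw [← hσ''] at h3
    refine (h3.symm.mono ?_).trans hout
    apply Set.compl_subset_compl.2
    intro e he
    exact he.1
  exact ⟨σ', by rw [hσ'']; exact horb _, hout', hpin⟩

end Pool.Agent.N948.XE
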