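import Pool.Agent.N948.XE.Stm2
import Pool.Agent.H342R3.Tig.RNG
import Pool.Agent.H342R3.Tig.ORB
import Pool.Agent.H342R3.Tig.POL
import Pool.Agent.H342R3.Pin.PLA

/-!
# Project XE (helper948), Y14 (helper349): the tracing path runs through the passages
-/

set_option autoImplicit false

namespace Pool.Agent.N948.XE

open H974 H906.Cyl H12S Finset H389NS H984P H984N H342P H342L H342T H984P.SideAux
open MeasureTheory Filter Topology
open Pool.Agent.W92.DP Pool.Agent.W822.PD Pool.Agent.N948.IX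
open scoped ENNReal NNReal

namespace Y14

/-! ### Windows -/

/-- a passage of the sequence `P` in the window `i ≤ j ≤ l` -/
def W (κ M B U : ℕ) (d : ℤ) (P : ℕ → Vtx) (v : Vtx) (i j l : ℕ) : Prop :=
  i ≤ j ∧ j ≤ l ∧ sd (P j) v ≤ κ ∧ d ≤ sd (P i) v ∧ d ≤ sd (P l) v ∧
    (∀ s s', i ≤ s → s ≤ s' → s' ≤ j → (sd (P s') v) ^ 2 ≤ (M : ℤ) * U * (sd (P s) v + κ)) ∧
    (∀ s s', j ≤ s → s ≤ s' → s' ≤ l → (sd (P s) v) ^ 2 ≤ (M : ℤ) * U * (sd (P s') v + κ)) ∧
    ∀ s s', i ≤ s → s ≤ j → j ≤ s' → s' ≤ l →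
      (max (sd (P s) v) (sd (P s') v)) ^ B ≤ (M : ℤ) * (U : ℤ) ^ (B - 1) *
        (sd (P s) (P s') + κ)

variable {κ M B U : ℕ} {d D : ℤ} {P : ℕ → Vtx} {v : Vtx} {i j l N : ℕ}

theorem per_mul (hper : ∀ k, P (k + N) = P k) (m k : ℕ) : P (k + m * N) = P k := by
  induction m with
  | zero => simp
  | succ m ih =>
    rw [Nat.succ_mul, ← Nat.add_assoc, hper, ih]

theorem W.sub {A : ℕ} (hA : ∀ k, P (k + A) = P k) (hi : A ≤ i) (h : W κ M B U d P v i j l) :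
    W κ M B U d P v (i - A) (j - A) (l - A) := by
  obtain ⟨h1, h2, h3, h4, h5, h6, h7, h8⟩ := h
  have e : ∀ k, A ≤ k → P (k - A) = P k := by
    intro k hk
    rw [← hA (k - A), Nat.sub_add_cancel hk]
  refine ⟨by omega, by omega, ?_, ?_, ?_, ?_, ?_, ?_⟩
  · rw [e j (by omega)]; exact h3
  · rw [e i (by omega)]; exact h4
  · rw [e l (by omega)]; exact h5
  · intro s s' a b c
    rw [← hA s, ← hA s']
    exact h6 _ _ (by omega) (by omega) (by omega)
  · intro s s' a b c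
    rw [← hA s, ← hA s']
    exact h7 _ _ (by omega) (by omega) (by omega)
  · intro s s' a b c c'
    rw [← hA s, ← hA s']
    exact h8 _ _ (by omega) (by omega) (by omega) (by omega)

theorem W.restr {i' l' : ℕ} (h : W κ M B U D P v i j l) (hi : i ≤ i') (hi' : i' ≤ j)
    (hl : j ≤ l') (hl' : l' ≤ l) (h1 : d ≤ sd (P i') v) (h2 : d ≤ sd (P l') v) :
    W κ M B U d P v i' j l' := by
  obtain ⟨-, -, h3, -, -, h6, h7, h8⟩ := h
  exact ⟨hi', hl, h3, h1, h2, fun s s' a b c => h6 s s' (by omega) b c,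
    fun s s' a b c => h7 s s' a b (by omega),
    fun s s' a b c e => h8 s s' (by omega) b c (by omega)⟩

/-- the smallest window around `j` -/
theorem W.small (hD : (κ : ℤ) < D) (h : W κ M B U D P v i j l) : ∃ i' l', i ≤ i' ∧ i' < j ∧
    j < l' ∧ W κ M B U D P v i' j l' ∧ ∀ s, i' < s → s < l' → sd (P s) v < D := by
  classical
  have h0 := h
  obtain ⟨h1, h2, h3, h4, h5, -⟩ := h0
  have hex : ∃ k, j ≤ k ∧ D ≤ sd (P k) v := ⟨l, h2, h5⟩
  obtain ⟨l', hl'⟩ : ∃ l', l' = Nat.find hex := ⟨_, rfl⟩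
  have hl1 := Nat.find_spec hex
  have hl2 : Nat.find hex ≤ l := Nat.find_min' hex ⟨h2, h5⟩
  rw [← hl'] at hl1 hl2
  have hl3 : ∀ s, j ≤ s → s < l' → sd (P s) v < D := by
    intro s hs hs'
    rw [hl'] at hs'
    have := Nat.find_min hex hs'
    by_contra hcon
    exact this ⟨hs, not_lt.1 hcon⟩
  obtain ⟨i', hi'⟩ : ∃ i', i' = Nat.findGreatest (fun k => D ≤ sd (P k) v) j := ⟨_, rfl⟩
  have hi1 : D ≤ sd (P i') v := by
    rw [hi']
    exact Nat.findGreatest_spec (P := fun k => D ≤ sd (P k) v) h1 h4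
  have hi2 : i ≤ i' := by
    rw [hi']
    exact Nat.le_findGreatest h1 h4
  have hi3 : i' ≤ j := by
    rw [hi']
    exact Nat.findGreatest_le j
  have hi4 : ∀ s, i' < s → s ≤ j → sd (P s) v < D := by
    intro s hs hs'
    rw [hi'] at hs
    have := Nat.findGreatest_is_greatest hs hs'
    exact not_le.1 this
  have hij : i' ≠ j := by
    rintro rfl
    linarith
  have hjl : j ≠ l' := by
    rintro rfl
    linarith [hl1.2]
  refine ⟨i', l', hi2, by omega, by omega, h.restr hi2 hi3 hl1.1 hl2 hi1 hl1.2, ?_⟩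
  intro s hs hs'
  rcases le_total s j with hsj | hsj
  · exact hi4 s hs hsj
  · exact hl3 s hsj hs'

/-- the window fits in one period -/
theorem W.fit (hN : 0 < N) (hper : ∀ k, P (k + N) = P k) (h0 : d ≤ sd (P 0) v)
    (hκ : (κ : ℤ) < d) (hdD : d ≤ D) (h : W κ M B U D P v i j l) :
    ∃ i' j' l', l' ≤ N ∧ W κ M B U d P v i' j' l' := by
  obtain ⟨i', l', -, h1, h2, h3, h4⟩ := h.small (hκ.trans_le hdD)
  have hi := h3.2.2.2.1
  have hl := h3.2.2.2.2.1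
  have hj := h3.2.2.1
  have hlen : l' ≤ i' + N := by
    by_contra hcon
    have := h4 (i' + N) (by omega) (by omega)
    rw [hper] at this
    linarith
  have hm := per_mul hper (i' / N)
  have hm' := per_mul hper (i' / N + 1)
  have ha : i' / N * N ≤ i' := Nat.div_mul_le_self i' N
  have hb : i' < (i' / N + 1) * N := by
    rw [Nat.add_mul, Nat.one_mul]
    have := Nat.div_add_mod i' N
    have h5 := Nat.mod_lt i' hN
    rw [Nat.mul_comm] at this
    omega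
  have hab : (i' / N + 1) * N = i' / N * N + N := by ring
  rcases le_or_gt l' (i' / N * N + N) with hc | hc
  · refine ⟨_, _, _, ?_, (h3.restr (d := d) le_rfl h1.le h2.le le_rfl (hdD.trans hi)
      (hdD.trans hl)).sub hm ha⟩
    omega
  · have hPb : P ((i' / N + 1) * N) = P 0 := by
      have := hm' 0
      rwa [Nat.zero_add] at this
    have hbj : (i' / N + 1) * N ≠ j := by
      intro he
      rw [← he, hPb] at hj
      linarith
    have hdb : d ≤ sd (P ((i' / N + 1) * N)) v := by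
      rw [hPb]
      exact h0
    rcases lt_or_gt_of_ne hbj with hlt | hgt
    · refine ⟨_, _, _, ?_, (h3.restr (d := d) hb.le hlt.le h2.le le_rfl hdb
        (hdD.trans hl)).sub hm' le_rfl⟩
      omega
    · refine ⟨_, _, _, ?_, (h3.restr (d := d) le_rfl h1.le hgt.le (by omega) (hdD.trans hi)
        hdb).sub hm ha⟩
      omega

/-! ### Nodes -/

/-- the index of the last node before the time `x` -/
noncomputable def nd (N : ℕ) (x : unitInterval) : ℕ := ⌊(x : ℝ) * N⌋₊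

/-- the time of a node -/
noncomputable def nt (N i : ℕ) (h : i ≤ N) : unitInterval :=
  ⟨(i : ℝ) / N, by positivity, by
    rcases Nat.eq_zero_or_pos N with h0 | h0
    · subst h0
      simp
    · rw [div_le_one (by exact_mod_cast h0)]
      exact_mod_cast h⟩

theorem nt_le {N i j : ℕ} (hi : i ≤ N) (hj : j ≤ N) (h : i ≤ j) : nt N i hi ≤ nt N j hj := by
  have h1 : (i : ℝ) ≤ j := by exact_mod_cast h
  have h2 : (i : ℝ) / N ≤ (j : ℝ) / N := by gcongr
  exact h2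

theorem nd_le (N : ℕ) (x : unitInterval) : nd N x ≤ N := by
  unfold nd
  have h0 : (0 : ℝ) ≤ N := Nat.cast_nonneg N
  have h1 : (x : ℝ) * N ≤ N := by nlinarith [x.2.2]
  exact Nat.floor_le_of_le h1

theorem nd_mono {N : ℕ} {x y : unitInterval} (h : x ≤ y) : nd N x ≤ nd N y := by
  unfold nd
  apply Nat.floor_le_floor
  exact mul_le_mul_of_nonneg_right h (Nat.cast_nonneg N)

theorem le_nd {N i : ℕ} (hi : i ≤ N) {x : unitInterval} (h : nt N i hi ≤ x) : i ≤ nd N x := by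
  unfold nd
  apply Nat.le_floor
  rcases Nat.eq_zero_or_pos N with h0 | h0
  · subst h0
    have h1 : i = 0 := by omega
    subst h1
    simp
  · have h1 : (i : ℝ) / N ≤ x := h
    rwa [div_le_iff₀ (by exact_mod_cast h0)] at h1

theorem nd_le' {N j : ℕ} (hj : j ≤ N) {x : unitInterval} (h : x ≤ nt N j hj) : nd N x ≤ j := by
  unfold nd
  apply Nat.floor_le_of_le
  rcases Nat.eq_zero_or_pos N with h0 | h0
  · subst h0
    simp
  · have h1 : (x : ℝ) ≤ (j : ℝ) / N := h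
    rwa [le_div_iff₀ (by exact_mod_cast h0)] at h1

theorem nd_nt {N j : ℕ} (hj : j ≤ N) : nd N (nt N j hj) = j :=
  le_antisymm (nd_le' hj le_rfl) (le_nd hj le_rfl)

theorem near {N : ℕ} (hN : 0 < N) {p : ℕ → ℂ} {δ : ℝ} (hδ : 0 ≤ δ)
    (h : ∀ k < N, dist (p k) (p (k + 1)) ≤ δ) (x : unitInterval) :
    dist (poly p N x) (p (nd N x)) ≤ δ := by
  have h0 : 0 ≤ (x : ℝ) * N := mul_nonneg x.2.1 (Nat.cast_nonneg N)
  obtain ⟨-, q1, -, q2⟩ := t_POL p N hN
  rcases lt_or_ge (nd N x) N with h1 | h1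
  · have h2 : ((nd N x : ℕ) : ℝ) ≤ N * x := by
      rw [mul_comm]
      exact Nat.floor_le h0
    have h3 : (N : ℝ) * x ≤ (nd N x : ℕ) + 1 := by
      rw [mul_comm]
      exact (Nat.lt_floor_add_one _).le
    rw [q2 _ h1 x h2 h3, dist_eq_norm]
    have e : p (nd N x) + (((N : ℝ) * x - (nd N x : ℕ) : ℝ) : ℂ) *
        (p (nd N x + 1) - p (nd N x)) - p (nd N x) =
        (((N : ℝ) * x - (nd N x : ℕ) : ℝ) : ℂ) * (p (nd N x + 1) - p (nd N x)) := by ring
    rw [e, norm_mul, Complex.norm_real, Real.norm_eq_abs, abs_of_nonneg (by linarith)]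
    have h4 := h _ h1
    rw [dist_comm, dist_eq_norm] at h4
    have h5 := norm_nonneg (p (nd N x + 1) - p (nd N x))
    nlinarith
  · have h2 : nd N x = N := le_antisymm (nd_le N x) h1
    have h3 : x = 1 := by
      have h4 : (0 : ℝ) < N := by exact_mod_cast hN
      have h5 : ((nd N x : ℕ) : ℝ) ≤ x * N := Nat.floor_le h0
      rw [h2] at h5
      apply Subtype.ext
      show (x : ℝ) = 1
      apply le_antisymm x.2.2
      by_contra hcon
      push Not at hcon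
      nlinarith
    rw [h2, h3, q1, dist_self]
    exact hδ

/-! ### Distances -/

theorem sd_nonneg (u v : Vtx) : (0 : ℝ) ≤ ((sd u v : ℤ) : ℝ) := by
  have : (0 : ℤ) ≤ sd u v := (abs_nonneg _).trans (le_max_left _ _)
  exact_mod_cast this

theorem sd_re (u v : Vtx) : |(u.1 : ℝ) - v.1| ≤ ((sd u v : ℤ) : ℝ) := by
  have : |u.1 - v.1| ≤ sd u v := le_max_left _ _
  exact_mod_cast this

theorem sd_im (u v : Vtx) : |(u.2 : ℝ) - v.2| ≤ ((sd u v : ℤ) : ℝ) := by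
  have : |u.2 - v.2| ≤ sd u v := le_max_right _ _
  exact_mod_cast this

theorem sd_le_cast {u v : Vtx} {a : ℝ} (h1 : |(u.1 : ℝ) - v.1| ≤ a) (h2 : |(u.2 : ℝ) - v.2| ≤ a) :
    ((sd u v : ℤ) : ℝ) ≤ a := by
  have e : ((sd u v : ℤ) : ℝ) = max |(u.1 : ℝ) - v.1| |(u.2 : ℝ) - v.2| := by
    unfold sd
    push_cast
    rfl
  rw [e]
  exact max_le h1 h2

theorem pt_up {n : ℕ} (hn : 0 < n) (u v : Vtx) :
    dist (pt n u) (pt n v) ≤ 2 * (1 / n * ((sd u v : ℤ) : ℝ)) := by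
  have hn' : (0 : ℝ) < n := by exact_mod_cast hn
  rw [dist_eq_norm]
  refine (Complex.norm_le_abs_re_add_abs_im _).trans ?_
  rw [Complex.sub_re, Complex.sub_im]
  have e1 : |(pt n u).re - (pt n v).re| ≤ 1 / n * ((sd u v : ℤ) : ℝ) := by
    simp only [pt]
    rw [← sub_div, abs_div, Nat.abs_cast, div_le_iff₀ hn']
    refine (sd_re u v).trans (le_of_eq ?_)
    field_simp
  have e2 : |(pt n u).im - (pt n v).im| ≤ 1 / n * ((sd u v : ℤ) : ℝ) := by
    simp only [pt]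
    rw [← sub_div, abs_div, Nat.abs_cast, div_le_iff₀ hn']
    refine (sd_im u v).trans (le_of_eq ?_)
    field_simp
  linarith

theorem pt_lo {n : ℕ} (hn : 0 < n) (u v : Vtx) :
    1 / n * ((sd u v : ℤ) : ℝ) ≤ dist (pt n u) (pt n v) := by
  have hn' : (0 : ℝ) < n := by exact_mod_cast hn
  have h1 := H342N.PLA_dist_re n u v
  have h2 := H342N.PLA_dist_im n u v
  rw [div_le_iff₀ hn'] at h1 h2
  have h3 := sd_le_cast h1 h2
  rw [one_div, ← div_eq_inv_mul, div_le_iff₀ hn']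
  exact h3

/-- one step of the interface -/
theorem step (n : ℕ) (F : Set Edg) (σ : St) :
    dist (pt n σ.1) (pt n (nxt F σ).1) ≤ 1 / n := by
  have hn : (0 : ℝ) ≤ 1 / n := by positivity
  by_cases h : ae σ ∈ F
  · rw [nxt_open h]
    rw [dist_eq_norm]
    refine (Complex.norm_le_abs_re_add_abs_im _).trans ?_
    rw [Complex.sub_re, Complex.sub_im]
    obtain ⟨⟨x, y⟩, q⟩ := σ
    cases q <;> simp only [pt, mv] <;> rw [← sub_div, ← sub_div, abs_div, abs_div, Nat.abs_cast,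
      ← add_div] <;> apply div_le_div_of_nonneg_right _ (Nat.cast_nonneg n) <;> push_cast <;>
      simp
  · rw [nxt_closed h]
    have : (rt σ).1 = σ.1 := by
      obtain ⟨x, q⟩ := σ
      cases q <;> rfl
    rw [this, dist_self]
    exact hn

/-! ### The curve -/

theorem c_near {n N : ℕ} {P : ℕ → Vtx} (hN : 0 < N)
    (hP : ∀ k, dist (pt n (P k)) (pt n (P (k + 1))) ≤ 1 / n) (x : unitInterval) :
    dist (poly (fun k => pt n (P k)) N x) (pt n (P (nd N x))) ≤ 1 / n :=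
  near (p := fun k => pt n (P k)) hN (by positivity) (fun k _ => hP k) x

theorem up {n N : ℕ} {P : ℕ → Vtx} (hn : 0 < n) (hN : 0 < N)
    (hP : ∀ k, dist (pt n (P k)) (pt n (P (k + 1))) ≤ 1 / n) (v : Vtx) (x : unitInterval) :
    dist (poly (fun k => pt n (P k)) N x) (pt n v) ≤
      2 * (1 / n * ((sd (P (nd N x)) v : ℤ) : ℝ)) + 1 / n := by
  have h1 := c_near hN hP x
  have h2 := pt_up hn (P (nd N x)) v
  have h3 := dist_triangle (poly (fun k => pt n (P k)) N x) (pt n (P (nd N x))) (pt n v)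
  linarith

theorem lo {n N : ℕ} {P : ℕ → Vtx} (hn : 0 < n) (hN : 0 < N)
    (hP : ∀ k, dist (pt n (P k)) (pt n (P (k + 1))) ≤ 1 / n) (v : Vtx) (x : unitInterval) :
    1 / n * ((sd (P (nd N x)) v : ℤ) : ℝ) ≤
      dist (poly (fun k => pt n (P k)) N x) (pt n v) + 2 * (1 / n) := by
  have h0 : (0 : ℝ) ≤ 1 / n := by positivity
  have h1 := c_near hN hP x
  have h2 := pt_lo hn (P (nd N x)) v
  have h3 := dist_triangle_left (pt n (P (nd N x))) (pt n v) (poly (fun k => pt n (P k)) N x)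
  linarith

theorem lo2 {n N : ℕ} {P : ℕ → Vtx} (hn : 0 < n) (hN : 0 < N)
    (hP : ∀ k, dist (pt n (P k)) (pt n (P (k + 1))) ≤ 1 / n) (x y : unitInterval) :
    1 / n * ((sd (P (nd N x)) (P (nd N y)) : ℤ) : ℝ) ≤
      dist (poly (fun k => pt n (P k)) N x) (poly (fun k => pt n (P k)) N y) + 2 * (1 / n) := by
  have h1 := c_near hN hP x
  have h1' := c_near hN hP y
  have h2 := pt_lo hn (P (nd N x)) (P (nd N y))
  have h4 := dist_triangle_left (pt n (P (nd N x))) (pt n (P (nd N y)))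
    (poly (fun k => pt n (P k)) N x)
  have h5 := dist_triangle (poly (fun k => pt n (P k)) N x) (poly (fun k => pt n (P k)) N y)
    (pt n (P (nd N y)))
  linarith

/-- the quadratic bounds -/
theorem sq_bd {D D' a a' q K κ δ ε' X : ℝ} (hK : 0 ≤ K) (hq : 0 ≤ q) (hδ : 0 < δ) (hδ1 : δ ≤ 1)
    (hκ : 0 ≤ κ) (hε : (2 * κ + 3) * δ ≤ ε') (hD' : 0 ≤ D') (ha' : 0 ≤ a')
    (hX : 0 ≤ X) (hD : 0 ≤ D) (h1 : D' ≤ 2 * a' + δ) (h2 : a ≤ D + 2 * δ)
    (h3 : a' ^ 2 ≤ K * q * (a + δ * κ)) :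
    D' ^ 2 ≤ (8 * K * q + 8 + X) * (D + ε') := by
  have h4 : D' ^ 2 ≤ (2 * a' + δ) ^ 2 := pow_le_pow_left₀ hD' h1 2
  have h5 : (2 * a' + δ) ^ 2 ≤ 8 * a' ^ 2 + 2 * δ ^ 2 := by nlinarith [sq_nonneg (2 * a' - δ)]
  have h6 : 0 ≤ K * q := by positivity
  have hκδ : 0 ≤ κ * δ := by positivity
  have h7 : a + δ * κ ≤ D + ε' := by nlinarith
  have h8 := mul_le_mul_of_nonneg_left h7 h6
  have h9 : δ ^ 2 ≤ δ := by nlinarith
  have h10 : δ ≤ ε' := by nlinarith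
  have h11 : 0 ≤ X * (D + ε') := by
    have : 0 ≤ D + ε' := by linarith
    positivity
  nlinarith

/-- the bound with the power `B` -/
theorem pow_bd {D1 D2 D mx s2 q K κ δ ε' X : ℝ} {B : ℕ} (hB : 1 ≤ B) (hK : 0 ≤ K) (hq : 0 ≤ q)
    (hδ : 0 < δ) (hδ1 : δ ≤ 1) (hκ : 0 ≤ κ) (hε : (2 * κ + 3) * δ ≤ ε') (hX : 0 ≤ X)
    (hD1 : 0 ≤ D1) (hD2 : 0 ≤ D2) (hmx : 0 ≤ mx) (hD : 0 ≤ D) (h1 : D1 ≤ 2 * mx + δ)
    (h2 : D2 ≤ 2 * mx + δ) (h3 : s2 ≤ D + 2 * δ)
    (h4 : mx ^ B ≤ K * q ^ (B - 1) * (s2 + δ * κ)) :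
    (max D1 D2) ^ B ≤ (X + 4 ^ B * (K * q ^ (B - 1) + 1)) * (D + ε') := by
  have e1 : (max D1 D2) ^ B ≤ (2 * mx + δ) ^ B :=
    pow_le_pow_left₀ (le_max_of_le_left hD1) (max_le h1 h2) B
  have e2 : (2 * mx + δ) ^ B ≤ 2 ^ (B - 1) * ((2 * mx) ^ B + δ ^ B) :=
    add_pow_le (by positivity) hδ.le B
  have e3 : δ ^ B ≤ δ := pow_le_of_le_one hδ.le hδ1 (by omega)
  have e4 : (2 : ℝ) ^ (B - 1) ≤ 2 ^ B := pow_le_pow_right₀ (by norm_num) (by omega)
  have e5 : (2 * mx) ^ B = 2 ^ B * mx ^ B := mul_pow _ _ _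
  have e6 : (1 : ℝ) ≤ 2 ^ B := one_le_pow₀ (by norm_num)
  have e7 : (4 : ℝ) ^ B = 2 ^ B * 2 ^ B := by rw [← mul_pow]; norm_num
  have hmB : 0 ≤ mx ^ B := by positivity
  have e8 : 2 ^ (B - 1) * ((2 * mx) ^ B + δ ^ B) ≤ 4 ^ B * (mx ^ B + δ) := by
    rw [e5, e7]
    have f1 : 2 ^ B * mx ^ B + δ ^ B ≤ 2 ^ B * (mx ^ B + δ) := by nlinarith
    calc 2 ^ (B - 1) * (2 ^ B * mx ^ B + δ ^ B) ≤ 2 ^ B * (2 ^ B * mx ^ B + δ ^ B) :=
          mul_le_mul_of_nonneg_right e4 (by positivity)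
      _ ≤ 2 ^ B * (2 ^ B * (mx ^ B + δ)) := mul_le_mul_of_nonneg_left f1 (by positivity)
      _ = 2 ^ B * 2 ^ B * (mx ^ B + δ) := by ring
  have hκδ : 0 ≤ κ * δ := by positivity
  have h7 : s2 + δ * κ ≤ D + ε' := by nlinarith
  have h10 : δ ≤ ε' := by nlinarith
  have h6 : 0 ≤ K * q ^ (B - 1) := by positivity
  have h8 := mul_le_mul_of_nonneg_left h7 h6
  have h9 : mx ^ B + δ ≤ (K * q ^ (B - 1) + 1) * (D + ε') := by nlinarith
  have h11 : 0 ≤ X * (D + ε') := by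
    have : 0 ≤ D + ε' := by linarith
    positivity
  have h12 := mul_le_mul_of_nonneg_left h9 (by positivity : (0 : ℝ) ≤ 4 ^ B)
  calc (max D1 D2) ^ B ≤ 4 ^ B * (mx ^ B + δ) := e1.trans (e2.trans e8)
    _ ≤ 4 ^ B * ((K * q ^ (B - 1) + 1) * (D + ε')) := h12
    _ ≤ (X + 4 ^ B * (K * q ^ (B - 1) + 1)) * (D + ε') := by nlinarith

/-- the windows of the sequence are passages of the curve -/
theorem core {κ K B U : ℕ} {d : ℤ} {P : ℕ → Vtx} {v : Vtx} {i j l N : ℕ}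
    {c : C(unitInterval, ℂ)} {δ : ℝ} {z : ℂ} (hδ : 0 < δ) (hδ1 : δ ≤ 1)
    (hup : ∀ x, dist (c x) z ≤ 2 * (δ * ((sd (P (nd N x)) v : ℤ) : ℝ)) + δ)
    (hlo : ∀ x, δ * ((sd (P (nd N x)) v : ℤ) : ℝ) ≤ dist (c x) z + 2 * δ)
    (hlo2 : ∀ x y, δ * ((sd (P (nd N x)) (P (nd N y)) : ℤ) : ℝ) ≤ dist (c x) (c y) + 2 * δ)
    (hcut : W κ K B U d P v i j l) (hl : l ≤ N) (hB : 1 ≤ B)
    {Kc : Set ℂ} (hKc : z ∈ Kc) {η ε' q : ℝ} (hη : η ≤ δ * d) (hq : δ * U ≤ q)
    (hε : (2 * (κ : ℝ) + 3) * δ ≤ ε') :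
    z ∈ QQ η (8 * K * q + 8 + 4 ^ B * (K * q ^ (B - 1) + 1)) B ε' Kc c := by
  obtain ⟨hij, hjl, c1, c2, c3, c4, c5, c6⟩ := hcut
  have hU0 : (0 : ℝ) ≤ δ * U := by positivity
  have hq0 : 0 ≤ q := hU0.trans hq
  have hκδ : 0 ≤ (κ : ℝ) * δ := by positivity
  have hεδ : 2 * δ ≤ ε' := by nlinarith
  have hjN : j ≤ N := hjl.trans hl
  have hiN : i ≤ N := hij.trans hjN
  have hX1 : (0 : ℝ) ≤ 4 ^ B * (K * q ^ (B - 1) + 1) := by positivity
  have hX2 : (0 : ℝ) ≤ 8 * K * q + 8 := by positivity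
  refine ⟨hKc, nt _ i hiN, nt _ j hjN, nt _ l hl, nt_le _ _ hij, nt_le _ _ hjl, ?_, ?_, ?_, ?_,
    ?_, ?_⟩
  · have h1 := hup (nt _ j hjN)
    rw [nd_nt] at h1
    have h2 : ((sd (P j) v : ℤ) : ℝ) ≤ κ := by exact_mod_cast c1
    have h3 := mul_le_mul_of_nonneg_left h2 hδ.le
    nlinarith
  · have h1 := hlo (nt _ i hiN)
    rw [nd_nt] at h1
    have h2 : (d : ℝ) ≤ ((sd (P i) v : ℤ) : ℝ) := by exact_mod_cast c2
    have h3 := mul_le_mul_of_nonneg_left h2 hδ.le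
    linarith
  · have h1 := hlo (nt _ l hl)
    rw [nd_nt] at h1
    have h2 : (d : ℝ) ≤ ((sd (P l) v : ℤ) : ℝ) := by exact_mod_cast c3
    have h3 := mul_le_mul_of_nonneg_left h2 hδ.le
    linarith
  · intro x y hx hxy hy
    have h1 := c4 (nd _ x) (nd _ y) (le_nd hiN hx) (nd_mono hxy) (nd_le' hjN hy)
    have h2 : (((sd (P (nd N y)) v : ℤ) : ℝ)) ^ 2 ≤
        (K : ℝ) * U * (((sd (P (nd N x)) v : ℤ) : ℝ) + κ) := by exact_mod_cast h1
    have n1 := sd_nonneg (P (nd N x)) v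
    have n2 := sd_nonneg (P (nd N y)) v
    refine sq_bd (a := δ * ((sd (P (nd N x)) v : ℤ) : ℝ))
      (a' := δ * ((sd (P (nd N y)) v : ℤ) : ℝ)) (Nat.cast_nonneg K) hq0 hδ hδ1
      (Nat.cast_nonneg κ) hε dist_nonneg (by positivity) hX1 dist_nonneg (hup y)
      (hlo x) ?_
    have h3 := mul_le_mul_of_nonneg_left h2 (by positivity : (0 : ℝ) ≤ δ ^ 2)
    have h4 : δ ^ 2 * ((K : ℝ) * U * (((sd (P (nd N x)) v : ℤ) : ℝ) + κ)) =
        K * (δ * U) * (δ * ((sd (P (nd N x)) v : ℤ) : ℝ) + δ * κ) := by ring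
    have h5 : (K : ℝ) * (δ * U) * (δ * ((sd (P (nd N x)) v : ℤ) : ℝ) + δ * κ) ≤
        K * q * (δ * ((sd (P (nd N x)) v : ℤ) : ℝ) + δ * κ) := by
      apply mul_le_mul_of_nonneg_right _ (by positivity)
      exact mul_le_mul_of_nonneg_left hq (Nat.cast_nonneg K)
    rw [mul_pow]
    linarith
  · intro x y hx hxy hy
    have h1 := c5 (nd _ x) (nd _ y) (le_nd hjN hx) (nd_mono hxy) (nd_le' hl hy)
    have h2 : (((sd (P (nd N x)) v : ℤ) : ℝ)) ^ 2 ≤
        (K : ℝ) * U * (((sd (P (nd N y)) v : ℤ) : ℝ) + κ) := by exact_mod_cast h1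
    have n1 := sd_nonneg (P (nd N x)) v
    have n2 := sd_nonneg (P (nd N y)) v
    refine sq_bd (a := δ * ((sd (P (nd N y)) v : ℤ) : ℝ))
      (a' := δ * ((sd (P (nd N x)) v : ℤ) : ℝ)) (Nat.cast_nonneg K) hq0 hδ hδ1
      (Nat.cast_nonneg κ) hε dist_nonneg (by positivity) hX1 dist_nonneg (hup x)
      (hlo y) ?_
    have h3 := mul_le_mul_of_nonneg_left h2 (by positivity : (0 : ℝ) ≤ δ ^ 2)
    have h4 : δ ^ 2 * ((K : ℝ) * U * (((sd (P (nd N y)) v : ℤ) : ℝ) + κ)) =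
        K * (δ * U) * (δ * ((sd (P (nd N y)) v : ℤ) : ℝ) + δ * κ) := by ring
    have h5 : (K : ℝ) * (δ * U) * (δ * ((sd (P (nd N y)) v : ℤ) : ℝ) + δ * κ) ≤
        K * q * (δ * ((sd (P (nd N y)) v : ℤ) : ℝ) + δ * κ) := by
      apply mul_le_mul_of_nonneg_right _ (by positivity)
      exact mul_le_mul_of_nonneg_left hq (Nat.cast_nonneg K)
    rw [mul_pow]
    linarith
  · intro x y hx hxu hy hyl
    have h1 := c6 (nd _ x) (nd _ y) (le_nd hiN hx) (nd_le' hjN hxu) (le_nd hjN hy) (nd_le' hl hyl)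
    have h2 : (max ((sd (P (nd N x)) v : ℤ) : ℝ) ((sd (P (nd N y)) v : ℤ) : ℝ)) ^ B ≤
        (K : ℝ) * (U : ℝ) ^ (B - 1) * (((sd (P (nd N x)) (P (nd N y)) : ℤ) : ℝ) + κ) := by
      exact_mod_cast h1
    have n1 := sd_nonneg (P (nd N x)) v
    have n2 := sd_nonneg (P (nd N y)) v
    have n3 := sd_nonneg (P (nd N x)) (P (nd N y))
    set mx : ℝ := max ((sd (P (nd N x)) v : ℤ) : ℝ) ((sd (P (nd N y)) v : ℤ) : ℝ) with hmx
    have n4 : 0 ≤ mx := le_max_of_le_left n1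
    refine pow_bd (mx := δ * mx) (s2 := δ * ((sd (P (nd N x)) (P (nd N y)) : ℤ) : ℝ)) (κ := κ) hB
      (Nat.cast_nonneg K) hq0 hδ hδ1 (Nat.cast_nonneg κ) hε hX2 dist_nonneg dist_nonneg
      (by positivity) dist_nonneg ?_ ?_ (hlo2 x y) ?_
    · have h3 := hup x
      have h4 := mul_le_mul_of_nonneg_left (le_max_left ((sd (P (nd N x)) v : ℤ) : ℝ)
        ((sd (P (nd N y)) v : ℤ) : ℝ)) hδ.le
      rw [← hmx] at h4
      linarith
    · have h3 := hup y
      have h4 := mul_le_mul_of_nonneg_left (le_max_right ((sd (P (nd N x)) v : ℤ) : ℝ)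
        ((sd (P (nd N y)) v : ℤ) : ℝ)) hδ.le
      rw [← hmx] at h4
      linarith
    · have h3 := mul_le_mul_of_nonneg_left h2 (by positivity : (0 : ℝ) ≤ δ ^ B)
      have e1 : δ ^ B = δ ^ (B - 1) * δ := by
        rw [← pow_succ]
        congr 1
        omega
      have h4 : δ ^ B * ((K : ℝ) * (U : ℝ) ^ (B - 1) *
          (((sd (P (nd N x)) (P (nd N y)) : ℤ) : ℝ) + κ)) =
          K * (δ * U) ^ (B - 1) * (δ * ((sd (P (nd N x)) (P (nd N y)) : ℤ) : ℝ) + δ * κ) := by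
        rw [e1, mul_pow]
        ring
      have h5 : (K : ℝ) * (δ * U) ^ (B - 1) *
          (δ * ((sd (P (nd N x)) (P (nd N y)) : ℤ) : ℝ) + δ * κ) ≤
          K * q ^ (B - 1) * (δ * ((sd (P (nd N x)) (P (nd N y)) : ℤ) : ℝ) + δ * κ) := by
        apply mul_le_mul_of_nonneg_right _ (by positivity)
        exact mul_le_mul_of_nonneg_left (pow_le_pow_left₀ hU0 hq _) (Nat.cast_nonneg K)
      rw [mul_pow]
      linarith

/-! ### The orbit -/

/-- a vertex with an open edge is in the box -/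
theorem in_box {n : ℕ} {F : Finset Edg} (hF : F ⊆ Plain.edges n) {u v : Vtx}
    (h : Reach (↑F : Set Edg) u v) (hne : u ≠ v) : (0 ≤ u.1 ∧ u.1 ≤ n) ∧ (0 ≤ u.2 ∧ u.2 ≤ n) := by
  rcases Relation.ReflTransGen.cases_head h with h1 | ⟨b, ⟨e, he, hor⟩, -⟩
  · exact absurd h1 hne
  · have h1 : e ∈ RE 0 n 0 n := by
      rw [← Plain.edges_eq]
      exact hF (Finset.mem_coe.1 he)
    obtain ⟨x, y, t⟩ := e
    cases t
    · rw [src_mk, tgt_false] at hor
      rw [mem_RE_false] at h1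
      rcases hor with ⟨rfl, rfl⟩ | ⟨rfl, rfl⟩ <;> simp only <;> omega
    · rw [src_mk, tgt_true] at hor
      rw [mem_RE_true] at h1
      rcases hor with ⟨rfl, rfl⟩ | ⟨rfl, rfl⟩ <;> simp only <;> omega

theorem orb_r (F : Set Edg) (σ : St) (k : ℕ) : Reach F σ.1 (orb F σ k).1 :=
  (orb_reach (W := Set.univ) (T := k) (fun _ _ => Set.mem_univ _) le_rfl).mono
    Set.inter_subset_left

/-- two states of one orbit -/
theorem orb_eq {F : Set Edg} {σ ρ : St} {N s0 s1 : ℕ} (hN : 0 < N) (hper : orb F σ N = σ)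
    (h : orb F σ s1 = orb F ρ s0) : ∃ A, ∀ s, orb F ρ s = orb F σ (s + A) := by
  have h1 : s0 ≤ s0 * N := Nat.le_mul_of_pos_right s0 hN
  obtain ⟨A, hA⟩ : ∃ A, s0 + A = s1 + s0 * N := ⟨s1 + s0 * N - s0, by omega⟩
  refine ⟨A, fun s => ?_⟩
  have h2 : orb F ρ s0 = orb F (orb F σ A) s0 := by
    rw [← orb_add, hA, orb_add, pb_period_mul hper, h]
  have h3 : ρ = orb F σ A := ((nxt_bij F).injective.iterate s0) h2
  rw [orb_add, ← h3]

theorem main : St_CUR6 := by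
  classical
  rintro κ K B hB n F v c hn hκn hF ⟨σt, N, hN, hσt, hot, hper, -, hc⟩
  refine ⟨σt.1, ?_⟩
  intro u d σ w hκd hdu hreach hout hcut hx0 q ε' hq hε
  obtain ⟨ρ, nn, s0, hs0, -, ⟨hr, hdr⟩, i, j, l, b1, b2, b3, b4, b5, b6, b7, b8, b9⟩ := hcut
  obtain ⟨P, hP⟩ : ∃ P : ℕ → Vtx, P = fun k => (orb (↑F : Set Edg) σt k).1 := ⟨_, rfl⟩
  have hperP : ∀ k, P (k + N) = P k := by
    intro k
    rw [hP]
    show (orb (↑F : Set Edg) σt (k + N)).1 = (orb (↑F : Set Edg) σt k).1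
    rw [orb_add, hper]
  have hv : Reach (↑F : Set Edg) v (orb (↑F : Set Edg) ρ s0).1 :=
    hreach.trans (hr.mono Set.inter_subset_left)
  have ho : H342P.Outer (↑F : Set Edg) v (face (orb (↑F : Set Edg) ρ s0)) := by
    have h1 : DReach (EC (↑F : Set Edg) v)ᶜ (face σ) (face (orb (↑F : Set Edg) ρ s0)) :=
      hdr.mono (by
        rintro e ⟨-, he⟩ he'
        exact he he'.1)
    exact h1.symm.trans hout
  obtain ⟨s1, hs1⟩ := t_ORB F v σt (orb (↑F : Set Edg) ρ s0) hσt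
    ((Plain.mem_cluster F v _).2 hv) hot ((Plain.outer_iff F v _).2 ho)
  obtain ⟨A, hA⟩ := orb_eq hN hper hs1
  have hPA : ∀ s, (orb (↑F : Set Edg) ρ s).1 = P (s + A) := by
    intro s
    rw [hA, hP]
  simp only [hPA] at b4 b5 b6 b7 b8 b9
  have hW : W κ K B u (3 * (u : ℤ)) P w (i + A) (j + A) (l + A) := by
    refine ⟨by omega, by omega, b4, b5, b6, ?_, ?_, ?_⟩
    · intro s s' h1 h2 h3
      have := b7 (s - A) (s' - A) (by omega) (by omega) (by omega)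
      rwa [Nat.sub_add_cancel (by omega), Nat.sub_add_cancel (by omega)] at this
    · intro s s' h1 h2 h3
      have := b8 (s - A) (s' - A) (by omega) (by omega) (by omega)
      rwa [Nat.sub_add_cancel (by omega), Nat.sub_add_cancel (by omega)] at this
    · intro s s' h1 h2 h3 h4
      have := b9 (s - A) (s' - A) (by omega) (by omega) (by omega) (by omega)
      rwa [Nat.sub_add_cancel (by omega), Nat.sub_add_cancel (by omega)] at this
  have h0 : (d : ℤ) ≤ sd (P 0) w := by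
    have : P 0 = σt.1 := by rw [hP]; rfl
    rw [this]
    have e : sd σt.1 w = sd w σt.1 := by
      unfold sd
      rw [abs_sub_comm, abs_sub_comm w.2]
    rw [e]
    exact hx0
  obtain ⟨i', j', l', hl', hW'⟩ := hW.fit (d := (d : ℤ)) hN hperP h0 (by omega) (by omega)
  -- the box
  have hbox : pt n w ∈ K2 := by
    have g1 := hW'.2.2.1
    have g2 := hW'.2.2.2.1
    have hne : P j' ≠ P i' := by
      intro he
      rw [he] at g1
      omega
    have hreach2 : Reach (↑F : Set Edg) (P j') (P i') := by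
      rw [hP]
      exact (orb_r _ σt j').symm.trans (orb_r _ σt i')
    obtain ⟨⟨a1, a2⟩, a3, a4⟩ := in_box hF hreach2 hne
    have g3 : |(P j').1 - w.1| ≤ κ := (le_max_left _ _).trans g1
    have g4 : |(P j').2 - w.2| ≤ κ := (le_max_right _ _).trans g1
    rw [abs_le] at g3 g4
    have hn' : (0 : ℝ) < n := by exact_mod_cast hn
    have c1 : -(n : ℝ) ≤ w.1 := by
      have : -(n : ℤ) ≤ w.1 := by omega
      exact_mod_cast this
    have c2 : (w.1 : ℝ) ≤ 2 * n := by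
      have : w.1 ≤ 2 * (n : ℤ) := by omega
      exact_mod_cast this
    have c3 : -(n : ℝ) ≤ w.2 := by
      have : -(n : ℤ) ≤ w.2 := by omega
      exact_mod_cast this
    have c4 : (w.2 : ℝ) ≤ 2 * n := by
      have : w.2 ≤ 2 * (n : ℤ) := by omega
      exact_mod_cast this
    unfold K2
    rw [Complex.mem_reProdIm, Set.mem_Icc, Set.mem_Icc]
    simp only [pt]
    refine ⟨⟨?_, ?_⟩, ?_, ?_⟩
    · rw [le_div_iff₀ hn']; linarith
    · rw [div_le_iff₀ hn']; linarith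
    · rw [le_div_iff₀ hn']; linarith
    · rw [div_le_iff₀ hn']; linarith
  have hstep : ∀ k, dist (pt n (P k)) (pt n (P (k + 1))) ≤ 1 / n := by
    intro k
    rw [hP]
    show dist (pt n (orb (↑F : Set Edg) σt k).1) (pt n (orb (↑F : Set Edg) σt (k + 1)).1) ≤ 1 / n
    rw [orb_succ]
    exact step n _ _
  have hcc : c.path = poly (fun k => pt n (P k)) N := by
    rw [hc, hP]
  have hn' : (0 : ℝ) < n := by exact_mod_cast hn
  have hn1 : (1 : ℝ) ≤ n := by exact_mod_cast hn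
  rw [hcc]
  refine core (δ := 1 / n) (P := P) (N := N) (v := w) (by positivity)
    (by rw [div_le_one hn']; exact hn1) (up hn hN hstep w) (lo hn hN hstep w)
    (lo2 hn hN hstep) hW' hl' hB hbox (le_of_eq ?_) (le_trans (le_of_eq ?_) hq)
    (le_trans (le_of_eq ?_) hε)
  · push_cast
    ring
  · ring
  · ring

end Y14

/-- **CUR**: the tracing path runs through the passages. -/
theorem cur6 : St_CUR6 := Y14.main

end Pool.Agent.N948.XE
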