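import Pool.Agent.N948.XE.Stm2
import Pool.Agent.N948.IX.X19b
import Pool.Agent.W822.PD.ClosedC

/-!
# Project XE (helper948), task Y15: the abstract passage to the limit for the local cut points of
curves (helper521, after `Pool.Agent.N948.IX.qlim'` and `Pool.Agent.W822.PD.ae_dimC`)
-/

set_option autoImplicit false

namespace Pool.Agent.N948.XE

namespace Y15

open H974 H906.Cyl H12S Finset H389NS H984P H984N H342P H342L H342T
open MeasureTheory Filter Topology Metric
open Pool.Agent.W92.DP Pool.Agent.W822.PD Pool.Agent.N948.IX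
open Pool.Agent.H389R2.Dim Pool.Agent.N948.IX.X19b
open scoped ENNReal NNReal

/-- The approximate local cut points do not depend on the parametrisation. -/
theorem QQ_rep (η M : ℝ) (B : ℕ) (ε : ℝ) (K : Set ℂ) (f : C(unitInterval, ℂ))
    (φ : unitInterval ≃o unitInterval) : QQ η M B ε K (rep f φ) = QQ η M B ε K f := by
  have key : ∀ (g : C(unitInterval, ℂ)) (ψ : unitInterval ≃o unitInterval),
      QQ η M B ε K (rep g ψ) ⊆ QQ η M B ε K g := by
    rintro g ψ z ⟨hz, s, u, v, h1, h2, h3, h4, h5, h6, h7, h8⟩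
    have lo : ∀ a x : unitInterval, ψ a ≤ x → a ≤ ψ.symm x := fun a x h =>
      (ψ.le_symm_apply).2 h
    have up : ∀ a x : unitInterval, x ≤ ψ a → ψ.symm x ≤ a := fun a x h =>
      (ψ.symm_apply_le).2 h
    have e : ∀ x : unitInterval, rep g ψ (ψ.symm x) = g x := fun x => by
      rw [rep_apply, OrderIso.apply_symm_apply]
    refine ⟨hz, ψ s, ψ u, ψ v, ψ.monotone h1, ψ.monotone h2, h3, h4, h5, ?_, ?_, ?_⟩
    · intro x y hx hxy hy
      have h := h6 (ψ.symm x) (ψ.symm y) (lo _ _ hx) (ψ.symm.monotone hxy) (up _ _ hy)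
      rwa [e, e] at h
    · intro x y hx hxy hy
      have h := h7 (ψ.symm x) (ψ.symm y) (lo _ _ hx) (ψ.symm.monotone hxy) (up _ _ hy)
      rwa [e, e] at h
    · intro x y hx hxu hy hyv
      have h := h8 (ψ.symm x) (ψ.symm y) (lo _ _ hx) (up _ _ hxu) (lo _ _ hy) (up _ _ hyv)
      rwa [e, e] at h
  refine Set.Subset.antisymm (key f φ) ?_
  have h1 := key (rep f φ) φ.symm
  have h2 : rep (rep f φ) φ.symm = f := by
    ext t
    rw [rep_apply, rep_apply, OrderIso.apply_symm_apply]
  rwa [h2] at h1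

theorem isClosed_good_curve' {t δ c η M : ℝ} {B : ℕ} {ε : ℝ} {K : Set ℂ} (hK : IsCompact K) :
    IsClosed {γ : Curve | Good t δ c (QQ η M B ε K γ.path)} :=
  isClosed_curve (P := fun f => Good t δ c (QQ η M B ε K f)) (isClosed_good' hK)
    (fun f φ h => by
      rwa [QQ_rep])

/-- The limit points are local cut points. -/
theorem QQ_sub6 {η M : ℝ} (hη : 0 < η) {B : ℕ} {K : Set ℂ} (f : C(unitInterval, ℂ)) :
    QQ η M B 0 K f ⊆ LCc f := by
  rintro z ⟨hz, s, u, v, h1, h2, h3, h4, h5, h6, h7, h8⟩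
  simp only [add_zero] at h4 h5 h6 h7 h8
  have hu : f u = z := dist_le_zero.1 h3
  -- the first time at `z`
  have hcl : IsClosed {x : unitInterval | s ≤ x ∧ x ≤ u ∧ f x = z} :=
    (isClosed_le continuous_const continuous_id).inter
      ((isClosed_le continuous_id continuous_const).inter
        (isClosed_eq f.continuous continuous_const))
  have hne : {x : unitInterval | s ≤ x ∧ x ≤ u ∧ f x = z}.Nonempty := ⟨u, h1, le_rfl, hu⟩
  obtain ⟨u0, ⟨g1, g2, g3⟩, hmin⟩ := hcl.isCompact.exists_isLeast hne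
  have hfs : f s ≠ z := by
    rintro h
    rw [h, dist_self] at h4
    linarith
  have hfv : f v ≠ z := by
    rintro h
    rw [h, dist_self] at h5
    linarith
  have hsu : s < u0 := lt_of_le_of_ne g1 (by rintro rfl; exact hfs g3)
  have huv : u0 < v := lt_of_le_of_lt g2 (lt_of_le_of_ne h2 (by rintro rfl; exact hfv hu))
  have hconst : ∀ y, u0 ≤ y → y ≤ u → f y = z := by
    intro y hy1 hy2
    have h := h6 u0 y g1 hy1 hy2
    rw [g3, dist_self, mul_zero] at h
    exact dist_le_zero.1 (by nlinarith [dist_nonneg (x := f y) (y := z)])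
  refine ⟨s, u0, v, hsu, huv, g3, hfs, hfv, ?_⟩
  rintro w ⟨⟨x, ⟨hx1, hx2⟩, rfl⟩, y, ⟨hy1, hy2⟩, hxy⟩
  change f x = z
  rcases le_total y u with hyu | hyu
  · rw [← hxy]
    exact hconst y hy1 hyu
  · have h := h8 x y hx1 (hx2.trans g2) hyu hy2
    rw [hxy, dist_self, mul_zero, max_self] at h
    by_contra hcon
    have h10 : 0 < dist (f x) z := dist_pos.2 hcon
    have := pow_pos h10 B
    linarith

end Y15

open H974 H906.Cyl H12S Finset H389NS H984P H984N H342P H342L H342T
open MeasureTheory Filter Topology Metric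
open Pool.Agent.W92.DP Pool.Agent.W822.PD Pool.Agent.N948.IX
open Pool.Agent.H389R2.Dim
open scoped ENNReal NNReal

/-- **Abstract passage to the limit.** -/
theorem llc6 : St_LLC6 := by
  intro μs μ hμ t ht h
  rw [ae_iff, ← nonpos_iff_eq_zero]
  apply ENNReal.le_of_forall_pos_le_add
  intro ε hε _
  obtain ⟨c, η, M, B, K, hc, hη, hM, _, hK, h1⟩ := h ε (by exact_mod_cast hε)
  have hopen : ∀ ε' : ℝ, IsOpen {p : Curve | ¬ Good t ε' c (QQ η M B ε' K p.path)} := by
    intro ε'
    exact (Y15.isClosed_good_curve' (t := t) (δ := ε') (c := c) (η := η) (M := M) (B := B)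
      (ε := ε') hK).isOpen_compl
  have h2 : ∀ ε' : ℝ, 0 < ε' →
      (μ : Measure Curve) {p : Curve | ¬ Good t ε' c (QQ η M B ε' K p.path)} ≤ ε := by
    intro ε' hε'
    refine (ProbabilityMeasure.le_liminf_measure_open_of_tendsto hμ (hopen ε')).trans ?_
    exact liminf_le_of_frequently_le (h1 ε' hε').frequently
  set Bd : ℕ → Set Curve := fun n =>
    {p : Curve | ¬ Good t (1 / ((n : ℝ) + 1)) c (QQ η M B (1 / ((n : ℝ) + 1)) K p.path)} with hBd
  have hmono : Monotone Bd := by
    intro n n' hnn p hp hG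
    apply hp
    have h3 := hG.anti (Nat.one_div_le_one_div (α := ℝ) hnn)
    exact h3.mono (X19b.QQ_mono hM.le (Nat.one_div_le_one_div hnn) K p.path)
  have h3 : {p : Curve | ¬ ENNReal.ofReal t ≤ dimH (LCc p.path)} ⊆ ⋃ n : ℕ, Bd n := by
    intro p hp
    by_contra hcon
    simp only [hBd, Set.mem_iUnion, Set.mem_ofPred_eq, not_exists, not_not] at hcon
    apply hp
    have h4 : ∀ δ' : ℝ, 0 < δ' → Good t δ' c (QQ η M B 0 K p.path) := by
      intro δ' hδ'
      apply X19b.good_zero hM.le hK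
      intro n
      obtain ⟨m, hm⟩ := exists_nat_one_div_lt hδ'
      have h5 := hcon (max n m)
      have h6 : (1 : ℝ) / (((max n m : ℕ) : ℝ) + 1) ≤ 1 / ((n : ℝ) + 1) :=
        Nat.one_div_le_one_div (le_max_left _ _)
      have h7 : (1 : ℝ) / (((max n m : ℕ) : ℝ) + 1) ≤ 1 / ((m : ℝ) + 1) :=
        Nat.one_div_le_one_div (le_max_right _ _)
      exact (h5.mono (X19b.QQ_mono hM.le h6 K p.path)).anti (h7.trans hm.le)
    exact (le_dimH_of_good ht hc (X19b.isCompact_QQ hK p.path) h4).trans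
      (dimH_mono (Y15.QQ_sub6 hη p.path))
  refine le_trans (measure_mono h3) ?_
  rw [zero_add, hmono.measure_iUnion]
  exact iSup_le fun n => h2 _ (by positivity)

end Pool.Agent.N948.XE
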