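import Pool.Agent.N948.XE.Stm2
import Pool.Agent.N948.IX.Lim
import Pool.Agent.W978.PD.UL

/-!
# Project XE (helper948), part Y17: upper bound for the local cut points in the open square (by helper359, after
`Pool/Agent/N948/IX/X27.lean` and `Pool/Agent/W978/PD/UL.lean`)
-/

set_option autoImplicit false

namespace Pool.Agent.N948.XE.Y17

open Pool.Agent.N948.XE Pool.Agent.N948.IX
open H974 H12S Finset H389NS H984P H984N H342P H342L H342T Pool.Agent.TH990.FU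
open MeasureTheory Filter Topology Pool.Agent.W92.DP Pool.Agent.W822.PD Pool.Agent.W424.OD
open Pool.Agent.W462.DPL (idx_le sizes okh)
open Pool.Agent.W978.PDUL (poly_close pt_step' ctc near_boxC box_nearC dom_boxC Sq_open)
open Pool.Agent.N948.IX.Lim (E5 E5_open E5_anti seq_up seq_down lf_ne BX_iff src_near lv_tri lv_comm big_pow)
open scoped ENNReal NNReal

/-! ### The points -/

/-- The cut points at scale `η`. -/
def SCc (η : ℝ) (f : C(unitInterval, ℂ)) : Set ℂ :=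
  {z | ∃ s t u : unitInterval, (s < t ∧ t < u) ∧ f t = z ∧ η ≤ dist (f s) z ∧ η ≤ dist (f u) z ∧
    f '' Set.Icc s t ∩ f '' Set.Icc t u ⊆ {z}}

theorem LCc_sub (f : C(unitInterval, ℂ)) : LCc f ⊆ ⋃ i : ℕ, SCc (1 / ((i:ℝ) + 1)) f := by
  rintro z ⟨s, t, u, hst, htu, hz, hs, hu, hd⟩
  have h1 : 0 < dist (f s) z := dist_pos.2 hs
  have h2 : 0 < dist (f u) z := dist_pos.2 hu
  obtain ⟨i, hi⟩ := exists_nat_one_div_lt (lt_min h1 h2)
  exact Set.mem_iUnion.2 ⟨i, s, t, u, ⟨hst, htu⟩, hz, (hi.trans_le (min_le_left _ _)).le,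
    (hi.trans_le (min_le_right _ _)).le, hd⟩

theorem E5_of {η r ρ : ℝ} (hη : 0 < η) {f : C(unitInterval, ℂ)} {z w : ℂ} (hw : w ∈ SCc η f)
    (hwz : dist w z < r) (hρ : ρ + r ≤ η) : f ∈ ⋃ j : ℕ, E5 z r ρ (1 / ((j:ℝ) + 1)) := by
  obtain ⟨s, t, u, ⟨hst, htu⟩, ht, h1, h2, hd⟩ := hw
  have hcl : IsClosed {v : unitInterval | f v = w} := isClosed_eq f.continuous continuous_const
  obtain ⟨t1, ht1, hmin⟩ := (isCompact_Icc.inter_right hcl).exists_isLeast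
    (⟨t, ⟨hst.le, le_rfl⟩, ht⟩ : (Set.Icc s t ∩ {v | f v = w}).Nonempty)
  obtain ⟨t2, ht2, hmax⟩ := (isCompact_Icc.inter_right hcl).exists_isGreatest
    (⟨t, ⟨le_rfl, htu.le⟩, ht⟩ : (Set.Icc t u ∩ {v | f v = w}).Nonempty)
  have ft1 : f t1 = w := ht1.2
  have ft2 : f t2 = w := ht2.2
  have hst1 : s < t1 := by
    refine lt_of_le_of_ne ht1.1.1 fun h => ?_
    rw [h, ft1, dist_self] at h1
    linarith
  have ht2u : t2 < u := by
    refine lt_of_le_of_ne ht2.1.2 fun h => ?_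
    rw [← h, ft2, dist_self] at h2
    linarith
  have hc : Continuous (fun v => dist (f v) z) := by fun_prop
  obtain ⟨s2, hs2, hs3⟩ : ∃ s2 ∈ Set.Ico s t1, dist (f s2) z < r := by
    have h3 : ∀ᶠ v in 𝓝[<] t1, dist (f v) z < r :=
      (hc.continuousAt.eventually (gt_mem_nhds (show dist (f t1) z < r by rw [ft1]; exact hwz))).filter_mono
        nhdsWithin_le_nhds
    have h4 : Set.Ico s t1 ∈ 𝓝[<] t1 := Ico_mem_nhdsLT hst1
    have : (𝓝[<] t1).NeBot := nhdsLT_neBot_of_exists_lt ⟨s, hst1⟩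
    obtain ⟨v, hv1, hv2⟩ := (h3.and h4).exists
    exact ⟨v, hv2, hv1⟩
  obtain ⟨u1, hu1, hu3⟩ : ∃ u1 ∈ Set.Ioc t2 u, dist (f u1) z < r := by
    have h3 : ∀ᶠ v in 𝓝[>] t2, dist (f v) z < r :=
      (hc.continuousAt.eventually (gt_mem_nhds (show dist (f t2) z < r by rw [ft2]; exact hwz))).filter_mono
        nhdsWithin_le_nhds
    have h4 : Set.Ioc t2 u ∈ 𝓝[>] t2 := Ioc_mem_nhdsGT ht2u
    have : (𝓝[>] t2).NeBot := nhdsGT_neBot_of_exists_gt ⟨u, ht2u⟩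
    obtain ⟨v, hv1, hv2⟩ := (h3.and h4).exists
    exact ⟨v, hv2, hv1⟩
  have hK1 : IsCompact (f '' Set.Icc s s2) := isCompact_Icc.image f.continuous
  have hK2 : IsCompact (f '' Set.Icc u1 u) := isCompact_Icc.image f.continuous
  have hdis : Disjoint (f '' Set.Icc s s2) (f '' Set.Icc u1 u) := by
    rw [Set.disjoint_left]
    rintro _ ⟨x, hx, rfl⟩ ⟨y, hy, hxy⟩
    have hxt : x < t1 := hx.2.trans_lt hs2.2
    have e0 : x ∈ Set.Icc s t := ⟨hx.1, hxt.le.trans ht1.1.2⟩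
    have e1 : f x ∈ f '' Set.Icc s t := ⟨x, e0, rfl⟩
    have e2 : f x ∈ f '' Set.Icc t u := ⟨y, ⟨(ht2.1.1.trans hu1.1.le).trans hy.1, hy.2⟩, hxy⟩
    have e3 : f x = w := hd ⟨e1, e2⟩
    exact absurd (hmin ⟨e0, e3⟩) (not_le.2 hxt)
  obtain ⟨δ, hδ, hth⟩ := hdis.exists_thickenings hK1 hK2.isClosed
  obtain ⟨j, hj⟩ := exists_nat_one_div_lt hδ
  have e1 := dist_triangle (f s) z w
  have e2 := dist_triangle (f u) z w
  rw [dist_comm z w] at e1 e2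
  refine Set.mem_iUnion.2 ⟨j, s, s2, u1, u, ⟨hs2.1, hu1.2⟩, by linarith, hs3, hu3, by linarith, ?_⟩
  rintro ⟨x, y⟩ ⟨hx, hy⟩
  refine hj.trans_le ?_
  by_contra hcon
  push Not at hcon
  refine Set.disjoint_left.1 hth (Metric.self_subset_thickening hδ _
    (⟨x, hx, rfl⟩ : f x ∈ f '' Set.Icc s s2)) ?_
  rw [Metric.mem_thickening_iff]
  exact ⟨f y, ⟨y, hy, rfl⟩, hcon⟩

/-! ### The event on curves -/

/-- The event on curves. -/
def E5c (z : ℂ) (r ρ ζ : ℝ) : Set Curve := {c | c.path ∈ E5 z r ρ ζ}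

theorem E5_rep {z : ℂ} {r ρ ζ : ℝ} {f : C(unitInterval, ℂ)} (φ : unitInterval ≃o unitInterval)
    (h : rep f φ ∈ E5 z r ρ ζ) : f ∈ E5 z r ρ ζ := by
  obtain ⟨s1, s2, u1, u2, ⟨h01, h02⟩, h1, h2, h3, h4, h5⟩ := h
  refine ⟨φ s1, φ s2, φ u1, φ u2, ⟨φ.monotone h01, φ.monotone h02⟩, h1, h2, h3, h4, ?_⟩
  rintro ⟨x, y⟩ ⟨hx, hy⟩
  have h6 := h5 (φ.symm x, φ.symm y) ⟨⟨(OrderIso.le_symm_apply φ).2 hx.1,
    (OrderIso.symm_apply_le φ).2 hx.2⟩, ⟨(OrderIso.le_symm_apply φ).2 hy.1,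
    (OrderIso.symm_apply_le φ).2 hy.2⟩⟩
  simpa [rep_apply] using h6

theorem E5c_open (z : ℂ) (r ρ ζ : ℝ) : IsOpen (E5c z r ρ ζ) := by
  rw [Metric.isOpen_iff]
  intro c hc
  obtain ⟨ε, hε, hb⟩ := Metric.isOpen_iff.1 (E5_open z r ρ ζ) c.path hc
  refine ⟨ε, hε, fun c' hcc' => ?_⟩
  rw [Metric.mem_ball, Curve.dist_def, cdist_eq] at hcc'
  obtain ⟨φ, hφ⟩ := exists_lt_of_ciInf_lt hcc'
  refine E5_rep φ.symm (hb ?_)
  rw [Metric.mem_ball, dist_comm, ← rep_dist]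
  exact hφ

theorem E5c_anti {z : ℂ} {r ρ ζ ζ' : ℝ} (h : ζ' ≤ ζ) : E5c z r ρ ζ ⊆ E5c z r ρ ζ' :=
  fun _ hc => E5_anti h hc

/-! ### The lattice path -/

theorem orb_orb (F : Set Edg) (σ : St) (k j : ℕ) : orb F (orb F σ k) j = orb F σ (k + j) := by
  rw [add_comm k j, orb_add]

/-- crossing inwards -/
theorem in_of {F : Set Edg} {σ : St} {c : Vtx} {a b i k : ℕ} (hab : a ≤ b) (hik : i ≤ k)
    (hi : 2 * (b : ℤ) < lf c (face (orb F σ i)))
    (hk : lf c (face (orb F σ k)) < 2 * (a : ℤ)) :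
    ∃ m T : ℕ, i ≤ m ∧ m + T ≤ k ∧ InLeg F c a b (orb F σ m) T := by
  obtain ⟨s, T, h1, h2, h3, h4, h5⟩ := seq_down (h := fun j => lf c (face (orb F σ (i + j))))
    (A := 2 * (a : ℤ)) (B := 2 * (b : ℤ)) (J := k - i) (by omega) (by simpa using hi)
    (by simpa [Nat.add_sub_cancel' hik] using hk)
  refine ⟨i + s, T - s, by omega, by omega, ⟨by omega, h3, fun j hj hjT => ?_, ?_⟩⟩
  · have h6 := h5 (s + j) (by omega) (by omega)
    rw [orb_orb, show i + s + j = i + (s + j) by omega]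
    have h7 := lf_ne c (face (orb F σ (i + (s + j)))) a
    have h8 := lf_ne c (face (orb F σ (i + (s + j)))) b
    omega
  · rw [orb_orb, show i + s + (T - s) = i + T by omega]
    exact h4

/-- crossing outwards -/
theorem out_of {F : Set Edg} {σ : St} {c : Vtx} {a b i k : ℕ} (hab : a ≤ b) (hik : i ≤ k)
    (hi : lf c (face (orb F σ i)) < 2 * (a : ℤ))
    (hk : 2 * (b : ℤ) < lf c (face (orb F σ k))) :
    ∃ m T : ℕ, i ≤ m ∧ m + T ≤ k ∧ OutLeg F c a b (orb F σ m) T := by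
  obtain ⟨s, T, h1, h2, h3, h4, h5⟩ := seq_up (h := fun j => lf c (face (orb F σ (i + j))))
    (A := 2 * (a : ℤ)) (B := 2 * (b : ℤ)) (J := k - i) (by omega) (by simpa using hi)
    (by simpa [Nat.add_sub_cancel' hik] using hk)
  refine ⟨i + s, T - s, by omega, by omega, ⟨by omega, h3, fun j hj hjT => ?_, ?_⟩⟩
  · have h6 := h5 (s + j) (by omega) (by omega)
    rw [orb_orb, show i + s + j = i + (s + j) by omega]
    have h7 := lf_ne c (face (orb F σ (i + (s + j)))) a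
    have h8 := lf_ne c (face (orb F σ (i + (s + j)))) b
    omega
  · rw [orb_orb, show i + s + (T - s) = i + T by omega]
    exact h4

/-- distances of lattice points -/
theorem pt_dist {n : ℕ} (hn : 0 < n) (u w : ℤ × ℤ) :
    dist (pt n u) (pt n w) ≤ 2 * (1 / (n : ℝ)) * ((lv w u : ℤ) : ℝ) := by
  have hn' : (0:ℝ) < n := by exact_mod_cast hn
  rw [dist_eq_norm]
  refine (Complex.norm_le_abs_re_add_abs_im _).trans ?_
  have e1 : (pt n u - pt n w).re = ((u.1 - w.1 : ℤ) : ℝ) / n := by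
    unfold pt
    rw [Complex.sub_re]
    push_cast
    ring
  have e2 : (pt n u - pt n w).im = ((u.2 - w.2 : ℤ) : ℝ) / n := by
    unfold pt
    rw [Complex.sub_im]
    push_cast
    ring
  rw [e1, e2, abs_div, abs_div, Nat.abs_cast, ← Int.cast_abs, ← Int.cast_abs]
  have h1 : |u.1 - w.1| ≤ lv w u := le_max_left _ _
  have h2 : |u.2 - w.2| ≤ lv w u := le_max_right _ _
  have h1' : ((|u.1 - w.1| : ℤ) : ℝ) ≤ ((lv w u : ℤ) : ℝ) := by exact_mod_cast h1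
  have h2' : ((|u.2 - w.2| : ℤ) : ℝ) ≤ ((lv w u : ℤ) : ℝ) := by exact_mod_cast h2
  rw [← add_div, div_le_iff₀ hn']
  have e3 : 2 * (1 / (n : ℝ)) * ((lv w u : ℤ) : ℝ) * n = 2 * ((lv w u : ℤ) : ℝ) := by
    field_simp
  rw [e3]
  linarith

/-- nodes between two times -/
theorem node_near {N : ℕ} (hN : 0 < N) {p : ℕ → ℂ} {δ : ℝ}
    {s t : unitInterval} (hst : s ≤ t) {i k m : ℕ} (hk : k < N)
    (hi : (s : ℝ) * N ≤ i + 1) (hk1 : (k : ℝ) ≤ t * N)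
    (hδ : 0 ≤ δ) (hsi : dist (poly p N s) (p i) ≤ δ)
    (him : i ≤ m) (hmk : m ≤ k) :
    ∃ x ∈ Set.Icc s t, dist (poly p N x) (p m) ≤ δ := by
  rcases him.eq_or_lt with h | h
  · subst h
    exact ⟨s, ⟨le_rfl, hst⟩, hsi⟩
  · have hN' : (0:ℝ) < N := by exact_mod_cast hN
    have h1 : (i : ℝ) + 1 ≤ m := by exact_mod_cast h
    have h2 : (m : ℝ) ≤ k := by exact_mod_cast hmk
    have h3 : (m : ℝ) < N := by exact_mod_cast lt_of_le_of_lt hmk hk
    obtain ⟨x, hx⟩ : ∃ x : unitInterval, (x : ℝ) = (m : ℝ) / N :=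
      ⟨⟨(m : ℝ) / N, by positivity, by rw [div_le_one hN']; exact h3.le⟩, rfl⟩
    refine ⟨x, ⟨?_, ?_⟩, ?_⟩
    · show (s : ℝ) ≤ x
      rw [hx, le_div_iff₀ hN']
      linarith
    · show (x : ℝ) ≤ t
      rw [hx, div_le_iff₀ hN']
      linarith
    · have e : (N : ℝ) * (x : ℝ) = m := by
        rw [hx]
        field_simp
      rw [POL_formula p N m (lt_of_le_of_lt hmk hk) x (by rw [e]) (by rw [e]; linarith), e,
        sub_self, Complex.ofReal_zero, zero_mul, add_zero, dist_self]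
      exact hδ

/-- two separated crossings -/
theorem det5 {z : ℂ} {r d ζ : ℝ} {n : ℕ} (hn : 0 < n) (hδr : 1 / (n : ℝ) ≤ r)
    (hd : 256 * r ≤ d) (hζ : 64 * (1 / (n : ℝ)) ≤ ζ) {F : Finset Edg} {v : ℤ × ℤ} {c : Curve}
    (hT : IsTrace n F v c) (hE : c ∈ E5c z r (d / 2) ζ) :
    IO 10 (ctc (1 / n) z) (⌈r / (1 / (n : ℝ))⌉₊ + 3 + 2) (⌊d / (8 * (1 / (n : ℝ)))⌋₊ - 2) ↑F := by
  obtain ⟨t1, t2, t3, t4, ⟨ht12, ht34⟩, e1, e2, e3, e4, hsep⟩ := hE
  obtain ⟨σ, N, hN, _, _, _, _, hpath⟩ := hT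
  have hδ : (0:ℝ) < 1 / n := by positivity
  have hr : 0 < r := hδ.trans_le hδr
  have hd0 : 0 < d := by linarith
  rw [hpath] at e1 e2 e3 e4 hsep
  have hst : ∀ k < N, dist (pt n (orb (↑F) σ k).1) (pt n (orb (↑F) σ (k + 1)).1) ≤ 1 / (n : ℝ) :=
    fun k _ => pt_step' hn _ σ k
  obtain ⟨i1, hi1, ⟨a1, b1⟩, c1⟩ := poly_close hN hst t1
  obtain ⟨i2, hi2, ⟨a2, b2⟩, c2⟩ := poly_close hN hst t2
  obtain ⟨i3, hi3, ⟨a3, b3⟩, c3⟩ := poly_close hN hst t3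
  obtain ⟨i4, hi4, ⟨a4, b4⟩, c4⟩ := poly_close hN hst t4
  set p : ℕ → ℂ := fun j => pt n (orb (↑F) σ j).1 with hp
  set f := poly p N with hf
  have hne12 : t1 ≠ t2 := by
    rintro rfl
    linarith
  have hne34 : t3 ≠ t4 := by
    rintro rfl
    linarith
  have h12 : i1 ≤ i2 := idx_le hN ht12 hne12 a1 b2
  have h34 : i3 ≤ i4 := idx_le hN ht34 hne34 a3 b4
  obtain ⟨s1, s2, _, _⟩ := sizes hδ hδr hd
  have hnear : ∀ k : ℕ, dist (p k) z ≤ r + 1 / n →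
      lf (ctc (1 / n) z) (face (orb (↑F) σ k)) < 2 * ((⌈r / (1 / (n : ℝ))⌉₊ + 3 + 2 : ℕ) : ℤ) := by
    intro k hk
    have h7 : lv (ctc (1 / n) z) (orb (↑F) σ k).1 ≤ (⌈r / (1 / (n : ℝ))⌉₊ + 3 : ℕ) :=
      BX_iff.1 (near_boxC hn hk)
    have h8 := Bas.cor (ctc (1 / n) z) (orb (↑F) σ k)
    push_cast at h7 ⊢
    omega
  have hfar : ∀ k : ℕ, d / 2 - 1 / n < dist (p k) z →
      2 * ((⌊d / (8 * (1 / (n : ℝ)))⌋₊ - 2 : ℕ) : ℤ) <
        lf (ctc (1 / n) z) (face (orb (↑F) σ k)) := by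
    intro k hk
    have h7 : ¬ BX (ctc (1 / n) z) ⌊d / (8 * (1 / (n : ℝ)))⌋₊ (orb (↑F) σ k).1 := by
      intro hin
      have h5 : dist (p k) z ≤ _ := box_nearC hn hin
      have hk : (⌊d / (8 * (1 / (n : ℝ)))⌋₊ : ℝ) ≤ d / (8 * (1 / (n : ℝ))) :=
        Nat.floor_le (by positivity)
      have h6 : 2 * (1 / (n : ℝ)) * (⌊d / (8 * (1 / (n : ℝ)))⌋₊ : ℝ) ≤ d / 4 := by
        calc 2 * (1 / (n : ℝ)) * (⌊d / (8 * (1 / (n : ℝ)))⌋₊ : ℝ) ≤
              2 * (1 / (n : ℝ)) * (d / (8 * (1 / (n : ℝ)))) :=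
              mul_le_mul_of_nonneg_left hk (by positivity)
          _ = d / 4 := by
              have : (n : ℝ) ≠ 0 := by positivity
              field_simp
              norm_num
      linarith
    rw [BX_iff] at h7
    have h8 := Bas.cor (ctc (1 / n) z) (orb (↑F) σ k)
    omega
  have g1 : d / 2 - 1 / n < dist (p i1) z := by
    have := dist_triangle (f t1) (p i1) z
    linarith
  have g2 : dist (p i2) z ≤ r + 1 / n := by
    have := dist_triangle_left (p i2) z (f t2)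
    linarith
  have g3 : dist (p i3) z ≤ r + 1 / n := by
    have := dist_triangle_left (p i3) z (f t3)
    linarith
  have g4 : d / 2 - 1 / n < dist (p i4) z := by
    have := dist_triangle (f t4) (p i4) z
    linarith
  obtain ⟨m, T, hm1, hm2, hin⟩ := in_of (F := (↑F : Set Edg)) (σ := σ) (c := ctc (1 / n) z)
    (a := ⌈r / (1 / (n : ℝ))⌉₊ + 3 + 2) (b := ⌊d / (8 * (1 / (n : ℝ)))⌋₊ - 2) (by omega) h12
    (hfar i1 g1) (hnear i2 g2)
  obtain ⟨m', T', hn1, hn2, hout⟩ := out_of (F := (↑F : Set Edg)) (σ := σ) (c := ctc (1 / n) z)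
    (a := ⌈r / (1 / (n : ℝ))⌉₊ + 3 + 2) (b := ⌊d / (8 * (1 / (n : ℝ)))⌋₊ - 2) (by omega) h34
    (hnear i3 g3) (hfar i4 g4)
  refine ⟨orb (↑F) σ m, T, orb (↑F) σ m', T', hin, hout, ?_⟩
  intro e he e' he'
  rw [mem_Exm] at he he'
  obtain ⟨s, hs, rfl⟩ := he
  obtain ⟨s', hs', rfl⟩ := he'
  rw [orb_orb, orb_orb]
  obtain ⟨x, hx, hx2⟩ := node_near hN (p := p) ht12 hi2 b1 a2 (by positivity) c1
    (m := m + s) (by omega) (by omega)
  obtain ⟨y, hy, hy2⟩ := node_near hN (p := p) ht34 hi4 b3 a4 (by positivity) c3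
    (m := m' + s') (by omega) (by omega)
  have h1 := hsep (x, y) ⟨hx, hy⟩
  simp only at h1
  have h2 := dist_triangle4 (f x) (p (m + s)) (p (m' + s')) (f y)
  rw [dist_comm] at hy2
  set A : St := orb (↑F) σ (m + s) with hA
  set B : St := orb (↑F) σ (m' + s') with hB
  have h6 : dist (p (m + s)) (p (m' + s')) ≤ 2 * (1 / (n : ℝ)) * ((lv B.1 A.1 : ℤ) : ℝ) :=
    pt_dist hn A.1 B.1
  have h7 : 62 * (1 / (n : ℝ)) < 2 * (1 / (n : ℝ)) * ((lv B.1 A.1 : ℤ) : ℝ) := by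
    linarith
  have h8 : (30 : ℝ) < ((lv B.1 A.1 : ℤ) : ℝ) := by
    by_contra hcon
    push Not at hcon
    nlinarith
  have h9 : (30 : ℤ) < lv B.1 A.1 := by exact_mod_cast h8
  have k1 := src_near A
  have k2 := src_near B
  have k3 := lv_tri B.1 (src (ae B)) A.1
  have k4 := lv_tri (src (ae B)) (src (ae A)) A.1
  have k5 := lv_comm B.1 (src (ae B))
  have k6 := lv_comm (src (ae B)) (src (ae A))
  push_cast
  omega

/-- probability of two separated crossings -/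
theorem prob5 (hI : St_IOup) {sel : (n : ℕ) → Finset Plain.Edge → ℤ × ℤ}
    {γ : (n : ℕ) → Finset Plain.Edge → Curve} (hT : Tr sel γ) : ∃ C : ℝ, 0 < C ∧
    ∀ (z : ℂ) (r d ζ : ℝ) (n : ℕ), 0 < r → r ≤ d → Metric.ball z d ⊆ Sq → 0 < n →
      1 / (n : ℝ) ≤ r → 64 * (1 / (n : ℝ)) ≤ ζ →
        (lawOf n (γ n) : Measure Curve) (E5c z r (d / 2) ζ) ≤
          ENNReal.ofReal (C * (r / d) ^ (5/4 : ℝ)) := by
  obtain ⟨C1, hC1, hI'⟩ := hI
  refine ⟨(C1 + 1) * 256 ^ (5/4 : ℝ), by positivity, ?_⟩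
  intro z r d ζ n hr hrd hball hn hδr hζ
  have hδ : (0:ℝ) < 1 / n := by positivity
  have hd0 : 0 < d := hr.trans_le hrd
  rw [lawOf_apply _ _ (E5c_open z r (d / 2) ζ).measurableSet]
  apply ENNReal.ofReal_le_ofReal
  by_cases h256 : 256 * r ≤ d
  swap
  · have h1 : Plain.prob n (fun F => γ n F ∈ E5c z r (d / 2) ζ) ≤ 1 := by
      rw [Plain.prob_eq]
      exact Pr_le_one okh _ _
    exact h1.trans (big_pow hr hrd (by linarith) (by norm_num) (by norm_num) h256)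
  obtain ⟨s1, s2, s3, s4⟩ := sizes hδ hδr h256
  obtain ⟨b1, b2, b3, b4⟩ := dom_boxC hn (by linarith) hball
  have hmono : Plain.prob n (fun F => γ n F ∈ E5c z r (d / 2) ζ) ≤
      PQ (1/2) (RE 0 n 0 n) (fun F =>
        IO 10 (ctc (1 / n) z) (⌈r / (1 / (n : ℝ))⌉₊ + 3 + 2)
          (⌊d / (8 * (1 / (n : ℝ)))⌋₊ - 2) (↑F : Set Edg)) := by
    refine Plain.prob_le_of_pr ?_
    intro F hF hE
    exact det5 hn hδr h256 hζ (hT.2 n F hn hF) hE
  have hsub : GeF (ctc (1 / n) z) (⌈r / (1 / (n : ℝ))⌉₊ + 3 + 2)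
      (⌊d / (8 * (1 / (n : ℝ)))⌋₊ - 2) ⊆ RE 0 n 0 n := by
    refine (Finset.filter_subset _ _).trans (RE_subset ?_ ?_ ?_ ?_) <;> omega
  have h1 := hI' (ctc (1 / n) z) (⌈r / (1 / (n : ℝ))⌉₊ + 3 + 2)
    (⌊d / (8 * (1 / (n : ℝ)))⌋₊ - 2) (RE 0 n 0 n) (by omega) (by omega) hsub
  have hpow : (((⌈r / (1 / (n : ℝ))⌉₊ + 3 + 2 : ℕ) : ℝ) /
      ((⌊d / (8 * (1 / (n : ℝ)))⌋₊ - 2 : ℕ) : ℝ)) ^ (5/4 : ℝ) ≤ (256 * (r / d)) ^ (5/4 : ℝ) :=
    Real.rpow_le_rpow (by positivity) s4 (by norm_num)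
  have h3 := mul_le_mul_of_nonneg_left hpow hC1.le
  refine (hmono.trans (h1.trans h3)).trans ?_
  rw [Real.mul_rpow (by norm_num) (by positivity)]
  have hy : 0 ≤ (256:ℝ) ^ (5/4 : ℝ) * (r / d) ^ (5/4 : ℝ) := by positivity
  nlinarith

end Pool.Agent.N948.XE.Y17

namespace Pool.Agent.N948.XE

open MeasureTheory Filter Topology
open H342L (Curve lawOf)
open H342P (Plain.Edge)
open Pool.Agent.W822.PD (Sq Tr)
open Pool.Agent.N948.IX Pool.Agent.TH990.FU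
open scoped ENNReal NNReal

/-- **Local cut points in a fixed set in the open square, upper bound.** -/
theorem ul6 (hI : St_IOup) : St_UL6 := by
  intro sel γ hT k hk μ hμ T
  obtain ⟨C, hC, hP⟩ := Y17.prob5 hI hT
  have hfix := fixed_dim (μ := (μ : Measure Curve))
    (E := fun d z r => ⋃ j : ℕ, Y17.E5c z r (d / 2) (1 / ((j:ℝ) + 1)))
    (fun d z r => (isOpen_iUnion fun j => Y17.E5c_open _ _ _ _).measurableSet)
    (S := fun η c => Y17.SCc η c.path) (by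
      intro η d z r w c hdη hrd hw hwz
      have hr : 0 < r := dist_nonneg.trans_lt hwz
      obtain ⟨j, hj⟩ := Set.mem_iUnion.1 (Y17.E5_of (ρ := d / 2) (by linarith) hw hwz (by linarith))
      exact Set.mem_iUnion.2 ⟨j, hj⟩) Pool.Agent.W978.PDUL.Sq_open hC.le
    (show (0:ℝ) < 5/4 by norm_num) (by
      intro z r d hr hrd hball
      show (μ : Measure Curve) (⋃ j : ℕ, Y17.E5c z r (d / 2) (1 / ((j:ℝ) + 1))) ≤ _
      have hmono : Monotone (fun j : ℕ => Y17.E5c z r (d / 2) (1 / ((j:ℝ) + 1))) :=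
        fun i j hij => Y17.E5c_anti (Nat.one_div_le_one_div hij)
      rw [hmono.measure_iUnion]
      refine iSup_le fun j => ?_
      refine (ProbabilityMeasure.le_liminf_measure_open_of_tendsto hμ
        (Y17.E5c_open _ _ _ _)).trans ?_
      refine liminf_le_of_frequently_le (Eventually.frequently ?_)
      have hpos : (0:ℝ) < 1 / ((j:ℝ) + 1) / 64 := by positivity
      have hlim : Tendsto (fun i => 1 / ((k i : ℕ) : ℝ)) atTop (𝓝 0) :=
        tendsto_one_div_atTop_nhds_zero_nat.comp hk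
      filter_upwards [hlim.eventually (ge_mem_nhds hr), hlim.eventually (ge_mem_nhds hpos),
        hk.eventually_gt_atTop 0] with i hi hi3 hi4
      exact hP z r d _ (k i) hr hrd hball hi4 hi (by linarith)) T
  filter_upwards [hfix] with c hc
  have hsub : LCc c.path ∩ T ∩ Sq ⊆ (⋃ i : ℕ, Y17.SCc (1 / ((i:ℝ) + 1)) c.path) ∩ T ∩ Sq := by
    rintro w ⟨⟨h1, h2⟩, h3⟩
    exact ⟨⟨Y17.LCc_sub _ h1, h2⟩, h3⟩
  refine ⟨(dimH_mono hsub).trans hc.1, fun hT0 => ?_⟩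
  rw [← Set.subset_empty_iff]
  refine hsub.trans ?_
  rw [hc.2 hT0]

end Pool.Agent.N948.XE
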