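import Pool.Agent.N948.XE.Stm2
import Pool.Agent.W597.PDBL
import Pool.Agent.W320.PD.HB

/-!
# The local cut points at the boundary of the square have dimension at most `2/3`

Project XE (helper948), part Y18 (helper648), after `Pool/Agent/W822/PD/Fin.lean`.
-/

set_option autoImplicit false
set_option linter.all false

namespace Pool.Agent.N948.XE.Y18

open Filter Topology MeasureTheory
open scoped ENNReal NNReal

theorem e23 : ENNReal.ofReal (2/3) = 2/3 := by
  rw [ENNReal.ofReal_div_of_pos (by norm_num)]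
  norm_num

end Pool.Agent.N948.XE.Y18

namespace Pool.Agent.N948.XE

open H974 H906.Cyl H12S Finset H389NS H984P H984N H342P H342L H342T H984P.SideAux
open MeasureTheory Filter Topology
open Pool.Agent.W92.DP Pool.Agent.W822.PD Pool.Agent.N948.IX
open scoped ENNReal NNReal

/-- **BL6** -/
theorem bl6 : St_BL6 := by
  intro sel γ hT k hk μ hμ
  have hpos : ∀ j : ℕ, (0:ℝ) < 1 / ((j:ℝ) + 1) := fun j => by positivity
  have h2 : ∀ᵐ c : Curve ∂(μ : Measure Curve), ∀ j : ℕ, Set.range c.path ⊆ Sqc ∧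
      dimH {z | z ∈ Set.range c.path ∧ z ∈ Sqc \ Sq ∧ ∃ u, 1 / ((j:ℝ) + 1) ≤ dist (c.path u) z} ≤
        ENNReal.ofReal (2/3) := by
    rw [ae_all_iff]
    intro j
    exact Pool.Agent.W597.PDBL.bl Pool.Agent.W320.PD.HB.hb sel γ hT k hk μ hμ _ (hpos j)
  filter_upwards [h2] with c c2
  have hsub : LCc c.path \ Sq ⊆ ⋃ j : ℕ, {z | z ∈ Set.range c.path ∧ z ∈ Sqc \ Sq ∧
      ∃ u, 1 / ((j:ℝ) + 1) ≤ dist (c.path u) z} := by
    rintro z ⟨⟨s, t, u, -, -, e1, e2, -, -⟩, hz2⟩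
    have h5 : 0 < dist (c.path s) z := dist_pos.2 e2
    obtain ⟨j, hj⟩ := exists_nat_one_div_lt h5
    have hr : z ∈ Set.range c.path := ⟨t, e1⟩
    exact Set.mem_iUnion.mpr ⟨j, hr, ⟨(c2 0).1 hr, hz2⟩, s, hj.le⟩
  refine (dimH_mono hsub).trans ?_
  rw [dimH_iUnion]
  exact iSup_le fun j => (c2 j).2.trans (le_of_eq Y18.e23)

end Pool.Agent.N948.XE
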