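import Pool.Agent.N948.XE.Stm
import Pool.Agent.N948.IX.X15
import Pool.Agent.N948.IX.X16
import Pool.Agent.N948.IX.X18

/-!
# Project XE (helper948), Y2 (helper562): one point, two points, the good event
-/

set_option autoImplicit false

namespace Pool.Agent.N948.XE

namespace Y2

section geo

open H974 H906.Cyl H12S Finset H389NS H984P H984N H342P
open Pool.Agent.W92.DP (core4 SA HA)
open Pool.Agent.W822.PD (SC)

theorem SA_SC {U : ℤ} (hU : 0 ≤ U) : SA U ⊆ SC U := by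
  intro e he
  unfold SA at he
  rw [H973.mem_ES] at he
  have key : ∀ v : Vtx, v ∈ HA U → inR (-(27 * U)) (27 * U) (-(28 * U)) (68 * U) v := by
    intro v hv
    unfold HA at hv
    rw [Finset.mem_filter, Finset.mem_product, Finset.mem_Icc, Finset.mem_Icc] at hv
    unfold inR
    omega
  exact H973.mem_RE_of_ends (key _ he.1) (key _ he.2)

end geo

end Y2

section two

open H974 H906.Cyl H12S Finset H984P H342P H389NS
open Pool.Agent.W92.DP
open Pool.Agent.W822.PD (SC)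
open Pool.Agent.W52.DPInd (okhalf mem_core4)
open Pool.Agent.W52.DPTwo (blk_SA sd_spec)
open H984N (Dm sd)
open Pool.Agent.N948.IX
open Pool.Agent.N948.IX.X15 Pool.Agent.N948.IX.C6

namespace Y2

theorem E6_IO {M M' B N a L m : ℕ} {v : Vtx} {F : Finset Edg} (h : E6 M M' B N a L m v F) :
    IO 10 v a (16 * L * m - 1) (↑F : Set Edg) := by
  obtain ⟨σ, τ, T, T', G, h1, -, -⟩ := h
  exact ⟨σ, T, τ, T', h1.i, h1.o, fun e he e' he' => (h1.sp e he e' he').1⟩


end Y2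

open Y2 in
/-- The two-point upper bound. -/
theorem two6 (hB : St_basic) (hR : St_restr) (hU : St_IOup) : St_TWO6 := by
  obtain ⟨C, hC, hA⟩ := hU
  intro M M' B N a L hL ha
  refine ⟨C ^ 3 * ((4 * (a : ℝ)) ^ (5/4 : ℝ)) ^ 2 +
    C * (a : ℝ) ^ (5/4 : ℝ) * ((8 * (a + 4) : ℕ) : ℝ) ^ (5/4 : ℝ), 64 + a, ?_, by omega, ?_⟩
  · have : (2:ℝ) ≤ a := by exact_mod_cast ha
    positivity
  intro m hm v hv w hw S hS
  have hmL : m * 2 ≤ L * m := by rw [mul_comm L m]; exact Nat.mul_le_mul_left m hL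
  have e16 : 16 * L * m = 16 * (L * m) := by ring
  obtain ⟨U, hUd⟩ : ∃ U : ℕ, U = L * m := ⟨_, rfl⟩
  rw [← hUd] at hv hw hS hmL e16
  have hk0 : 0 ≤ sd v w := le_max_of_le_left (abs_nonneg _)
  obtain ⟨K, hK⟩ := Int.eq_ofNat_of_zero_le hk0
  have hsp := sd_spec hK
  have hv' := mem_core4.1 hv
  have hw' := mem_core4.1 hw
  have hKU : K ≤ 2 * U := by omega
  have hbv : ∀ a' N : ℕ, N ≤ 16 * U → GeF v a' N ⊆ S := fun a' N hN =>
    (GeF_blk v a' N).trans ((blk_SA hv (by omega)).trans ((SA_SC (Int.natCast_nonneg U)).trans hS))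
  have hbw : ∀ a' N : ℕ, N ≤ 16 * U → GeF w a' N ⊆ S := fun a' N hN =>
    (GeF_blk w a' N).trans ((blk_SA hw (by omega)).trans ((SA_SC (Int.natCast_nonneg U)).trans hS))
  obtain ⟨b, hb⟩ : ∃ b : ℕ, b = 16 * L * m - 1 := ⟨_, rfl⟩
  have hbU : b = 16 * U - 1 := by rw [hb, e16]
  have hE : ∀ (x : Vtx) (F : Finset Edg), E6 M M' B N a L m x F → IO 10 x a b (↑F : Set Edg) := by
    intro x F h
    rw [hb]
    exact E6_IO h
  have hmm : 0 < (m : ℝ) ^ (-(5/4) : ℝ) :=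
    Real.rpow_pos_of_pos (by exact_mod_cast (by omega : 0 < m)) _
  have haR : (2:ℝ) ≤ a := by exact_mod_cast ha
  by_cases hK3 : K ≤ 8 * (a + 4)
  · have hmx : (max (sd v w) 1) = ((max K 1 : ℕ) : ℤ) := by rw [hK]; push_cast; rfl
    rw [hmx]
    have h1 : PQ (1/2) S (fun F => E6 M M' B N a L m v F ∧ E6 M M' B N a L m w F) ≤
        PQ (1/2) S (fun F => IO 10 v a b (↑F : Set Edg)) :=
      Pr_mono okhalf (fun F _ hF => hE v F hF.1)
    have h2 := h1.trans (hA v a b S (by omega) (by omega) (hbv _ _ (by omega)))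
    have h3 := small_bound hC (a := a) (K := max K 1) (K0 := 8 * (a + 4)) (m := m) (b := b)
      (by omega) (by omega) (by omega) (by omega) h2
    have h4 : (((max K 1 : ℕ) : ℤ) : ℝ) = ((max K 1 : ℕ) : ℝ) := by norm_cast
    rw [h4]
    have hm0 : 0 < ((max K 1 : ℕ) : ℝ) ^ (-(5/4) : ℝ) := by
      apply Real.rpow_pos_of_pos
      have : 0 < max K 1 := by omega
      exact_mod_cast this
    have h5 : 0 ≤ C ^ 3 * ((4 * (a : ℝ)) ^ (5/4 : ℝ)) ^ 2 *
        (((max K 1 : ℕ) : ℝ) ^ (-(5/4) : ℝ) * (m : ℝ) ^ (-(5/4) : ℝ)) := by positivity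
    linarith
  · obtain ⟨ρ, hρ1, hρ2, hρ3⟩ : ∃ ρ : ℕ, 2 * ρ < K ∧ K ≤ 4 * ρ ∧ a < ρ :=
      ⟨(K - 1) / 2, by omega, by omega, by omega⟩
    have hmx : (max (sd v w) 1) = (K : ℤ) := by rw [hK]; omega
    rw [hmx]
    have hab : a < b := by omega
    have hKb : 2 * K < b := by omega
    have d12 : Disjoint (GeF v a ρ) (GeF w a ρ) := disj1 (by rw [hK]; exact_mod_cast hρ1)
    have d13 : Disjoint (GeF v a ρ) (GeF v (2 * K) b) := GeF_disj (by omega)
    have d23 : Disjoint (GeF w a ρ) (GeF v (2 * K) b) := disj2 (by rw [hK]; push_cast; omega)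
    have s1 : GeF v a ρ ⊆ S := hbv _ _ (by omega)
    have s2 : GeF w a ρ ⊆ S := hbw _ _ (by omega)
    have s3 : GeF v (2 * K) b ⊆ S := hbv _ _ (by omega)
    have i23 : PQ (1/2) S (fun F => IO 10 w a ρ (↑F : Set Edg) ∧
          IO 10 v (2 * K) b (↑F : Set Edg)) =
        PQ (1/2) S (fun F => IO 10 w a ρ (↑F : Set Edg)) *
          PQ (1/2) S (fun F => IO 10 v (2 * K) b (↑F : Set Edg)) :=
      Pr_indep s2 s3 d23 (fun F _ => IO_local hB hρ3 Finset.Subset.rfl F)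
        (fun F _ => IO_local hB hKb Finset.Subset.rfl F)
    have i1 : PQ (1/2) S (fun F => IO 10 v a ρ (↑F : Set Edg) ∧
        (IO 10 w a ρ (↑F : Set Edg) ∧ IO 10 v (2 * K) b (↑F : Set Edg))) =
        PQ (1/2) S (fun F => IO 10 v a ρ (↑F : Set Edg)) *
          PQ (1/2) S (fun F => IO 10 w a ρ (↑F : Set Edg) ∧
            IO 10 v (2 * K) b (↑F : Set Edg)) := by
      apply Pr_indep s1 (Finset.union_subset s2 s3)
        (Finset.disjoint_union_right.2 ⟨d12, d13⟩)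
        (fun F _ => IO_local hB hρ3 Finset.Subset.rfl F)
      intro F _
      rw [IO_local hB hρ3 (T := GeF w a ρ ∪ GeF v (2 * K) b) Finset.subset_union_left F,
        IO_local hB hKb (T := GeF w a ρ ∪ GeF v (2 * K) b) Finset.subset_union_right F]
    have h1 : PQ (1/2) S (fun F => E6 M M' B N a L m v F ∧ E6 M M' B N a L m w F) ≤
        PQ (1/2) S (fun F => IO 10 v a ρ (↑F : Set Edg) ∧
          (IO 10 w a ρ (↑F : Set Edg) ∧ IO 10 v (2 * K) b (↑F : Set Edg))) :=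
      Pr_mono okhalf (fun F _ hF =>
        ⟨IO_mono hR le_rfl hρ3 (by omega) (hE v F hF.1),
          IO_mono hR le_rfl hρ3 (by omega) (hE w F hF.2),
          IO_mono hR (by omega) hKb le_rfl (hE v F hF.1)⟩)
    rw [i1, i23] at h1
    have h2 := sum_bound hC (a := a) (ρ := ρ) (K := K) (m := m) (b := b) hρ2 (by omega) (by omega)
      (by omega) (hA v a ρ S (by omega) hρ3 s1) (hA w a ρ S (by omega) hρ3 s2)
      (hA v (2 * K) b S (by omega) hKb s3)
      (Pr_nonneg okhalf _ _) (Pr_nonneg okhalf _ _)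
    have h3 := h1.trans h2
    have h7 : (((K : ℕ) : ℤ) : ℝ) = (K : ℝ) := by norm_cast
    rw [h7]
    have hK0 : 0 < (K : ℝ) ^ (-(5/4) : ℝ) := by
      apply Real.rpow_pos_of_pos
      have : 0 < K := by omega
      exact_mod_cast this
    have h5 : 0 ≤ C * (a : ℝ) ^ (5/4 : ℝ) * ((8 * (a + 4) : ℕ) : ℝ) ^ (5/4 : ℝ) *
        ((K : ℝ) ^ (-(5/4) : ℝ) * (m : ℝ) ^ (-(5/4) : ℝ)) := by
      positivity
    linarith


end two

section good

open H974 H973 H12S H934E Finset H389NS H984P H984N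
open Pool.Agent.W92.DP (core4 SA)
open Pool.Agent.W822.PD (SC EnV)
open Pool.Agent.N948.IX

namespace Y2

open Pool.Agent.W347.DPGood (t5_two t5_max_nonneg t5_max_pos t5_card)

/-- The energy. -/
noncomputable def En6 (t : ℝ) (M M' B N a L m : ℕ) (F : Finset Edg) : ℝ :=
  EnV t (V6 M M' B N a L m F)

/-- The good event. -/
def Gd6 (c0 E0 t : ℝ) (M M' B N a L m : ℕ) (F : Finset Edg) : Prop :=
  c0 * (m : ℝ) ^ (3/4 : ℝ) ≤ ((V6 M M' B N a L m F).card : ℝ) ∧
    En6 t M M' B N a L m F ≤ E0 * (m : ℝ) ^ (3/2 - t)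

/-! ### Number of vertices and energy -/

/-- the number of vertices as a sum of indicators -/
theorem t5_N (M M' B N a L m : ℕ) (F : Finset Edg) :
    ((V6 M M' B N a L m F).card : ℝ) = ∑ v ∈ core4 (L * m : ℕ), ind (E6 M M' B N a L m v F) := by
  classical
  unfold V6
  rw [Finset.card_filter]
  push_cast
  apply Finset.sum_congr rfl
  intro v _
  by_cases hv : E6 M M' B N a L m v F
  · rw [if_pos hv, ind_of hv]
  · rw [if_neg hv, ind_not_of hv]

/-- the energy as a sum of indicators -/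
theorem t5_En (t : ℝ) (M M' B N a L m : ℕ) (F : Finset Edg) :
    En6 t M M' B N a L m F = ∑ v ∈ core4 (L * m : ℕ), ∑ w ∈ core4 (L * m : ℕ),
      ((max (sd v w) 1 : ℤ) : ℝ) ^ (-t) * ind (E6 M M' B N a L m v F ∧ E6 M M' B N a L m w F) := by
  classical
  unfold En6 EnV V6
  rw [Finset.sum_filter]
  apply Finset.sum_congr rfl
  intro v _
  by_cases hv : E6 M M' B N a L m v F
  · rw [if_pos hv, Finset.sum_filter]
    apply Finset.sum_congr rfl
    intro w _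
    by_cases hw : E6 M M' B N a L m w F
    · rw [if_pos hw, ind_of ⟨hv, hw⟩, mul_one]
    · rw [if_neg hw, ind_not_of (fun h => hw h.2), mul_zero]
  · rw [if_neg hv]
    symm
    apply Finset.sum_eq_zero
    intro w _
    rw [ind_not_of (fun h => hv h.1), mul_zero]

theorem t5_sq (M M' B N a L m : ℕ) (F : Finset Edg) :
    ((V6 M M' B N a L m F).card : ℝ) * ((V6 M M' B N a L m F).card : ℝ) = En6 0 M M' B N a L m F := by
  unfold En6 EnV
  simp only [neg_zero, Real.rpow_zero, Finset.sum_const, nsmul_eq_mul, mul_one]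

theorem t5_En_nonneg (t : ℝ) (M M' B N a L m : ℕ) (F : Finset Edg) : 0 ≤ En6 t M M' B N a L m F :=
  Finset.sum_nonneg (fun _ _ => Finset.sum_nonneg
    (fun _ _ => Real.rpow_nonneg (t5_max_nonneg _) _))

/-- expectation of the energy -/
theorem t5_EE (h2 : St_TWO6) {t : ℝ} (ht : 0 ≤ t) (ht1 : t < 3/4) (M M' B N a L : ℕ) (hL : 2 ≤ L)
    (ha : 2 ≤ a) : ∃ (C : ℝ) (m0 : ℕ), 0 < C ∧ 64 ≤ m0 ∧ ∀ m : ℕ, m0 ≤ m → ∀ S : Finset Edg, SC (L * m : ℕ) ⊆ S →
      EE S (En6 t M M' B N a L m) ≤ C * (m : ℝ) ^ (3/2 - t) := by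
  obtain ⟨C, m0, hC, hm0, hT⟩ := h2 M M' B N a L hL ha
  have hb : 0 < 1 - (t + 5/4) / 2 := by linarith
  have hL0 : (0:ℝ) < L := by
    have : 0 < L := by omega
    exact_mod_cast this
  refine ⟨9 * (L : ℝ) ^ 2 * C * ((1 + 4 / (1 - (t + 5/4) / 2)) ^ 2 * (L : ℝ) ^ (2 - (t + 5/4))),
    m0, by positivity, hm0, ?_⟩
  intro m hmm S hS
  have hm : 64 ≤ m := hm0.trans hmm
  have hm0 : (0:ℝ) < m := by
    have : 0 < m := by omega
    exact_mod_cast this
  have hU1 : (1 : ℤ) ≤ ((L * m : ℕ) : ℤ) := by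
    have : 0 < L * m := Nat.mul_pos (by omega) (by omega)
    exact_mod_cast this
  have hUr : (((L * m : ℕ) : ℤ) : ℝ) = (L : ℝ) * m := by push_cast; ring
  have hU0 : (0:ℝ) < (L : ℝ) * m := mul_pos hL0 hm0
  have hU1r : (1:ℝ) ≤ (L : ℝ) * m := by
    rw [← hUr]; exact_mod_cast hU1
  have e1 : EE S (En6 t M M' B N a L m) = ∑ v ∈ core4 (L * m : ℕ), ∑ w ∈ core4 (L * m : ℕ),
      ((max (sd v w) 1 : ℤ) : ℝ) ^ (-t) * Q S (fun F => E6 M M' B N a L m v F ∧ E6 M M' B N a L m w F) := by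
    have e0 : EE S (En6 t M M' B N a L m) = EE S (fun F => ∑ v ∈ core4 (L * m : ℕ), ∑ w ∈ core4 (L * m : ℕ),
      ((max (sd v w) 1 : ℤ) : ℝ) ^ (-t) * ind (E6 M M' B N a L m v F ∧ E6 M M' B N a L m w F)) := by
      congr 1
      funext F
      exact t5_En t M M' B N a L m F
    rw [e0]
    unfold H934E.EE
    rw [Ex_sum]
    apply Finset.sum_congr rfl
    intro v _
    rw [Ex_sum]
    apply Finset.sum_congr rfl
    intro w _
    rw [Ex_mul_left]
    rfl
  rw [e1]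
  have h2 : ∀ v ∈ core4 (L * m : ℕ), ∑ w ∈ core4 (L * m : ℕ),
      ((max (sd v w) 1 : ℤ) : ℝ) ^ (-t) * Q S (fun F => E6 M M' B N a L m v F ∧ E6 M M' B N a L m w F) ≤
      C * (m : ℝ) ^ (-(5/4) : ℝ) *
        ((1 + 4 / (1 - (t + 5/4) / 2)) ^ 2 * ((L : ℝ) * m) ^ (2 - (t + 5/4))) := by
    intro v hv
    have i1 := t5_two (a := t + 5/4) (by linarith) (by linarith) ((L * m : ℕ) : ℤ) hU1 v hv
    rw [hUr] at i1
    refine le_trans ?_ (mul_le_mul_of_nonneg_left i1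
      (mul_nonneg hC.le (Real.rpow_nonneg hm0.le _)))
    rw [Finset.mul_sum]
    apply Finset.sum_le_sum
    intro w hw
    have i2 := hT m hmm v hv w hw S hS
    have e2 : ((max (sd v w) 1 : ℤ) : ℝ) ^ (-(t + 5/4)) =
        ((max (sd v w) 1 : ℤ) : ℝ) ^ (-t) * ((max (sd v w) 1 : ℤ) : ℝ) ^ (-(5/4) : ℝ) := by
      rw [← Real.rpow_add (t5_max_pos _)]
      congr 1
      ring
    rw [e2]
    calc _ ≤ ((max (sd v w) 1 : ℤ) : ℝ) ^ (-t) *
          (C * ((max (sd v w) 1 : ℤ) : ℝ) ^ (-(5/4) : ℝ) * (m : ℝ) ^ (-(5/4) : ℝ)) :=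
          mul_le_mul_of_nonneg_left i2 (Real.rpow_nonneg (t5_max_nonneg _) _)
      _ = _ := by ring
  refine (Finset.sum_le_sum h2).trans ?_
  rw [Finset.sum_const, nsmul_eq_mul, Pool.Agent.W347.DPGood.t5_card (by omega), hUr]
  have e3 : (m : ℝ) ^ 2 * ((m : ℝ) ^ (-(5/4) : ℝ) * (m : ℝ) ^ (2 - (t + 5/4))) =
      (m : ℝ) ^ (3/2 - t) := by
    rw [← Real.rpow_add hm0, ← Real.rpow_natCast, ← Real.rpow_add hm0]
    congr 1
    push_cast
    ring
  have e4 : ((L : ℝ) * m) ^ (2 - (t + 5/4)) = (L : ℝ) ^ (2 - (t + 5/4)) * (m : ℝ) ^ (2 - (t + 5/4)) :=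
    Real.mul_rpow hL0.le hm0.le
  have h4 : (2 * ((L : ℝ) * m) + 1) ^ 2 ≤ 9 * ((L : ℝ) * m) ^ 2 := by nlinarith
  have h5 : 0 ≤ C * (m : ℝ) ^ (-(5/4) : ℝ) *
        ((1 + 4 / (1 - (t + 5/4) / 2)) ^ 2 * ((L : ℝ) * m) ^ (2 - (t + 5/4))) := by
    have := Real.rpow_nonneg hm0.le (-(5/4) : ℝ)
    have := Real.rpow_nonneg hU0.le (2 - (t + 5/4))
    positivity
  calc (2 * ((L : ℝ) * m) + 1) ^ 2 * (C * (m : ℝ) ^ (-(5/4) : ℝ) *
        ((1 + 4 / (1 - (t + 5/4) / 2)) ^ 2 * ((L : ℝ) * m) ^ (2 - (t + 5/4))))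
      ≤ (9 * ((L : ℝ) * m) ^ 2) * (C * (m : ℝ) ^ (-(5/4) : ℝ) *
        ((1 + 4 / (1 - (t + 5/4) / 2)) ^ 2 * ((L : ℝ) * m) ^ (2 - (t + 5/4)))) :=
        mul_le_mul_of_nonneg_right h4 h5
    _ = 9 * (L : ℝ) ^ 2 * C * ((1 + 4 / (1 - (t + 5/4) / 2)) ^ 2 * (L : ℝ) ^ (2 - (t + 5/4))) *
        ((m : ℝ) ^ 2 * ((m : ℝ) ^ (-(5/4) : ℝ) * (m : ℝ) ^ (2 - (t + 5/4)))) := by rw [e4]; ring
    _ = _ := by rw [e3]


end Y2

open Y2 in
/-- **The good event has positive probability.** -/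
theorem good6 (h1 : St_ONE6) (h2 : St_TWO6) : St_GOOD6 := by
  intro t ht ht1
  obtain ⟨L, M0, B, a, M, M', N, r0, c, hL, hM, hB, ha, hM1, hM1', hN, hr0, hc, hone⟩ := h1
  obtain ⟨C0, m1, hC0, hm1, hE0⟩ := t5_EE h2 (t := 0) le_rfl (by norm_num) M M' B N a L hL ha
  obtain ⟨Ct, m2, hCt, hm2, hEt⟩ := t5_EE h2 (t := t) ht.le ht1 M M' B N a L hL ha
  have hL0 : (0:ℝ) < L := by
    have : 0 < L := by omega
    exact_mod_cast this
  obtain ⟨A, hA⟩ : ∃ A : ℝ, A = 4 * (L : ℝ) ^ 2 * c := ⟨_, rfl⟩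
  have hA0 : 0 < A := by rw [hA]; positivity
  set p : ℝ := A ^ 2 / (4 * C0) / 2 with hp
  have hp0 : 0 < p := by positivity
  refine ⟨L, M0, B, a, M, M', N, max r0 (max m1 m2), A / 2, Ct / p, min p 1, hL, hM, hB, ha, hM1,
    hM1', hN, le_trans hr0 (le_max_left _ _), by positivity, by positivity,
    lt_min hp0 one_pos, min_le_right _ _, ?_⟩
  intro r S hr hS
  refine (min_le_left _ _).trans ?_
  obtain ⟨m, hm⟩ : ∃ m : ℕ, m = M0 * r := ⟨_, rfl⟩
  have hr1 : r0 ≤ r := (le_max_left _ _).trans hr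
  have hr2 : m1 ≤ r := (le_trans (le_max_left _ _) (le_max_right _ _)).trans hr
  have hr3 : m2 ≤ r := (le_trans (le_max_right _ _) (le_max_right _ _)).trans hr
  have hrm : r ≤ m := by
    rw [hm]
    calc r = 1 * r := by ring
      _ ≤ M0 * r := Nat.mul_le_mul_right _ (by omega)
  have hm64 : 64 ≤ m := (hm1.trans hr2).trans hrm
  have hone' := hone r S hr1
  rw [← hm] at hone' hS ⊢
  have hone'' := hone' hS
  have hm0 : (0:ℝ) < m := by
    have : 0 < m := by omega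
    exact_mod_cast this
  have hU1 : (1 : ℤ) ≤ ((L * m : ℕ) : ℤ) := by
    have : 0 < L * m := Nat.mul_pos (by omega) (by omega)
    exact_mod_cast this
  have hUr : (((L * m : ℕ) : ℤ) : ℝ) = (L : ℝ) * m := by push_cast; ring
  have hU1r : (1:ℝ) ≤ (L : ℝ) * m := by
    rw [← hUr]; exact_mod_cast hU1
  have hU : 0 < (m : ℝ) ^ (3/4 : ℝ) := Real.rpow_pos_of_pos hm0 _
  have hU2 : (m : ℝ) ^ (3/4 : ℝ) * (m : ℝ) ^ (3/4 : ℝ) = (m : ℝ) ^ (3/2 - (0:ℝ)) := by
    rw [← Real.rpow_add hm0]; norm_num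
  set X : Finset Edg → ℝ := fun F => ((V6 M M' B N a L m F).card : ℝ) with hX
  have hX0 : ∀ F, 0 ≤ X F := fun F => Nat.cast_nonneg _
  -- first moment
  have l1 : A * (m : ℝ) ^ (3/4 : ℝ) ≤ EE S X := by
    have e1 : EE S X = ∑ v ∈ core4 (L * m : ℕ), Q S (fun F => E6 M M' B N a L m v F) := by
      have e0 : EE S X = EE S (fun F => ∑ v ∈ core4 (L * m : ℕ), ind (E6 M M' B N a L m v F)) := by
        congr 1
        funext F
        rw [hX]
        simp only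
        rw [t5_N]
      rw [e0]
      unfold H934E.EE
      rw [Ex_sum]
      rfl
    rw [e1]
    have i1 : ∀ v ∈ core4 (L * m : ℕ), c * (m : ℝ) ^ (-(5/4) : ℝ) ≤
        Q S (fun F => E6 M M' B N a L m v F) := by
      intro v hv
      exact hone'' v hv
    refine le_trans ?_ (Finset.sum_le_sum i1)
    rw [Finset.sum_const, nsmul_eq_mul, Pool.Agent.W347.DPGood.t5_card (by omega), hUr]
    have e3 : (m : ℝ) ^ 2 * (m : ℝ) ^ (-(5/4) : ℝ) = (m : ℝ) ^ (3/4 : ℝ) := by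
      rw [← Real.rpow_natCast, ← Real.rpow_add hm0]
      congr 1
      norm_num
    rw [← e3]
    have h4 : 4 * ((L : ℝ) * m) ^ 2 ≤ (2 * ((L : ℝ) * m) + 1) ^ 2 := by nlinarith
    have h5 : 0 ≤ c * (m : ℝ) ^ (-(5/4) : ℝ) := by
      have := Real.rpow_nonneg hm0.le (-(5/4) : ℝ)
      positivity
    calc A * ((m : ℝ) ^ 2 * (m : ℝ) ^ (-(5/4) : ℝ)) =
        4 * ((L : ℝ) * m) ^ 2 * (c * (m : ℝ) ^ (-(5/4) : ℝ)) := by rw [hA]; ring
      _ ≤ _ := mul_le_mul_of_nonneg_right h4 h5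
  -- second moment
  have l2 : EE S (fun F => X F * X F) ≤ C0 * (m : ℝ) ^ (3/2 - (0:ℝ)) := by
    refine le_trans ?_ (hE0 m (hr2.trans hrm) S hS)
    unfold H934E.EE
    apply Ex_mono okhalf
    intro F _
    rw [← t5_sq]
  have k := paley (S := S) (f := X) (fun F _ => hX0 F)
    (m := A * (m : ℝ) ^ (3/4 : ℝ)) (V := C0 * (m : ℝ) ^ (3/2 - (0:ℝ)))
    (by positivity) (by positivity) l1 l2
  have e3 : (A * (m : ℝ) ^ (3/4 : ℝ)) ^ 2 /
      (4 * (C0 * (m : ℝ) ^ (3/2 - (0:ℝ)))) = 2 * p := by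
    rw [← hU2, hp]
    field_simp
  rw [e3] at k
  -- energy
  have hU3 : 0 < (m : ℝ) ^ (3/2 - t) := Real.rpow_pos_of_pos hm0 _
  have i2 := markov (S := S) (f := En6 t M M' B N a L m)
    (fun F _ => t5_En_nonneg t M M' B N a L m F)
    (t := Ct / p * (m : ℝ) ^ (3/2 - t)) (by positivity)
  have i3 : EE S (En6 t M M' B N a L m) / (Ct / p * (m : ℝ) ^ (3/2 - t)) ≤ p := by
    rw [div_le_iff₀ (by positivity)]
    refine (hEt m (hr3.trans hrm) S hS).trans (le_of_eq ?_)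
    field_simp
  have i4 : Q S (fun F => A * (m : ℝ) ^ (3/4 : ℝ) / 2 ≤ X F) ≤
      Q S (Gd6 (A / 2) (Ct / p) t M M' B N a L m) +
      Q S (fun F => Ct / p * (m : ℝ) ^ (3/2 - t) ≤ En6 t M M' B N a L m F) := by
    refine le_trans ?_ (Pr_or_le okhalf S (Gd6 (A / 2) (Ct / p) t M M' B N a L m) _)
    apply Q_mono
    intro F _ hF
    by_cases h5 : En6 t M M' B N a L m F ≤ Ct / p * (m : ℝ) ^ (3/2 - t)
    · left
      refine ⟨?_, h5⟩
      rw [hX] at hF
      simp only at hF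
      refine le_trans (le_of_eq ?_) hF
      ring
    · exact Or.inr (le_of_not_ge h5)
  have i5 : p ≤ Q S (Gd6 (A / 2) (Ct / p) t M M' B N a L m) := by linarith
  exact i5


end good

section one

open H974 H906.Cyl H12S Finset H984P H342P Pool.Agent.W92.DP
open Pool.Agent.W822.PD (SC)
open Pool.Agent.N948.IX
open Pool.Agent.N948.IX.X18 Pool.Agent.N948.IX.C6

open Y2 in
/-- **One-point lower bound.** -/
theorem one6 (hB : St_basic) (_hoB : St_oBasic) (hr : St_restr) (_hoR : St_oRestr) (hm : St_Mom)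
    (hSH1 : St_SH1) (hL : St_SHL) (hU : St_IOup) (hG : St_GLW) (hC : St_COR6) (hP : St_PIO) :
    St_ONE6 := by
  classical
  obtain ⟨L, M0, B, a, M, M', N, r0, k, hL2, hM0, hB2, ha2, hM, hM', hN, hr0, hk, hP⟩ := hP
  obtain ⟨κ, U0, hκ, hC⟩ := hC a ha2
  obtain ⟨C, hC0, hsec⟩ := sec hB hr hm hSH1 hL hU
  set K : ℝ := (κ * k) ^ 2 / (C * ((a : ℝ) / (4 * L * M0 : ℕ)) ^ (5/4 : ℝ)) with hK
  have hLM : 0 < 4 * L * M0 := by positivity
  have haR : (0 : ℝ) < a := by exact_mod_cast (by omega : 0 < a)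
  have hLMR : (0 : ℝ) < (4 * L * M0 : ℕ) := by exact_mod_cast hLM
  have hK0 : 0 < K := by positivity
  refine ⟨L, M0, B, a, M, M', N, r0 + U0 + a + 2, K, hL2, hM0, hB2, ha2, hM, hM', hN, by omega,
    hK0, fun r S hrr hS c hc => ?_⟩
  have hr1 : 1 ≤ r := by omega
  have hrR : (0 : ℝ) < r := by exact_mod_cast (by omega : 0 < r)
  set m : ℕ := M0 * r with hmdef
  have hmr : r ≤ m := by
    rw [hmdef]
    exact Nat.le_mul_of_pos_left r (by omega)
  set U : ℕ := L * m with hUdef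
  have hUm : m ≤ U := by
    rw [hUdef]
    exact Nat.le_mul_of_pos_left m (by omega)
  have hb0 : 16 * L * m = 16 * U := by
    rw [hUdef]
    ring
  have hb4 : 4 * L * M0 * r = 4 * U := by
    rw [hUdef, hmdef]
    ring
  -- notation
  set b : ℕ := 16 * L * m - 1 with hbdef
  have hab : a < b := by omega
  have hbU : b < 16 * U := by omega
  have hGS : GeF c a b ⊆ S := (ge_SA (by omega) hc hbU).trans ((SA_SC (Int.natCast_nonneg U)).trans hS)
  set rs : ℕ := 4 * L * m + 24 with hrs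
  set rc : ℕ := 4 * L * m + 20 with hrc
  set t : ℕ := 2 * m + 4 with ht
  -- the first moment
  have hfirst : k * (r : ℝ) ^ (-(5/4) : ℝ) ≤ Ex (fun _ => (1/2 : ℝ)) S
      (fun F => ((NG M M' B N c a b rs rc t (↑F : Set Edg) : ℕ) : ℝ)) := by
    have h1 := hP r c (GeF c 0 (16 * L * m + 3)) (by omega) (by
      rw [← hmdef]
      exact Bx_sub c _)
    have h2 : ∀ S' : Finset Edg, GeF c a b ⊆ S' → Ex (fun _ => (1/2 : ℝ)) S'
        (fun F => ((NG M M' B N c a b rs rc t (↑F : Set Edg) : ℕ) : ℝ)) =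
        Ex (fun _ => (1/2 : ℝ)) (GeF c a b)
          (fun F => ((NG M M' B N c a b rs rc t (↑F : Set Edg) : ℕ) : ℝ)) := by
      intro S' hS'
      refine Ex_local hS' fun F _ => ?_
      rw [ng_congr hB hab (inter_ge F c a b)]
    rw [h2 S hGS, ← h2 (GeF c 0 (16 * L * m + 3)) (GeF_mono (Nat.zero_le _) (by omega))]
    exact h1
  -- the fresh configuration
  set Q : Set Edg → Finset Edg → Set Edg → Prop := fun _ _ G =>
    ∃ G' : Finset Edg, (↑G' : Set Edg) = G ∩ ↑S ∧ QX a c (U : ℤ) G' with hQ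
  set P : Finset (St × St) := cand c b ×ˢ cand c b with hPdef
  set D2 : Finset (Fin 2 × Edg) := (Finset.univ : Finset (Fin 2)) ×ˢ S with hD2
  have hglw : ∀ p : St × St, κ * Pr (fun _ => (1/2 : ℝ)) S
      (fun F => ∃ A, Wp M M' B N c a b rs rc t p (↑F : Set Edg) A) ≤
      Pr (fun _ => (1/2 : ℝ)) D2 (fun F => ∃ A, Wp M M' B N c a b rs rc t p (sl F 0) A ∧
        Q (sl F 0) A (gl (sl F 0) (sl F 1) A)) := by
    intro p
    refine (hG S (Wp M M' B N c a b rs rc t p) Q κ hκ.le ?_ ?_ ?_ ?_ ?_).2 ?_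
    · intro F A h
      exact (wp_sub hB hab h).trans hGS
    · intro F G A h h'
      exact wp_congr h h'
    · intro F A A' h h'
      exact wp_uniq h h'
    · intro F F' A G _ h
      exact h
    · rintro F A G G' h ⟨G1, h1, h2⟩
      exact ⟨G1, by rw [h1, h], h2⟩
    · intro F A _
      refine (hC U S (by omega) hS c hc).trans ?_
      refine Pr_mono ok fun G hG1 hG2 => ⟨G, ?_, hG2⟩
      symm
      rw [Set.inter_eq_left]
      exact_mod_cast hG1
  set X : Finset (Fin 2 × Edg) → ℝ := fun F => ∑ p ∈ P,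
    ind (∃ A, Wp M M' B N c a b rs rc t p (sl F 0) A ∧
      Q (sl F 0) A (gl (sl F 0) (sl F 1) A)) with hX
  have hX1 : κ * k * (r : ℝ) ^ (-(5/4) : ℝ) ≤ Ex (fun _ => (1/2 : ℝ)) D2 X := by
    rw [hX, Ex_sum]
    have h1 : ∀ F : Finset Edg, ((NG M M' B N c a b rs rc t (↑F : Set Edg) : ℕ) : ℝ) =
        ∑ p ∈ P, ind (∃ A, Wp M M' B N c a b rs rc t p (↑F : Set Edg) A) := by
      intro F
      unfold NG
      rw [ncard_pair (P := P) (fun p hp => gp_cand hB hab hp)]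
      exact Finset.sum_congr rfl fun p _ => ind_congr wp_iff.symm
    rw [Ex_congr (fun F _ => h1 F), Ex_sum] at hfirst
    have h2 := mul_le_mul_of_nonneg_left hfirst hκ.le
    rw [← mul_assoc] at h2
    refine h2.trans ?_
    rw [Finset.mul_sum]
    exact Finset.sum_le_sum fun p _ => hglw p
  have hX2 : Ex (fun _ => (1/2 : ℝ)) D2 (fun F => X F ^ 2) ≤
      C * ((a : ℝ) / (4 * U : ℕ)) ^ (5/4 : ℝ) := by
    refine le_trans ?_ (hsec M M' B N c a (4 * U) b rs rc t S (by omega) (by omega) (by omega) hGS)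
    rw [← Ex_slice (m := 2) 0 S
      (fun F => ((NG M M' B N c a b rs rc t F : ℕ) : ℝ) ^ 2)]
    refine Ex_mono ok fun F _ => ?_
    have h1 : X F ≤ ((NG M M' B N c a b rs rc t (sl F 0) : ℕ) : ℝ) := by
      unfold NG
      rw [ncard_pair (P := P) (fun p hp => gp_cand hB hab hp)]
      refine Finset.sum_le_sum fun p _ => ind_mono ?_
      rintro ⟨A, h, -⟩
      exact wp_iff.1 ⟨A, h⟩
    have h0 : 0 ≤ X F := Finset.sum_nonneg fun p _ => ind_nonneg _
    exact pow_le_pow_left₀ h0 h1 2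
  -- the second moment method
  have hU4 : (0 : ℝ) < (4 * U : ℕ) := by exact_mod_cast (by omega : 0 < 4 * U)
  have hq := cs (A := fun F => ∃ F0 : Finset Edg, (↑F0 : Set Edg) = sl F 0 ∧ E6 M M' B N a L m c F0)
    (show 0 < κ * k * (r : ℝ) ^ (-(5/4) : ℝ) by positivity)
    (show 0 < C * ((a : ℝ) / (4 * U : ℕ)) ^ (5/4 : ℝ) by positivity) hX1 hX2 (by
      intro F hF hno
      rw [hX]
      refine Finset.sum_eq_zero fun p _ => ind_not_of ?_
      rintro ⟨A, ⟨T, T', hg, hA⟩, G, hG1, hG2⟩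
      apply hno
      have hS0 : ∀ e, e ∈ sl F 0 → e ∈ S := by
        intro e he
        exact (Finset.mem_product.1 (hF he)).2
      refine ⟨S.filter (fun e => e ∈ sl F 0), ?_, p.1, p.2, T, T', G, ?_, ?_, hG2⟩
      · ext e
        rw [Finset.mem_coe, Finset.mem_filter]
        exact ⟨fun h => h.2, fun h => ⟨hS0 e h, h⟩⟩
      · have e0 : (↑(S.filter (fun e => e ∈ sl F 0)) : Set Edg) = sl F 0 := by
          ext e
          rw [Finset.mem_coe, Finset.mem_filter]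
          exact ⟨fun h => h.2, fun h => ⟨hS0 e h, h⟩⟩
        rw [e0]
        exact hg
      · have e0 : (↑(S.filter (fun e => e ∈ sl F 0)) : Set Edg) = sl F 0 := by
          ext e
          rw [Finset.mem_coe, Finset.mem_filter]
          exact ⟨fun h => h.2, fun h => ⟨hS0 e h, h⟩⟩
        rw [e0]
        intro e he1 he2
        have heA : e ∉ A := by
          rw [hA, Finset.mem_union]
          tauto
        rw [← Finset.mem_coe, ← Finset.mem_coe, e0, hG1]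
        constructor
        · intro h
          exact ⟨Or.inr ⟨heA, h⟩, hS0 e h⟩
        · rintro ⟨h | h, -⟩
          · exact absurd h.1 heA
          · exact h.2)
  have hslice : Pr (fun _ => (1/2 : ℝ)) D2
      (fun F => ∃ F0 : Finset Edg, (↑F0 : Set Edg) = sl F 0 ∧ E6 M M' B N a L m c F0) =
      PQ (1/2) S (E6 M M' B N a L m c) := by
    have h1 := Ex_slice (m := 2) 0 S
      (fun Fs => ind (∃ F0 : Finset Edg, (↑F0 : Set Edg) = Fs ∧ E6 M M' B N a L m c F0))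
    refine h1.trans ?_
    refine Ex_congr fun F _ => ind_congr ?_
    constructor
    · rintro ⟨F0, h2, h3⟩
      rw [Finset.coe_injective h2] at h3
      exact h3
    · intro h2
      exact ⟨F, rfl, h2⟩
  rw [hslice] at hq
  refine le_trans ?_ hq
  -- the numbers
  have hmono : ((M0 * r : ℕ) : ℝ) ^ (-(5/4) : ℝ) ≤ (r : ℝ) ^ (-(5/4) : ℝ) := by
    apply Real.rpow_le_rpow_of_nonpos hrR
    · exact_mod_cast hmr
    · norm_num
  refine (mul_le_mul_of_nonneg_left hmono hK0.le).trans (le_of_eq ?_)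
  have e1 : ((a : ℝ) / (4 * U : ℕ)) ^ (5/4 : ℝ) =
      ((a : ℝ) / (4 * L * M0 : ℕ)) ^ (5/4 : ℝ) * (r : ℝ) ^ (-(5/4) : ℝ) := by
    rw [← hb4, Real.rpow_neg hrR.le, ← Real.inv_rpow hrR.le, ← Real.mul_rpow (by positivity)
      (by positivity)]
    congr 1
    push_cast
    field_simp
  rw [e1, hK]
  have hx : (0 : ℝ) < (r : ℝ) ^ (-(5/4) : ℝ) := by positivity
  have hy : (0 : ℝ) < ((a : ℝ) / (4 * L * M0 : ℕ)) ^ (5/4 : ℝ) := by positivity
  field_simp


end one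

end Pool.Agent.N948.XE
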