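import Pool.Agent.N948.XE.Stm
import Pool.Agent.N948.IX.X17

/-!
# XE-Y3: monotonicity of the event E6 (helper581)
-/

set_option autoImplicit false

namespace Pool.Agent.N948.XE.Y3

open H974 H973 H906.Cyl H12S Finset H389NS H984P H342P H984N
open Pool.Agent.W92.DP Pool.Agent.W52.DPInd Pool.Agent.N948.IX Pool.Agent.W822.PD

/-- The central part of the square. -/
noncomputable def SM (U : ℤ) : Finset Edg := RE (-(27 * U)) (27 * U) (-(3 * U)) (43 * U)

theorem mem_SM {U : ℤ} {v : Vtx} (hv : v ∈ core4 U) {R : ℤ} (hR : R ≤ 16 * U) {e : Edg}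
    (h1 : lv v (src e) ≤ R) (h2 : lv v (tgt e) ≤ R) : e ∈ SM U := by
  rw [mem_core4] at hv
  unfold SM
  unfold lv at h1 h2
  have a1 := abs_le.mp ((le_max_left _ _).trans h1)
  have a2 := abs_le.mp ((le_max_right _ _).trans h1)
  have a3 := abs_le.mp ((le_max_left _ _).trans h2)
  have a4 := abs_le.mp ((le_max_right _ _).trans h2)
  obtain ⟨x, y, _ | _⟩ := e
  · rw [src_mk] at a1 a2
    rw [tgt_false] at a3 a4
    rw [mem_RE_false]
    simp only at a1 a2 a3 a4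
    omega
  · rw [src_mk] at a1 a2
    rw [tgt_true] at a3 a4
    rw [mem_RE_true]
    simp only at a1 a2 a3 a4
    omega

/-- A larger configuration on the relevant edges keeps a left-right crossing. -/
theorem LRc_le {a b c d : ℤ} {F G : Finset Edg} (h : ∀ e ∈ RE a b c d, e ∈ F → e ∈ G)
    (hF : LRc a b c d F) : LRc a b c d G := by
  obtain ⟨y, y', h1, h2, h3⟩ := hF
  refine ⟨y, y', h1, h2, h3.mono ?_⟩
  rintro e ⟨he, he'⟩
  exact ⟨h e (LRE_subset_RE he') he, he'⟩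

theorem TBc_le {a b c d : ℤ} {F G : Finset Edg} (h : ∀ e ∈ RE a b c d, e ∈ F → e ∈ G)
    (hF : TBc a b c d F) : TBc a b c d G := by
  obtain ⟨y, y', h1, h2, h3⟩ := hF
  refine ⟨y, y', h1, h2, h3.mono ?_⟩
  rintro e ⟨he, he'⟩
  exact ⟨h e (TBE_subset_RE he') he, he'⟩

theorem DLR_le {a b c d : ℤ} {F G : Finset Edg} (h : ∀ e ∈ RE a b c d, e ∈ G → e ∈ F)
    (hF : DLR a b c d F) : DLR a b c d G := by
  obtain ⟨y, y', h1, h2, h3⟩ := hF
  refine ⟨y, y', h1, h2, h3.mono ?_⟩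
  intro e he
  rw [Finset.mem_coe, Finset.mem_sdiff] at he ⊢
  exact ⟨he.1, fun hG => he.2 (h e (TBE_subset_RE he.1) hG)⟩

theorem DTB_le {a b c d : ℤ} {F G : Finset Edg} (h : ∀ e ∈ RE a b c d, e ∈ G → e ∈ F)
    (hF : DTB a b c d F) : DTB a b c d G := by
  obtain ⟨y, y', h1, h2, h3⟩ := hF
  refine ⟨y, y', h1, h2, h3.mono ?_⟩
  intro e he
  rw [Finset.mem_coe, Finset.mem_sdiff] at he ⊢
  exact ⟨he.1, fun hG => he.2 (h e (LRE_subset_RE he.1) hG)⟩

/-- The corridors only improve. -/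
theorem corX_le {U : ℤ} (hU : 1 ≤ U) {c : Vtx} (hc : c ∈ core4 U) {G1 G2 : Finset Edg}
    (h0 : ∀ e ∈ SM U, (e ∈ G1 ↔ e ∈ G2))
    (h1 : ∀ e ∈ SC U, e ∉ SM U → e.2.1 ≤ 12 * U → e ∈ G1 → e ∈ G2)
    (h2 : ∀ e ∈ SC U, e ∉ SM U → 12 * U ≤ e.2.1 → e ∈ G2 → e ∈ G1)
    (h : CorX c U G1) : CorX c U G2 := by
  rw [mem_core4] at hc
  obtain ⟨⟨k1, k2, k3⟩, k4, k5⟩ := h
  have sub : ∀ {a b p q : ℤ}, -(27 * U) ≤ a → b ≤ 27 * U → -(3 * U) ≤ p → q ≤ 43 * U →
      RE a b p q ⊆ SM U := fun h1 h2 h3 h4 => RE_subset h1 h2 h3 h4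
  refine ⟨⟨LRc_le ?_ k1, TBc_le ?_ k2, TBc_le ?_ k3⟩, DLR_le ?_ k4, DTB_le ?_ k5⟩
  · intro e he
    exact (h0 e (sub (by omega) (by omega) (by omega) (by omega) he)).1
  · intro e he
    exact (h0 e (sub (by omega) (by omega) (by omega) (by omega) he)).1
  · intro e he
    by_cases hs : e ∈ SM U
    · exact (h0 e hs).1
    · have hsc : e ∈ SC U := by
        unfold SC
        exact RE_subset (by omega) (by omega) (by omega) (by omega) he
      refine h1 e hsc hs ?_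
      obtain ⟨x, y, _ | _⟩ := e
      · rw [mem_RE_false] at he
        simp only
        omega
      · rw [mem_RE_true] at he
        simp only
        omega
  · intro e he
    exact (h0 e (sub (by omega) (by omega) (by omega) (by omega) he)).2
  · intro e he
    by_cases hs : e ∈ SM U
    · exact (h0 e hs).2
    · have hsc : e ∈ SC U := by
        unfold SC
        exact RE_subset (by omega) (by omega) (by omega) (by omega) he
      refine h2 e hsc hs ?_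
      unfold SM at hs
      obtain ⟨x, y, _ | _⟩ := e
      · rw [mem_RE_false] at he hs
        simp only
        omega
      · rw [mem_RE_true] at he hs
        simp only
        omega

/-- The core event only depends on the edges near the core. -/
theorem gd2_SM {U : ℤ} {c : Vtx} (hc : c ∈ core4 U) {a : ℕ}
    (ha : 72 * (a : ℤ) ≤ 16 * U) {G1 G2 : Finset Edg} (h0 : ∀ e ∈ SM U, (e ∈ G1 ↔ e ∈ G2)) :
    Gd2 c a (↑G1 : Set Edg) ↔ Gd2 c a (↑G2 : Set Edg) := by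
  have e1 : ∀ e ∈ Ge c (9 * a) (72 * a), (e ∈ (↑G1 : Set Edg) ↔ e ∈ (↑G2 : Set Edg)) := by
    intro e he
    have : e ∈ SM U := mem_SM hc (R := 72 * (a : ℤ)) ha (by have := he.1.2; push_cast at this; omega)
      (by have := he.2.2; push_cast at this; omega)
    rw [Finset.mem_coe, Finset.mem_coe]
    exact h0 e this
  have e2 : ∀ e, (∃ f, (dsrc e = f ∨ dtgt e = f) ∧ Af c a (8 * a) f) →
      (e ∈ (↑G1 : Set Edg) ↔ e ∈ (↑G2 : Set Edg)) := by
    rintro e ⟨f, hf, h⟩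
    have h1 := X17.near_face hf h.2
    have : e ∈ SM U := mem_SM hc (by push_cast; omega) h1.1 h1.2
    rw [Finset.mem_coe, Finset.mem_coe]
    exact h0 e this
  unfold Gd2
  rw [X17.oc_local e1, X17.dc_local e2]

end Pool.Agent.N948.XE.Y3

namespace Pool.Agent.N948.XE

open H974 H973 H906.Cyl H12S Finset H389NS H984P H342P H984N
open Pool.Agent.W92.DP Pool.Agent.W52.DPInd Pool.Agent.N948.IX Pool.Agent.W822.PD

/-- **MONO6**: the event is monotone in the strips. -/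
theorem mono6 (hB : St_basic) (hoB : St_oBasic) : St_MONO6 := by
  intro M M' B N a L m F G hm ha hFG h1 h2 v hv h
  have e16 : 16 * L * m = 16 * (L * m) := by ring
  have hab : a < 16 * L * m - 1 := by omega
  have hU : (1 : ℤ) ≤ ((L * m : ℕ) : ℤ) := by exact_mod_cast hm
  have ha' : 72 * (a : ℤ) ≤ 16 * ((L * m : ℕ) : ℤ) := by omega
  obtain ⟨σ, τ, T, T', G1, k1, k2, k3, k4⟩ := h
  have hSM : ∀ e ∈ Y3.SM (L * m : ℕ), (e ∈ F ↔ e ∈ G) := by
    intro e he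
    have he' : e ∈ RE (-(27 * (L * m : ℕ))) (27 * (L * m : ℕ)) (-(3 * (L * m : ℕ)))
      (43 * (L * m : ℕ)) := he
    constructor
    · intro h
      have : e ∈ F ∩ RE (-(27 * (L * m : ℕ))) (27 * (L * m : ℕ)) (-(3 * (L * m : ℕ)))
        (43 * (L * m : ℕ)) := Finset.mem_inter.2 ⟨h, he'⟩
      rw [hFG] at this
      exact (Finset.mem_inter.1 this).1
    · intro h
      have : e ∈ G ∩ RE (-(27 * (L * m : ℕ))) (27 * (L * m : ℕ)) (-(3 * (L * m : ℕ)))
        (43 * (L * m : ℕ)) := Finset.mem_inter.2 ⟨h, he'⟩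
      rw [← hFG] at this
      exact (Finset.mem_inter.1 this).1
  have hGe : ∀ e ∈ Ge v a (16 * L * m - 1), e ∈ Y3.SM (L * m : ℕ) := by
    intro e he
    have h1 := he.1.2
    have h2 := he.2.2
    exact Y3.mem_SM hv (R := ((16 * L * m - 1 : ℕ) : ℤ)) (by omega) h1 h2
  have hF : ∀ e ∈ Ge v a (16 * L * m - 1), (e ∈ (↑F : Set Edg) ↔ e ∈ (↑G : Set Edg)) := by
    intro e he
    rw [Finset.mem_coe, Finset.mem_coe]
    exact hSM e (hGe e he)
  have hx1 : ∀ e, e ∉ Y3.SM (L * m : ℕ) → e ∉ Exm (↑F : Set Edg) σ T := by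
    intro e he he'
    obtain ⟨-, -, -, h, -⟩ := hB (↑F) v a (16 * L * m - 1) σ T hab k1.i
    obtain ⟨s, hs, hse⟩ := mem_Exm.1 he'
    exact he (hse ▸ hGe _ (h s hs))
  have hx2 : ∀ e, e ∉ Y3.SM (L * m : ℕ) → e ∉ Exm (↑F : Set Edg) τ T' := by
    intro e he he'
    obtain ⟨-, -, -, h, -⟩ := hoB (↑F) v a (16 * L * m - 1) τ T' hab k1.o
    obtain ⟨s, hs, hse⟩ := mem_Exm.1 he'
    exact he (hse ▸ hGe _ (h s hs))
  have hFG1 : ∀ e, e ∉ Y3.SM (L * m : ℕ) → (e ∈ F ↔ e ∈ G1) := fun e he =>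
    k2 e (hx1 e he) (hx2 e he)
  obtain ⟨j1, j2, j3⟩ := X17.gio_local hB hoB hab hF k1
  have hin : ∀ e ∈ Y3.SM (L * m : ℕ), (e ∈ G1 ↔ e ∈ (G1 ∩ Y3.SM (L * m : ℕ)) ∪
      (G \ Y3.SM (L * m : ℕ))) := by
    intro e he
    rw [Finset.mem_union, Finset.mem_inter, Finset.mem_sdiff]
    tauto
  have hout : ∀ e, e ∉ Y3.SM (L * m : ℕ) → (e ∈ G ↔ e ∈ (G1 ∩ Y3.SM (L * m : ℕ)) ∪
      (G \ Y3.SM (L * m : ℕ))) := by
    intro e he
    rw [Finset.mem_union, Finset.mem_inter, Finset.mem_sdiff]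
    tauto
  refine ⟨σ, τ, T, T', (G1 ∩ Y3.SM (L * m : ℕ)) ∪ (G \ Y3.SM (L * m : ℕ)), j1, ?_,
    (Y3.gd2_SM hv ha' hin).1 k3, Y3.corX_le hU hv hin ?_ ?_ k4⟩
  · rw [j2, j3]
    intro e he he'
    by_cases hs : e ∈ Y3.SM (L * m : ℕ)
    · rw [← hSM e hs, k2 e he he', hin e hs]
    · exact hout e hs
  · intro e hsc hs hy he
    exact (hout e hs).1 (h1 e hsc hy ((hFG1 e hs).2 he))
  · intro e hsc hs hy he
    exact (hFG1 e hs).1 (h2 e hsc hy ((hout e hs).2 he))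

end Pool.Agent.N948.XE
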