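import Pool.Agent.N948.XE.Stm
import Pool.Agent.N948.IX.X26

/-!
# Project XE, task Y4 (helper439): the passage
-/

set_option autoImplicit false

namespace Pool.Agent.N948.XE.Y4

open H974 H906.Cyl H12S Finset H984P H342P H984P.SideAux
open Pool.Agent.N948.IX Pool.Agent.N948.IX.X26
open H984N (sd)

/-- the passage of the interface -/
theorem cutw (hB : St_basic) (hoB : St_oBasic) (hr : St_restr) (hoR : St_oRestr) (hL1 : St_L1)
    {F G : Finset Edg} {c : Vtx} {U : ℤ} {a b : ℕ} {σ τ : St} {T T' : ℕ}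
    {M M' B N L m rs : ℕ} (hU : U = (L * m : ℕ)) (e8 : 64 ≤ U) (a0 : 1 ≤ a)
    (e0 : (b : ℤ) = 16 * U - 1) (hi : InLeg (↑F : Set Edg) c a b σ T)
    (ho : OutLeg (↑F : Set Edg) c a b τ T')
    (ag : ∀ e, e ∉ Exm (↑F : Set Edg) σ T → e ∉ Exm (↑F : Set Edg) τ T' → (e ∈ F ↔ e ∈ G))
    (hB2 : 2 ≤ B) (hN : 81 ≤ N) (hNa : N * a ≤ L * m) (hrs : (rs : ℤ) = 4 * U + 24)
    (li : LeanP (↑F : Set Edg) c M b σ T) (lo : LeanO (↑F : Set Edg) c M b τ T')
    (ci : LnIn (↑F : Set Edg) c (80 * a) (N * a) σ T)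
    (co : LnOut (↑F : Set Edg) c (80 * a) (N * a) τ T')
    (sp : ∀ e ∈ Exm (↑F : Set Edg) σ T, ∀ e' ∈ Exm (↑F : Set Edg) τ T',
      10 ≤ lv (src e) (src e') ∧ (lv c (src e) ≤ rs ∨ lv c (src e') ≤ rs →
      (max (lv c (src e)) (lv c (src e'))) ^ B ≤
        (M' : ℤ) * (b : ℤ) ^ (B - 1) * lv (src e) (src e')))
    (hgd : Gd2 c a (↑G : Set Edg)) :
    ∃ n : ℕ, T ≤ n ∧
      (∀ s < n, lv c (src (ae (orb (↑F : Set Edg) σ s))) ≤ 16 * U - 1) ∧
      CutW ((N * a) ^ 2 + N * a + 2) (32 * M + 5 ^ (B - 1) + 2 ^ B * M' * 16 ^ (B - 1) + 1) B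
        (L * m) n (fun s => (orb (↑F : Set Edg) σ s).1) c := by
  set R : ℤ := ((N * a : ℕ) : ℤ) with hR
  have hRU : R ≤ U := by rw [hU, hR]; exact_mod_cast hNa
  have haR : (a : ℤ) ≤ R := by
    rw [hR]
    have : 1 * a ≤ N * a := Nat.mul_le_mul (by omega) le_rfl
    omega
  have hRR : 0 ≤ R := by omega
  have haN : 80 * a < N * a := Nat.mul_lt_mul_of_pos_right (by omega) (by omega)
  have hab : a < b := by omega
  -- the restriction of `σ`
  set b4 : ℕ := 4 * (L * m) with hb4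
  have eb4 : (b4 : ℤ) = 4 * U := by rw [hb4, hU]; push_cast; ring
  have hab4 : a < b4 := by omega
  have hb4b : b4 ≤ b := by omega
  obtain ⟨s1, hs1T, hI⟩ := (hr ↑F c a b σ T hab hi).2.2.1 b4 hab4 hb4b
  -- the continuation
  obtain ⟨n, hn, hn'⟩ := hL1 ↑F ↑G c a (80 * a) (N * a) b a (8 * a) (9 * a) (72 * a) σ τ T T' a0
    le_rfl (by omega) (by omega) (by omega) (by omega) (by omega) haN (by omega) hi ho ci co
    (fun e _ h1 h2 => ag e h1 h2) hgd.1 hgd.2
  -- the restriction of `τ`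
  obtain ⟨U2, hU2, hO⟩ := (hoR ↑F c a b τ T' hab ho).2.1 b4 hab4 hb4b
  have basI := hB ↑F c a b4 _ _ hab4 hI
  have basO := hoB ↑F c a b4 _ _ hab4 hO
  have hU2' : U2 < T' := by
    rcases Nat.lt_or_eq_of_le hU2 with h0 | h0
    · exact h0
    · exfalso
      have f1 := basO.2.2.1
      have f2 := (hoB ↑F c a b τ T' hab ho).2.2.1
      rw [h0] at f1
      omega
  -- bounds for the vertices
  have vI : ∀ s, s1 ≤ s → s ≤ T → lv c (orb (↑F : Set Edg) σ s).1 ≤ 4 * U := by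
    intro s hs hsT
    obtain ⟨p, rfl⟩ : ∃ p, s = p + s1 := ⟨s - s1, by omega⟩
    rw [orb_add]
    rcases Nat.eq_zero_or_pos p with h0 | h0
    · rw [h0, orb_zero, basI.2.1]; omega
    · rcases Nat.lt_or_ge p (T - s1) with h2 | h2
      · have f1 := (hI.mid p h0 h2).2
        have f2 := Bas.cor c (orb (↑F : Set Edg) (orb (↑F : Set Edg) σ s1) p)
        omega
      · have h3 : p = T - s1 := by omega
        rw [h3, basI.2.2.1]; omega
  have vN : ∀ p ≤ n, lv c (orb (↑F : Set Edg) σ (T + p)).1 ≤ R := by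
    intro p hp
    have f1 := hn' p hp
    have f2 := Bas.cor c (orb (↑F : Set Edg) σ (T + p))
    omega
  have vO : ∀ p ≤ U2, lv c (orb (↑F : Set Edg) τ p).1 ≤ 4 * U := by
    intro p hp
    rcases Nat.eq_zero_or_pos p with h0 | h0
    · rw [h0, orb_zero, basO.2.1]; omega
    · rcases Nat.lt_or_eq_of_le hp with h2 | h2
      · have f1 := (hO.mid p h0 h2).2
        have f2 := Bas.cor c (orb (↑F : Set Edg) τ p)
        omega
      · rw [h2, basO.2.2.1]; omega
  have oO : ∀ p, orb (↑F : Set Edg) σ (T + n + p) = orb (↑F : Set Edg) τ p := by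
    intro p
    rw [add_comm (T + n), orb_add, hn]
  have vA : ∀ s, s1 ≤ s → s ≤ T + n + U2 → lv c (orb (↑F : Set Edg) σ s).1 ≤ 4 * U := by
    intro s hs hs'
    rcases Nat.lt_or_ge T s with h0 | h0
    · rcases Nat.lt_or_ge (T + n) s with h2 | h2
      · obtain ⟨p', rfl⟩ : ∃ p', s = T + n + p' := ⟨s - (T + n), by omega⟩
        rw [oO]
        exact vO p' (by omega)
      · obtain ⟨p', rfl⟩ : ∃ p', s = T + p' := ⟨s - T, by omega⟩
        have := vN p' (by omega)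
        omega
    · exact vI s hs h0
  -- the examined edges
  have ex : ∀ s < T + n + U2, lv c (src (ae (orb (↑F : Set Edg) σ s))) ≤ 16 * U - 1 := by
    intro s hs
    rcases Nat.lt_or_ge s T with h0 | h0
    · have := ((hB ↑F c a b σ T hab hi).2.2.2.1 s h0).1.2
      omega
    · rcases Nat.lt_or_ge s (T + n) with h1 | h1
      · obtain ⟨p, rfl⟩ : ∃ p, s = T + p := ⟨s - T, by omega⟩
        have f1 := vN p (by omega)
        have f2 := (lv_ae c (orb (↑F : Set Edg) σ (T + p))).1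
        omega
      · obtain ⟨p, rfl⟩ : ∃ p, s = T + n + p := ⟨s - (T + n), by omega⟩
        rw [oO]
        have := ((hoB ↑F c a b τ T' hab ho).2.2.2.1 p (by omega)).1.2
        omega
  -- constants
  set K : ℤ := ((32 * M + 5 ^ (B - 1) + 2 ^ B * M' * 16 ^ (B - 1) + 1 : ℕ) : ℤ) with hK
  set κ : ℤ := (((N * a) ^ 2 + N * a + 2 : ℕ) : ℤ) with hκ
  have hκR : κ = R ^ 2 + R + 2 := by rw [hκ, hR]; push_cast; ring
  have hK1 : K = 32 * M + 5 ^ (B - 1) + 2 ^ B * M' * 16 ^ (B - 1) + 1 := by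
    rw [hK]; push_cast; ring
  have p5 : (0 : ℤ) ≤ 5 ^ (B - 1) := by positivity
  have pM : (0 : ℤ) ≤ 2 ^ B * M' * 16 ^ (B - 1) := by positivity
  have pM0 : (0 : ℤ) ≤ 32 * M := by positivity
  have hUp : (0 : ℤ) ≤ U ^ (B - 1) := by positivity
  have hRsq : 0 ≤ R ^ 2 := by positivity
  have quadK : ∀ x x' : ℤ, 0 ≤ x → x' ^ 2 ≤ 32 * M * U * (x + 1) → x' ^ 2 ≤ K * U * (x + κ) := by
    intro x x' hx hx'
    refine hx'.trans ?_
    apply mul_le_mul _ (by omega) (by omega) (by positivity)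
    apply mul_le_mul_of_nonneg_right _ (by omega)
    omega
  have innK : ∀ x x' : ℤ, 0 ≤ x → x ≤ R → 0 ≤ x' → x ^ 2 ≤ K * U * (x' + κ) := by
    intro x x' hx hxR hx'
    have f1 : x ^ 2 ≤ R ^ 2 := pow_le_pow_left₀ hx hxR 2
    have f2 : 1 ≤ K * U := by
      have : 1 ≤ K := by omega
      nlinarith
    have f3 : 1 * (x' + κ) ≤ K * U * (x' + κ) := mul_le_mul_of_nonneg_right f2 (by omega)
    omega
  have sepK : ∀ X d : ℤ, 0 ≤ X → X ≤ 5 * U → 0 ≤ d → X ≤ d + R →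
      X ^ B ≤ K * U ^ (B - 1) * (d + κ) := by
    intro X d hX hXU hd hXd
    refine (sep1 (by omega) hX hXU hXd).trans ?_
    apply mul_le_mul _ (by omega) (by omega) (by positivity)
    apply mul_le_mul_of_nonneg_right _ hUp
    omega
  have hUc : ((L * m : ℕ) : ℤ) = U := hU.symm
  refine ⟨T + n + U2, by omega, ex, s1, T, T + n + U2, hs1T.le, by omega, le_rfl,
    ?_, ?_, ?_, ?_, ?_, ?_⟩
  · show sd (orb (↑F : Set Edg) σ T).1 c ≤ κ
    rw [sd_lv]
    have f2 := vN 0 (by omega)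
    rw [add_zero] at f2
    omega
  · show 3 * ((L * m : ℕ) : ℤ) ≤ sd (orb (↑F : Set Edg) σ s1).1 c
    rw [hUc, sd_lv, basI.2.1]
    omega
  · show 3 * ((L * m : ℕ) : ℤ) ≤ sd (orb (↑F : Set Edg) σ (T + n + U2)).1 c
    rw [hUc, oO, sd_lv, basO.2.2.1]
    omega
  · intro s s' hs hss hs'
    show (sd (orb (↑F : Set Edg) σ s').1 c) ^ 2 ≤
      K * ((L * m : ℕ) : ℤ) * (sd (orb (↑F : Set Edg) σ s).1 c + κ)
    rw [hUc, sd_lv, sd_lv]
    refine quadK _ _ (lv_nonneg _ _) ?_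
    have f1 := li s s' hss hs'
    have f2 := Bas.cor c (orb (↑F : Set Edg) σ s)
    have f3 := Bas.cor c (orb (↑F : Set Edg) σ s')
    exact quad (b := (b : ℤ)) (by positivity) (by positivity) (by omega) (by omega) (lf_pos _ _)
      (lv_nonneg _ _) (by omega) (lf_pos _ _) (lv_nonneg _ _) f1
  · intro s s' hs hss hs'
    show (sd (orb (↑F : Set Edg) σ s).1 c) ^ 2 ≤
      K * ((L * m : ℕ) : ℤ) * (sd (orb (↑F : Set Edg) σ s').1 c + κ)
    rw [hUc]
    rcases Nat.lt_or_ge (T + n) s with h0 | h0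
    · obtain ⟨p, rfl⟩ : ∃ p, s = T + n + p := ⟨s - (T + n), by omega⟩
      obtain ⟨p', rfl⟩ : ∃ p', s' = T + n + p' := ⟨s' - (T + n), by omega⟩
      rw [oO, oO, sd_lv, sd_lv]
      refine quadK _ _ (lv_nonneg _ _) ?_
      have f1 := lo p p' (by omega) (by omega)
      have f2 := Bas.cor c (orb (↑F : Set Edg) τ p)
      have f3 := Bas.cor c (orb (↑F : Set Edg) τ p')
      exact quad (b := (b : ℤ)) (by positivity) (by positivity) (by omega) (by omega) (lf_pos _ _)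
        (lv_nonneg _ _) (by omega) (lf_pos _ _) (lv_nonneg _ _) f1
    · obtain ⟨p, rfl⟩ : ∃ p, s = T + p := ⟨s - T, by omega⟩
      rw [sd_lv]
      exact innK _ _ (lv_nonneg _ _) (vN p (by omega)) (lv_nonneg _ _)
  · intro s s' hs hsj hjs' hs'
    show (max (sd (orb (↑F : Set Edg) σ s).1 c) (sd (orb (↑F : Set Edg) σ s').1 c)) ^ B ≤
      K * ((L * m : ℕ) : ℤ) ^ (B - 1) *
        (sd (orb (↑F : Set Edg) σ s).1 (orb (↑F : Set Edg) σ s').1 + κ)
    rw [hUc, sd_lv, sd_lv]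
    have hd0 := sd_nonneg (orb (↑F : Set Edg) σ s).1 (orb (↑F : Set Edg) σ s').1
    obtain ⟨t1, t2⟩ := tri c (orb (↑F : Set Edg) σ s).1 (orb (↑F : Set Edg) σ s').1
    have x0 := lv_nonneg c (orb (↑F : Set Edg) σ s).1
    have y0 := lv_nonneg c (orb (↑F : Set Edg) σ s').1
    have xU : lv c (orb (↑F : Set Edg) σ s).1 ≤ 4 * U := vA s hs (by omega)
    have yU : lv c (orb (↑F : Set Edg) σ s').1 ≤ 4 * U := vA s' (by omega) hs'
    rcases Nat.lt_or_ge (T + n) s' with h0 | h0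
    · rcases Nat.lt_or_ge s T with h2 | h2
      · -- on the two crossings
        obtain ⟨p', rfl⟩ : ∃ p', s' = T + n + p' := ⟨s' - (T + n), by omega⟩
        rw [oO] at *
        have g1 : ae (orb (↑F : Set Edg) σ s) ∈ Exm (↑F : Set Edg) σ T :=
          mem_Exm.2 ⟨s, h2, rfl⟩
        have g2 : ae (orb (↑F : Set Edg) τ p') ∈ Exm (↑F : Set Edg) τ T' :=
          mem_Exm.2 ⟨p', by omega, rfl⟩
        obtain ⟨-, g3⟩ := sp _ g1 _ g2
        have l1 := lv_ae c (orb (↑F : Set Edg) σ s)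
        have l2 := lv_ae c (orb (↑F : Set Edg) τ p')
        have l3 := lv_ae2 (orb (↑F : Set Edg) σ s) (orb (↑F : Set Edg) τ p')
        have g4 := g3 (Or.inl (by omega))
        have l4 := lv_nonneg c (src (ae (orb (↑F : Set Edg) σ s)))
        refine (sep2 (U := U) (Y := max (lv c (src (ae (orb (↑F : Set Edg) σ s))))
          (lv c (src (ae (orb (↑F : Set Edg) τ p'))))) (le_max_of_le_left (lv_nonneg _ _))
          (le_max_of_le_left (lv_nonneg _ _)) (by omega) (by positivity) (by positivity)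
          (by omega) (by omega) g4 l3 hd0).trans ?_
        apply mul_le_mul _ (by omega) (by omega) (by positivity)
        apply mul_le_mul_of_nonneg_right _ hUp
        omega
      · have f1 := vN 0 (by omega)
        rw [add_zero] at f1
        have f3 : s = T := by omega
        subst f3
        exact sepK _ _ (le_max_of_le_left x0) (by omega) hd0 (by omega)
    · obtain ⟨p', rfl⟩ : ∃ p', s' = T + p' := ⟨s' - T, by omega⟩
      have f1 := vN p' (by omega)
      exact sepK _ _ (le_max_of_le_left x0) (by omega) hd0 (by omega)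

end Pool.Agent.N948.XE.Y4

namespace Pool.Agent.N948.XE

open H974 H906.Cyl H12S Finset H984P H342P H984P.SideAux
open Pool.Agent.N948.IX Y4

/-- **CUT6**: the passage. -/
theorem cut6 (hB : St_basic) (hoB : St_oBasic) (hr : St_restr) (hoR : St_oRestr)
    (hL1 : St_L1) : St_CUT6 := by
  intro M M' B N a L hL ha hB2 hN hM hM'
  refine ⟨(N * a) ^ 2 + N * a + 2, 32 * M + 5 ^ (B - 1) + 2 ^ B * M' * 16 ^ (B - 1) + 1,
    N * a + 64, Nat.le_add_left _ _, ?_⟩
  intro F G c m σ τ T T' hm hG hag hgd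
  have hLm : 2 * m ≤ L * m := Nat.mul_le_mul_right m hL
  have hNa : a ≤ N * a := Nat.le_mul_of_pos_left a (by omega)
  have e16 : 16 * L * m = 16 * (L * m) := by ring
  have e4 : 4 * L * m = 4 * (L * m) := by ring
  have eb : ((16 * L * m - 1 : ℕ) : ℤ) = 16 * ((L * m : ℕ) : ℤ) - 1 := by omega
  have hab : a < 16 * L * m - 1 := by omega
  have hT := (hB _ _ _ _ _ _ hab hG.i).1
  obtain ⟨n, hn, hex, hcut⟩ := Y4.cutw hB hoB hr hoR hL1 (U := ((L * m : ℕ) : ℤ)) rfl (by omega)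
    (by omega) eb hG.i hG.o hag hB2 hN (by omega) (rs := 4 * L * m + 24) (by omega)
    hG.li hG.lo hG.ci hG.co hG.sp hgd
  exact ⟨hT, n, by omega, hex, hcut⟩

end Pool.Agent.N948.XE
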