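import Pool.Agent.N948.XE.Stm
import Pool.Agent.N948.IX.X26

/-!
# Project XE, Y5 (helper820): connection to the lower strip

Adapted from `Pool.Agent.N948.IX.X26` (`right_clu`, helper296).
-/

set_option autoImplicit false

namespace Pool.Agent.N948.XE.Y5

open H974 H906.Cyl H12S Finset H984P H342P H984P.SideAux
open Pool.Agent.N948.IX Pool.Agent.N948.IX.X26
open Pool.Agent.W92.DP (core4 DTB DLR)
open Pool.Agent.W801.DPdet (mem_core4)

/-- the data of the event, in the plane -/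
structure DatP (F G : Finset Edg) (c : Vtx) (U : ℤ) (a b rc t : ℕ) (σ τ : St)
    (T T' : ℕ) : Prop where
  U0 : 64 ≤ U
  a0 : 1 ≤ a
  arc : a < rc
  eb : (b : ℤ) = 16 * U - 1
  erc : (rc : ℤ) = 4 * U + 20
  et : (t : ℤ) ≤ U + 4
  c1 : -(10 * U) ≤ c.1
  c1' : c.1 ≤ -(8 * U)
  c2 : 17 * U ≤ c.2
  c2' : c.2 ≤ 19 * U
  i : InLeg ↑F c a b σ T
  o : OutLeg ↑F c a b τ T'
  dis : Disjoint (Exm ↑F σ T) (Exm ↑F τ T')
  si : CfSW c rc t (Exm ↑F σ T)
  so : CfNE c rc t (Exm ↑F τ T')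
  ag : ∀ e, e ∉ Exm (↑F : Set Edg) σ T → e ∉ Exm (↑F : Set Edg) τ T' → (e ∈ F ↔ e ∈ G)

variable {F G : Finset Edg} {c : Vtx} {U : ℤ} {a b rc t : ℕ} {σ τ : St} {T T' : ℕ}

theorem DatP.ab (h : DatP F G c U a b rc t σ τ T T') : a < b := by
  have h1 := h.eb
  have h2 := h.erc
  have h3 := h.arc
  have h4 := h.U0
  omega

theorem DatP.trc (h : DatP F G c U a b rc t σ τ T T') : 2 * t ≤ rc := by
  have h2 := h.erc
  have h3 := h.et
  have h4 := h.U0
  omega

theorem DatP.rcb (h : DatP F G c U a b rc t σ τ T T') : rc + 10 < b := by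
  have h1 := h.eb
  have h2 := h.erc
  have h4 := h.U0
  omega

theorem DatP.nτ (h : DatP F G c U a b rc t σ τ T T') {e : Edg} (h1 : (rc : ℤ) ≤ lv c (src e))
    (h2 : (src e).1 < c.1 - t ∨ (src e).2 < c.2 - t) : e ∉ Exm (↑F : Set Edg) τ T' := by
  intro he
  obtain ⟨h3, h4⟩ := h.so e he h1
  omega

theorem DatP.nσ (h : DatP F G c U a b rc t σ τ T T') {e : Edg} (h1 : (rc : ℤ) ≤ lv c (src e))
    (h2 : c.1 + t < (src e).1 ∨ c.2 + t < (src e).2) : e ∉ Exm (↑F : Set Edg) σ T := by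
  intro he
  obtain ⟨h3, h4⟩ := h.si e he h1
  omega

theorem DatP.agR (h : DatP F G c U a b rc t σ τ T T') {e : Edg} (h1 : e ∈ RegO c rc t b)
    (h2 : e ∉ Exm (↑F : Set Edg) σ T) : (e ∈ (↑F : Set Edg) ↔ e ∈ (↑G : Set Edg)) := by
  obtain ⟨h3, h4, h5⟩ := h1
  refine h.ag e h2 (h.nτ (by omega) ?_)
  by_contra h6
  exact h5 (by omega)

/-- edges near `c` are edges of the big box -/
theorem near_box (h : DatP F G c U a b rc t σ τ T T') {e : Edg} (h1 : lv c (src e) ≤ b) :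
    e ∈ RE (-(144 * U)) (144 * U) (-(28 * U)) (68 * U) := by
  have e0 := h.eb
  have e4 := h.c1
  have e5 := h.c1'
  have e6 := h.c2
  have e7 := h.c2'
  have e8 := h.U0
  rw [lv_le] at h1
  obtain ⟨x, y, _ | _⟩ := e
  · rw [mem_RE_false]
    simp only [src_mk] at h1
    omega
  · rw [mem_RE_true]
    simp only [src_mk] at h1
    omega

theorem main (hB : St_basic) (hHo : St_HITo) (h : DatP F G c U a b rc t σ τ T T')
    (hR1 : LRc (c.1 - 14 * U) (c.1 + 6 * U) (c.2 - 14 * U) (c.2 - 12 * U) G)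
    (hR2 : TBc (c.1 - 14 * U) (c.1 - 12 * U) (c.2 - 14 * U) (c.2 + 4 * U) G)
    (hR3 : TBc (c.1 + 2 * U) (c.1 + 6 * U) (-(28 * U)) (c.2 - 12 * U) G)
    (p q : Vtx) (hp1 : p.1 ≤ -(27 * U)) (hq1 : 27 * U ≤ q.1)
    (hpq1 : Reach (↑F ∩ ↑(RE (-(144 * U)) (144 * U) (-(28 * U)) (-(4 * U))) : Set Edg) p q) :
    ∀ s, 0 < s → s < T → Reach (↑F ∩ ↑(RE (-(144 * U)) (144 * U) (-(28 * U)) (68 * U)) : Set Edg)
      p (orb (↑F : Set Edg) σ s).1 := by
  obtain ⟨y1, y1', hy1, hy1', k1⟩ := hR1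
  obtain ⟨x2, x2', hx2, hx2', k2⟩ := hR2
  obtain ⟨x3, x3', hx3, hx3', k3⟩ := hR3
  have e0 := h.eb
  have e0' := h.erc
  have e0'' := h.et
  have e4 := h.c1
  have e5 := h.c1'
  have e6 := h.c2
  have e7 := h.c2'
  have e8 := h.U0
  -- the third crossing is open in `F`
  have sub3 : ((↑G : Set Edg) ∩ ↑(TBE (c.1 + 2 * U) (c.1 + 6 * U) (-(28 * U)) (c.2 - 12 * U))) ⊆
      ((↑F : Set Edg) ∩ ↑(RE (c.1 + 2 * U) (c.1 + 6 * U) (-(28 * U)) (c.2 - 12 * U))) := by
    rintro e ⟨hG, hE⟩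
    have hpos : c.1 + 2 * U ≤ (src e).1 ∧ (src e).2 ≤ c.2 - 12 * U := by
      obtain ⟨x, y, _ | _⟩ := e
      · rw [Finset.mem_coe, mem_TBE_false] at hE
        simp only [src_mk]
        omega
      · rw [Finset.mem_coe, mem_TBE_true] at hE
        simp only [src_mk]
        omega
    have hlv : (rc : ℤ) ≤ lv c (src e) := by
      rw [le_lv]
      omega
    exact ⟨(h.ag e (h.nσ hlv (by omega)) (h.nτ hlv (by omega))).2 (Finset.mem_coe.1 hG),
      Finset.mem_coe.2 (TBE_subset_RE (Finset.mem_coe.1 hE))⟩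
  have k3F := k3.mono sub3
  -- the crossing of the strip meets the corridor
  have mp := cross_meet (F := (↑F : Set Edg)) (A := -(144 * U)) (B := 144 * U) (C := -(28 * U))
    (D := c.2 - 12 * U) (a := c.1 + 2 * U) (b := c.1 + 6 * U) (c := -(28 * U)) (d := -(4 * U))
    (by omega) (by omega) (by omega) (by omega) (by omega) (by omega) hpq1 (by omega) (by omega)
    k3F (by simp only; omega) (by simp only; omega)
  have big1 : ((↑F : Set Edg) ∩ ↑(RE (-(144 * U)) (144 * U) (-(28 * U)) (c.2 - 12 * U))) ⊆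
      ((↑F : Set Edg) ∩ ↑(RE (-(144 * U)) (144 * U) (-(28 * U)) (68 * U))) := by
    refine Set.inter_subset_inter_right _ (Finset.coe_subset.2 ?_)
    exact RE_subset (by omega) (by omega) (by omega) (by omega)
  have big2 : ((↑F : Set Edg) ∩ ↑(RE (c.1 + 2 * U) (c.1 + 6 * U) (-(28 * U)) (c.2 - 12 * U))) ⊆
      ((↑F : Set Edg) ∩ ↑(RE (-(144 * U)) (144 * U) (-(28 * U)) (68 * U))) := by
    refine Set.inter_subset_inter_right _ (Finset.coe_subset.2 ?_)
    exact RE_subset (by omega) (by omega) (by omega) (by omega)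
  have pclu : Reach ((↑F : Set Edg) ∩ ↑(RE (-(144 * U)) (144 * U) (-(28 * U)) (68 * U))) p
      (x3', c.2 - 12 * U) := (mp.mono big1).trans (k3F.mono big2)
  -- the path in the ring
  obtain ⟨w, hw, kw⟩ := pfirst (h := c.2 - 14 * U) (u := (x3', c.2 - 12 * U))
    (v := (x3, -(28 * U))) (by simp only; omega) (by simp only; omega) k3.symm
  have A3 : Reach (((↑G : Set Edg) ∩ RegO c rc t b) ∩
      ↑(RE (c.1 + 2 * U) (c.1 + 6 * U) (c.2 - 14 * U) (c.2 - 12 * U))) (x3', c.2 - 12 * U) w := by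
    refine kw.mono ?_
    rintro e ⟨⟨hG, hE⟩, he1, he2⟩
    obtain ⟨x, y, _ | _⟩ := e
    · rw [Finset.mem_coe, mem_TBE_false] at hE
      simp only [src_mk, tgt_false] at he1 he2
      refine ⟨⟨hG, ?_, ?_, ?_⟩, ?_⟩
      · rw [← not_le, lv_le]; simp only [src_mk]; omega
      · have : lv c (src (x, y, false)) ≤ 14 * U := by rw [lv_le]; simp only [src_mk]; omega
        omega
      · simp only [src_mk]; omega
      · rw [Finset.mem_coe, mem_RE_false]; omega
    · rw [Finset.mem_coe, mem_TBE_true] at hE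
      simp only [src_mk, tgt_true] at he1 he2
      refine ⟨⟨hG, ?_, ?_, ?_⟩, ?_⟩
      · rw [← not_le, lv_le]; simp only [src_mk]; omega
      · have : lv c (src (x, y, true)) ≤ 14 * U := by rw [lv_le]; simp only [src_mk]; omega
        omega
      · simp only [src_mk]; omega
      · rw [Finset.mem_coe, mem_RE_true]; omega
  have A1 : Reach (((↑G : Set Edg) ∩ RegO c rc t b) ∩
      ↑(RE (c.1 - 14 * U) (c.1 + 6 * U) (c.2 - 14 * U) (c.2 - 12 * U)))
      (c.1 - 14 * U, y1) (c.1 + 6 * U, y1') := by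
    refine k1.mono ?_
    rintro e ⟨hG, hE⟩
    have hE' := LRE_subset_RE (Finset.mem_coe.1 hE)
    obtain ⟨x, y, _ | _⟩ := e
    · rw [mem_RE_false] at hE'
      refine ⟨⟨hG, ?_, ?_, ?_⟩, ?_⟩
      · rw [← not_le, lv_le]; simp only [src_mk]; omega
      · have : lv c (src (x, y, false)) ≤ 14 * U := by rw [lv_le]; simp only [src_mk]; omega
        omega
      · simp only [src_mk]; omega
      · rw [Finset.mem_coe, mem_RE_false]; omega
    · rw [mem_RE_true] at hE'
      refine ⟨⟨hG, ?_, ?_, ?_⟩, ?_⟩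
      · rw [← not_le, lv_le]; simp only [src_mk]; omega
      · have : lv c (src (x, y, true)) ≤ 14 * U := by rw [lv_le]; simp only [src_mk]; omega
        omega
      · simp only [src_mk]; omega
      · rw [Finset.mem_coe, mem_RE_true]; omega
  have A2 : Reach (((↑G : Set Edg) ∩ RegO c rc t b) ∩
      ↑(RE (c.1 - 14 * U) (c.1 - 12 * U) (c.2 - 14 * U) (c.2 + 4 * U)))
      (x2, c.2 - 14 * U) (x2', c.2 + 4 * U) := by
    refine k2.mono ?_
    rintro e ⟨hG, hE⟩
    have hE' := TBE_subset_RE (Finset.mem_coe.1 hE)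
    obtain ⟨x, y, _ | _⟩ := e
    · rw [mem_RE_false] at hE'
      refine ⟨⟨hG, ?_, ?_, ?_⟩, ?_⟩
      · rw [← not_le, lv_le]; simp only [src_mk]; omega
      · have : lv c (src (x, y, false)) ≤ 14 * U := by rw [lv_le]; simp only [src_mk]; omega
        omega
      · simp only [src_mk]; omega
      · rw [Finset.mem_coe, mem_RE_false]; omega
    · rw [mem_RE_true] at hE'
      refine ⟨⟨hG, ?_, ?_, ?_⟩, ?_⟩
      · rw [← not_le, lv_le]; simp only [src_mk]; omega
      · have : lv c (src (x, y, true)) ≤ 14 * U := by rw [lv_le]; simp only [src_mk]; omega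
        omega
      · simp only [src_mk]; omega
      · rw [Finset.mem_coe, mem_RE_true]; omega
  have m1 := cross_meet (F := ((↑G : Set Edg) ∩ RegO c rc t b)) (A := c.1 - 14 * U)
    (B := c.1 + 6 * U) (C := c.2 - 14 * U) (D := c.2 - 12 * U) (a := c.1 + 2 * U)
    (b := c.1 + 6 * U) (c := c.2 - 14 * U) (d := c.2 - 12 * U) (by omega) (by omega) (by omega)
    (by omega) (by omega) (by omega) A1 (by simp only; omega) (by simp only; omega)
    (A3.symm) (by omega) (by simp only; omega)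
  have m2 := cross_meet (F := ((↑G : Set Edg) ∩ RegO c rc t b)) (A := c.1 - 14 * U)
    (B := c.1 + 6 * U) (C := c.2 - 14 * U) (D := c.2 + 4 * U) (a := c.1 - 14 * U)
    (b := c.1 - 12 * U) (c := c.2 - 14 * U) (d := c.2 - 12 * U) (by omega) (by omega) (by omega)
    (by omega) (by omega) (by omega) A1 (by simp only; omega) (by simp only; omega)
    A2 (by simp only; omega) (by simp only; omega)
  have hpq : Reach ((↑G : Set Edg) ∩ RegO c rc t b) (x3', c.2 - 12 * U) (x2', c.2 + 4 * U) :=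
    (((A3.mono Set.inter_subset_left).trans (m1.symm.mono Set.inter_subset_left)).trans
      (m2.mono Set.inter_subset_left)).trans (A2.mono Set.inter_subset_left)
  have hp : InSE c rc t b (x3', c.2 - 12 * U) := by
    refine ⟨by simp only; omega, by simp only; omega, ?_, ?_⟩
    · rw [← not_le, lv_le]; simp only; omega
    · have : lv c (x3', c.2 - 12 * U) ≤ 14 * U := by rw [lv_le]; simp only; omega
      omega
  have hq : InNW c rc t b (x2', c.2 + 4 * U) := by
    refine ⟨by simp only; omega, by simp only; omega, ?_, ?_⟩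
    · rw [← not_le, lv_le]; simp only; omega
    · have : lv c (x2', c.2 + 4 * U) ≤ 14 * U := by rw [lv_le]; simp only; omega
      omega
  obtain ⟨s, hs0, hsT, hs⟩ := hHo ↑F ↑G c _ _ a b rc t σ τ T T' h.a0 h.arc h.trc h.rcb h.i h.o
    h.dis h.si h.so hp hq (fun e he he' => h.agR he he') hpq
  have hs' : Reach ((↑F : Set Edg) ∩ ↑(RE (-(144 * U)) (144 * U) (-(28 * U)) (68 * U))) p
      (orb (↑F : Set Edg) σ s).1 := by
    refine pclu.trans (hs.mono ?_)
    rintro e ⟨⟨he1, he2⟩, -⟩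
    refine ⟨he1, Finset.mem_coe.2 (near_box h ?_)⟩
    have := he2.2.1
    omega
  have hreach := (hB ↑F c a b σ T h.ab h.i).2.2.2.2.1
  intro s' _ hs'T
  have r1 := hreach s hsT.le
  have r2 := hreach s' hs'T.le
  have r3 : Reach ((↑F : Set Edg) ∩ ↑(RE (-(144 * U)) (144 * U) (-(28 * U)) (68 * U)))
      (orb (↑F : Set Edg) σ s).1 (orb (↑F : Set Edg) σ s').1 := by
    refine (r1.symm.trans r2).mono ?_
    rintro e ⟨he1, he2⟩
    exact ⟨he1, Finset.mem_coe.2 (near_box h he2.1.2)⟩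
  exact Reach.trans hs' r3

end Pool.Agent.N948.XE.Y5

namespace Pool.Agent.N948.XE

open H974 H906.Cyl H12S Finset H984P H342P H984P.SideAux
open Pool.Agent.N948.IX Pool.Agent.N948.IX.X26

/-- CONO: the right vertices of the inward crossing are joined to the lower strip. -/
theorem cono6 (hB : St_basic) (_hoB : St_oBasic) (hHo : St_HITo) : St_CONO6 := by
  intro M M' B N a L hL ha
  refine ⟨a + 64, ?_⟩
  intro F G c m σ τ T T' hm hc hG hag hcor p q hp hq hpq
  obtain ⟨⟨hR1, hR2, hR3⟩, -⟩ := hcor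
  rw [Pool.Agent.W801.DPdet.mem_core4] at hc
  have hLm : 2 * m ≤ L * m := Nat.mul_le_mul_right m hL
  have e16 : 16 * L * m = 16 * (L * m) := by ring
  have e4 : 4 * L * m = 4 * (L * m) := by ring
  have eb : ((16 * L * m - 1 : ℕ) : ℤ) = 16 * ((L * m : ℕ) : ℤ) - 1 := by omega
  have erc : ((4 * L * m + 20 : ℕ) : ℤ) = 4 * ((L * m : ℕ) : ℤ) + 20 := by omega
  have hdis : Disjoint (Exm (↑F : Set Edg) σ T) (Exm (↑F : Set Edg) τ T') := by
    rw [Finset.disjoint_left]
    intro e h1 h2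
    have h3 := (hG.sp e h1 e h2).1
    unfold lv at h3
    simp at h3
  have hdat : Y5.DatP F G c ((L * m : ℕ) : ℤ) a (16 * L * m - 1) (4 * L * m + 20) (2 * m + 4) σ τ
      T T' :=
    ⟨by omega, by omega, by omega, eb, erc, by omega, hc.1.1, hc.1.2,
      hc.2.1, hc.2.2, hG.i, hG.o, hdis, hG.si, hG.so, hag⟩
  exact Y5.main hB hHo hdat hR1 hR2 hR3 p q hp hq hpq

end Pool.Agent.N948.XE
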