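import Pool.Agent.N948.XE.Stm
import Pool.Agent.N948.IX.X26

/-!
# Project XE, task Y6 (helper568): connection of the left faces to the upper strip
-/

set_option autoImplicit false

namespace Pool.Agent.N948.XE.Y6

open H974 H906.Cyl H12S Finset H984P H342P H984P.SideAux
open Pool.Agent.W92.DP (core4 DTB DLR)
open Pool.Agent.W801.DPdet (dcross_meet dl_RE dl_LRE dl_TBE)
open Pool.Agent.N948.IX
open Pool.Agent.N948.IX.X26 (dfirst dsplit dinv lv_le le_lv)

/-- the data of the event -/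
structure Dat6 (F G : Finset Edg) (c : Vtx) (U : ℤ) (a b rc t : ℕ) (σ τ : St)
    (T T' : ℕ) : Prop where
  U0 : 64 ≤ U
  a0 : 1 ≤ a
  arc : a < rc
  eb : (b : ℤ) = 16 * U - 1
  erc : (rc : ℤ) = 4 * U + 20
  et : (t : ℤ) ≤ U + 4
  c1 : -(10 * U) ≤ c.1
  c1' : c.1 ≤ -(8 * U)
  c2 : 17 * U ≤ c.2
  c2' : c.2 ≤ 19 * U
  i : InLeg ↑F c a b σ T
  o : OutLeg ↑F c a b τ T'
  dis : Disjoint (Exm ↑F σ T) (Exm ↑F τ T')
  si : CfSW c rc t (Exm ↑F σ T)
  so : CfNE c rc t (Exm ↑F τ T')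
  ag : ∀ e, e ∉ Exm (↑F : Set Edg) σ T → e ∉ Exm (↑F : Set Edg) τ T' → (e ∈ F ↔ e ∈ G)

variable {F G : Finset Edg} {c : Vtx} {U : ℤ} {a b rc t : ℕ} {σ τ : St} {T T' : ℕ}

theorem Dat6.ab (h : Dat6 F G c U a b rc t σ τ T T') : a < b := by
  have h1 := h.eb
  have h2 := h.erc
  have h3 := h.arc
  have h4 := h.U0
  omega

theorem Dat6.trc (h : Dat6 F G c U a b rc t σ τ T T') : 2 * t ≤ rc := by
  have h2 := h.erc
  have h3 := h.et
  have h4 := h.U0
  omega

theorem Dat6.rcb (h : Dat6 F G c U a b rc t σ τ T T') : rc + 10 < b := by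
  have h1 := h.eb
  have h2 := h.erc
  have h4 := h.U0
  omega

/-- an edge below or to the left of the upper right quadrant is not examined by `τ` -/
theorem Dat6.nτ (h : Dat6 F G c U a b rc t σ τ T T') {e : Edg} (h1 : (rc : ℤ) ≤ lv c (src e))
    (h2 : (src e).1 < c.1 - t ∨ (src e).2 < c.2 - t) : e ∉ Exm (↑F : Set Edg) τ T' := by
  intro he
  obtain ⟨h3, h4⟩ := h.so e he h1
  omega

theorem Dat6.agR (h : Dat6 F G c U a b rc t σ τ T T') {e : Edg} (h1 : e ∈ RegO c rc t b)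
    (h2 : e ∉ Exm (↑F : Set Edg) σ T) : (e ∈ (↑F : Set Edg) ↔ e ∈ (↑G : Set Edg)) := by
  obtain ⟨h3, h4, h5⟩ := h1
  refine h.ag e h2 (h.nτ (by omega) ?_)
  by_contra h6
  exact h5 (by omega)

/-- the closed edges of the square are in the box -/
theorem Dat6.dsub (h : Dat6 F G c U a b rc t σ τ T T') {S : Set Edg}
    (h1 : ∀ e ∈ S, lv c (src e) ≤ 16 * U - 1 ∧ e ∉ F) :
    S ⊆ (↑(RE (-(27 * U)) (27 * U) (-(28 * U)) (68 * U)) \ ↑F : Set Edg) := by
  intro e he
  obtain ⟨h2, h3⟩ := h1 e he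
  refine ⟨?_, fun h4 => h3 (Finset.mem_coe.1 h4)⟩
  have e4 := h.c1
  have e5 := h.c1'
  have e6 := h.c2
  have e7 := h.c2'
  have e8 := h.U0
  rw [lv_le] at h2
  rw [Finset.mem_coe]
  obtain ⟨x, y, _ | _⟩ := e
  · rw [mem_RE_false]
    simp only [src_mk] at h2
    omega
  · rw [mem_RE_true]
    simp only [src_mk] at h2
    omega

theorem left6 (hB : St_basic) (hHd : St_HITd) (hHf : St_HITf)
    (h : Dat6 F G c U a b rc t σ τ T T')
    (hD1 : DLR (c.1 - 10 * U) (c.1 + 6 * U) (c.2 - 10 * U) (c.2 - 8 * U) G)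
    (hD2 : DTB (c.1 - 10 * U) (c.1 - 8 * U) (c.2 - 10 * U) (68 * U) G) {p q : Vtx} {D : Set Edg}
    (hp : p.1 ≤ -(27 * U)) (hq : 27 * U ≤ q.1)
    (hD : ∀ e ∈ D, dl e ∈ RE (-(144 * U)) (144 * U) (44 * U) (68 * U)) (hpq : DReach D p q) :
    ∀ s, 0 < s → s < T →
      DReach (D ∪ (↑(RE (-(27 * U)) (27 * U) (-(28 * U)) (68 * U)) \ ↑F) : Set Edg) p
        (face (orb (↑F : Set Edg) σ s)) := by
  obtain ⟨y1, y1', hy1, hy1', k1⟩ := hD1
  obtain ⟨x2, x2', hx2, hx2', k2⟩ := hD2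
  have e0 := h.eb
  have e0' := h.erc
  have e0'' := h.et
  have e4 := h.c1
  have e5 := h.c1'
  have e6 := h.c2
  have e7 := h.c2'
  have e8 := h.U0
  set W : Set Edg := (D ∪ (↑(RE (-(27 * U)) (27 * U) (-(28 * U)) (68 * U)) \ ↑F) : Set Edg)
    with hW
  have subW : (↑(RE (-(27 * U)) (27 * U) (-(28 * U)) (68 * U)) \ ↑F : Set Edg) ⊆ W :=
    Set.subset_union_right
  set S2 : Set Edg := (↑(LRE (c.1 - 10 * U) (c.1 - 8 * U) (c.2 - 10 * U) (68 * U) \ G) : Set Edg)
    with hS2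
  set E1 : Finset Edg := Exm (↑F : Set Edg) σ T with hE1
  -- the edges of the second dual crossing
  have pos2 : ∀ e ∈ S2, ((c.1 - 10 * U ≤ (src e).1 ∧ (src e).1 < c.1 - 8 * U) ∧
      (c.2 - 10 * U ≤ (src e).2 ∧ (src e).2 ≤ 68 * U)) ∧ e ∉ G := by
    rintro e he
    rw [hS2, Finset.mem_coe, Finset.mem_sdiff] at he
    obtain ⟨x, y, _ | _⟩ := e
    · rw [mem_LRE_false] at he
      simp only [src_mk]
      exact ⟨by omega, he.2⟩
    · rw [mem_LRE_true] at he
      simp only [src_mk]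
      exact ⟨by omega, he.2⟩
  have fac2 : ∀ e ∈ S2, (c.1 - 10 * U ≤ (dsrc e).1 ∧ (dsrc e).1 ≤ c.1 - 8 * U - 1) ∧
      (c.1 - 10 * U ≤ (dtgt e).1 ∧ (dtgt e).1 ≤ c.1 - 8 * U - 1) := by
    rintro e he
    rw [hS2, Finset.mem_coe, Finset.mem_sdiff] at he
    obtain ⟨x, y, _ | _⟩ := e
    · rw [mem_LRE_false] at he
      simp only [dsrc_false, dtgt_mk]
      omega
    · rw [mem_LRE_true] at he
      simp only [dsrc_true, dtgt_mk]
      omega
  have dl2 : ∀ e ∈ S2, dl e ∈ RE (c.1 - 10 * U) (c.1 - 8 * U - 1) (c.2 - 10 * U - 1) (68 * U) := by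
    rintro e he
    rw [hS2, Finset.mem_coe, Finset.mem_sdiff] at he
    exact dl_LRE he.1
  have lv2 : ∀ e ∈ S2, (rc : ℤ) + 2 < lv c (src e) := by
    intro e he
    obtain ⟨h1, -⟩ := pos2 e he
    rw [← not_le, lv_le]
    omega
  have nF2 : ∀ e ∈ S2 \ ↑E1, e ∉ F := by
    rintro e ⟨he, he'⟩
    have h1 := lv2 e he
    obtain ⟨h2, h3⟩ := pos2 e he
    have h4 := h.ag e (fun h5 => he' (Finset.mem_coe.2 h5)) (h.nτ (by omega) (by omega))
    exact fun h5 => h3 (h4.1 h5)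
  have sub2 : S2 \ ↑E1 ⊆ W := by
    intro e he
    refine subW ⟨?_, fun h2 => nF2 e he (Finset.mem_coe.1 h2)⟩
    have h3 := he.1
    rw [hS2, Finset.mem_coe, Finset.mem_sdiff] at h3
    have h4 := LRE_subset_RE h3.1
    rw [Finset.mem_coe]
    obtain ⟨x, y, _ | _⟩ := e
    · rw [mem_RE_false] at h4 ⊢
      omega
    · rw [mem_RE_true] at h4 ⊢
      omega
  have reg2 : ∀ e ∈ S2, (dtgt e).2 ≤ c.2 + 3 * U → e ∈ RegO c rc t b := by
    intro e he h1
    obtain ⟨h2, -⟩ := pos2 e he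
    have h3 : (dtgt e).2 = (src e).2 := rfl
    refine ⟨lv2 e he, ?_, by omega⟩
    have : lv c (src e) ≤ 10 * U := by rw [lv_le]; omega
    omega
  have join : ∀ g : Vtx, g.2 ≤ 44 * U → DReach (S2 \ ↑E1) (x2', 68 * U) g → DReach W p g := by
    intro g hg hr
    exact dcross_meet (G := W) (A := -(144 * U)) (B := 144 * U) (C := c.2 - 10 * U - 1)
      (D := 68 * U) (a := c.1 - 10 * U) (b := c.1 - 8 * U - 1) (c := 44 * U) (d := 68 * U)
      (by omega) (by omega) (by omega) (by omega) (by omega) (by omega) hpq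
      Set.subset_union_left hD (by omega) (by omega) hr.symm sub2 (fun e he => dl2 e he.1) hg
      (by simp only; omega)
  -- all the left faces are in one dual cluster
  have hface := (hB ↑F c a b σ T h.ab h.i).2.2.2.2.2.1
  have subG : ((↑F : Set Edg)ᶜ ∩ Gd c a b) ⊆ W := by
    refine (h.dsub ?_).trans subW
    rintro e ⟨h1, h2⟩
    refine ⟨?_, fun h3 => h1 (Finset.mem_coe.2 h3)⟩
    obtain ⟨-, -, h4⟩ := h2
    rw [Bas.inner_iff] at h4
    have h5 : dtgt e = src e := rfl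
    rw [h5] at h4
    rw [lv_le]
    omega
  suffices hone : ∃ s, 0 < s ∧ s < T ∧ DReach W p (face (orb (↑F : Set Edg) σ s)) by
    obtain ⟨s0, h1, h2, h3⟩ := hone
    intro s hs0 hsT
    have r1 := hface s0 h1 h2
    have r2 := hface s hs0 hsT
    exact h3.trans ((r1.symm.trans r2).mono subG)
  have subR : (((↑F : Set Edg)ᶜ ∩ RegO c rc t b) \ ↑E1) ⊆ W := by
    refine (h.dsub ?_).trans subW
    rintro e ⟨⟨h1, h2⟩, -⟩
    refine ⟨?_, fun h3 => h1 (Finset.mem_coe.2 h3)⟩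
    have := h2.2.1
    omega
  have bot : (c.1 - 10 * U ≤ x2 ∧ x2 ≤ c.1 - 8 * U - 1) := by omega
  rcases dsplit (E := E1) k2.symm with hA | ⟨f1, hf1, e1', he1S, he1E, he1f⟩
  · -- the whole second crossing is unexamined
    obtain ⟨q0, hq0, kq⟩ := dfirst (h := c.2 + 3 * U) (f := (x2, c.2 - 10 * U - 1))
      (g := (x2', 68 * U)) (by simp only; omega) (by simp only; omega) hA.symm
    have hq0x : c.1 - 10 * U ≤ q0.1 ∧ q0.1 ≤ c.1 - 8 * U - 1 :=
      dinv (S := S2) (P := fun f => c.1 - 10 * U ≤ f.1 ∧ f.1 ≤ c.1 - 8 * U - 1) fac2 bot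
        (kq.mono (fun e he => he.1.1))
    have reg1 : (↑(TBE (c.1 - 10 * U) (c.1 + 6 * U) (c.2 - 10 * U) (c.2 - 8 * U) \ G) : Set Edg) ⊆
        ((↑G : Set Edg)ᶜ ∩ RegO c rc t b) := by
      intro e he
      rw [Finset.mem_coe, Finset.mem_sdiff] at he
      have h2 : (c.1 - 10 * U ≤ (src e).1 ∧ (src e).1 ≤ c.1 + 6 * U) ∧
          (c.2 - 10 * U ≤ (src e).2 ∧ (src e).2 < c.2 - 8 * U) := by
        obtain ⟨x, y, _ | _⟩ := e
        · have := he.1
          rw [mem_TBE_false] at this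
          simp only [src_mk]
          omega
        · have := he.1
          rw [mem_TBE_true] at this
          simp only [src_mk]
          omega
      refine ⟨fun h3 => he.2 (Finset.mem_coe.1 h3), ?_, ?_, by omega⟩
      · rw [← not_le, lv_le]; omega
      · have : lv c (src e) ≤ 10 * U := by rw [lv_le]; omega
        omega
    have m := dcross_meet (G := ((↑G : Set Edg)ᶜ ∩ RegO c rc t b)) (A := c.1 - 10 * U - 1)
      (B := c.1 + 6 * U) (C := c.2 - 10 * U - 1) (D := 68 * U) (a := c.1 - 10 * U)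
      (b := c.1 - 8 * U - 1) (c := c.2 - 10 * U) (d := c.2 - 8 * U - 1) (by omega) (by omega)
      (by omega) (by omega) (by omega) (by omega) k1 reg1
      (fun e he => by
        rw [Finset.mem_coe, Finset.mem_sdiff] at he
        exact dl_TBE he.1) (by simp only; omega) (by simp only; omega) kq
      (fun e he => ⟨fun h3 => (pos2 e he.1.1).2 (Finset.mem_coe.1 h3), reg2 e he.1.1 he.2.2⟩)
      (fun e he => dl2 e he.1.1) (by simp only; omega) (by omega)
    have hqp : DReach ((↑G : Set Edg)ᶜ ∩ RegO c rc t b) q0 (c.1 + 6 * U, y1') := by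
      have n1 : DReach ((↑G : Set Edg)ᶜ ∩ RegO c rc t b) (x2, c.2 - 10 * U - 1) q0 := by
        refine kq.mono ?_
        intro e he
        exact ⟨fun h3 => (pos2 e he.1.1).2 (Finset.mem_coe.1 h3), reg2 e he.1.1 he.2.2⟩
      exact (n1.symm.trans m.symm).trans (k1.mono reg1)
    have hp' : InSE c rc t b (c.1 + 6 * U, y1') := by
      refine ⟨by simp only; omega, by simp only; omega, ?_, ?_⟩
      · rw [← not_le, lv_le]; simp only; omega
      · have : lv c (c.1 + 6 * U, y1') ≤ 10 * U := by rw [lv_le]; simp only; omega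
        omega
    have hq' : InNW c rc t b q0 := by
      refine ⟨by omega, by omega, ?_, ?_⟩
      · rw [← not_le, lv_le]; omega
      · have : lv c q0 ≤ 10 * U := by rw [lv_le]; omega
        omega
    obtain ⟨s, hs0, hsT, hs⟩ := hHd ↑F ↑G c _ _ a b rc t σ τ T T' h.a0 h.arc h.trc h.rcb h.i h.o
      h.dis h.si h.so hp' hq' (fun e he he' => h.agR he he') hqp
    refine ⟨s, hs0, hsT, ?_⟩
    have g0 := join _ (by simp only; omega) hA
    exact (g0.trans (kq.mono (fun e he => sub2 he.1))).trans (hs.mono subR)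
  · have hf1x : c.1 - 10 * U ≤ f1.1 ∧ f1.1 ≤ c.1 - 8 * U - 1 := by
      rcases he1f with h1 | h1
      · rw [← h1]; exact (fac2 _ he1S).1
      · rw [← h1]; exact (fac2 _ he1S).2
    have hf1y : f1.2 ≤ c.2 + t := by
      have h1 := (h.si _ he1E (by have := lv2 _ he1S; omega)).2
      rcases he1f with h2 | h2
      · rw [← h2]
        obtain ⟨x, y, _ | _⟩ := e1'
        · simp only [dsrc_false, src_mk] at h1 ⊢
          exact h1
        · simp only [dsrc_true, src_mk] at h1 ⊢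
          omega
      · rw [← h2]
        exact h1
    have hreg : e1' ∈ RegO c rc t b := by
      refine reg2 _ he1S ?_
      have h1 := (h.si _ he1E (by have := lv2 _ he1S; omega)).2
      have h2 : (dtgt e1').2 = (src e1').2 := rfl
      omega
    obtain ⟨q1, hq1, kq⟩ := dfirst (h := c.2 + 3 * U) (f := f1)
      (g := (x2', 68 * U)) (by omega) (by simp only; omega) hf1.symm
    have hq1x : c.1 - 10 * U ≤ q1.1 ∧ q1.1 ≤ c.1 - 8 * U - 1 :=
      dinv (S := S2) (P := fun f => c.1 - 10 * U ≤ f.1 ∧ f.1 ≤ c.1 - 8 * U - 1) fac2 hf1x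
        (kq.mono (fun e he => he.1.1))
    have hq' : InNW c rc t b q1 := by
      refine ⟨by omega, by omega, ?_, ?_⟩
      · rw [← not_le, lv_le]; omega
      · have : lv c q1 ≤ 10 * U := by rw [lv_le]; omega
        omega
    have hqf : DReach (((↑F : Set Edg)ᶜ ∩ RegO c rc t b) \ ↑E1) q1 f1 := by
      refine kq.symm.mono ?_
      intro e he
      exact ⟨⟨fun h3 => nF2 e he.1 (Finset.mem_coe.1 h3), reg2 e he.1.1 he.2.2⟩, he.1.2⟩
    obtain ⟨s, hs0, hsT, hs⟩ := hHf ↑F c q1 f1 a b rc t σ τ T T' h.a0 h.arc h.trc h.rcb h.i h.o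
      h.dis h.si h.so hq' hqf _ he1E hreg he1f
    refine ⟨s, hs0, hsT, ?_⟩
    rw [hs]
    exact join f1 (by omega) hf1

end Pool.Agent.N948.XE.Y6

namespace Pool.Agent.N948.XE

open H974 H906.Cyl H12S Finset H389NS H984P H984N H342P H984P.SideAux
open Pool.Agent.W92.DP Pool.Agent.W822.PD Pool.Agent.N948.IX

/-- COND: the left faces of the inward crossing are joined to the upper strip. -/
theorem cond6 (hB : St_basic) (hoB : St_oBasic) (hHd : St_HITd) (hHf : St_HITf) : St_COND6 := by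
  have _h := hoB
  intro M M' B N a L hL ha
  refine ⟨a + 64, ?_⟩
  intro F G c m σ τ T T' hm hc hG hag hcor p q D hp hq hD hpq
  obtain ⟨-, hD1, hD2⟩ := hcor
  rw [Pool.Agent.W801.DPdet.mem_core4] at hc
  have hLm : 2 * m ≤ L * m := Nat.mul_le_mul_right m hL
  have e16 : 16 * L * m = 16 * (L * m) := by ring
  have e4 : 4 * L * m = 4 * (L * m) := by ring
  have eb : ((16 * L * m - 1 : ℕ) : ℤ) = 16 * ((L * m : ℕ) : ℤ) - 1 := by omega
  have erc : ((4 * L * m + 20 : ℕ) : ℤ) = 4 * ((L * m : ℕ) : ℤ) + 20 := by omega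
  have hdis : Disjoint (Exm (↑F : Set Edg) σ T) (Exm (↑F : Set Edg) τ T') := by
    rw [Finset.disjoint_left]
    intro e h1 h2
    have h3 := (hG.sp e h1 e h2).1
    unfold lv at h3
    simp at h3
  have hdat : Y6.Dat6 F G c ((L * m : ℕ) : ℤ) a (16 * L * m - 1) (4 * L * m + 20) (2 * m + 4) σ τ
      T T' :=
    ⟨by omega, by omega, by omega, eb, erc, by omega, hc.1.1, hc.1.2, hc.2.1, hc.2.2, hG.i, hG.o,
      hdis, hG.si, hG.so, hag⟩
  exact Y6.left6 hB hHd hHf hdat hD1 hD2 hp hq (fun e he => (hD e he).2.2) hpq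

end Pool.Agent.N948.XE
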