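import Pool.Agent.N948.XE.Stm
import Pool.Agent.W801.DPdet
import Pool.Agent.H984R3.Per.Count

/-!
# Project XE, task Y7: deterministic part of a trial, assembly.
-/

set_option autoImplicit false

namespace Pool.Agent.N948.XE

open H974 H906.Cyl H12S Finset H389NS H984P H984N H342P H984P.SideAux
open Pool.Agent.W92.DP Pool.Agent.W822.PD Pool.Agent.N948.IX
open Pool.Agent.W801.DPdet (sh src_sh tgt_sh dsrc_sh dtgt_sh reach_sh dreach_sh mem_core4)

namespace Y7

theorem mem_tr {z : Vtx} {F : Finset Edg} {e : Edg} : e ∈ tr z F ↔ sh z e ∈ F := by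
  obtain ⟨x, y, b⟩ := e
  unfold tr
  rw [LSym.mem_mp, trl_φs, sub_neg_eq_add, sub_neg_eq_add]
  rfl

theorem sh_neg (z : Vtx) (e : Edg) : sh z (sh (-z.1, -z.2) e) = e := by
  obtain ⟨x, y, b⟩ := e
  simp [sh]

theorem sh_RE {z : Vtx} {a b c d : ℤ} {e : Edg} :
    sh z e ∈ RE a b c d ↔ e ∈ RE (a - z.1) (b - z.1) (c - z.2) (d - z.2) := by
  obtain ⟨x, y, _ | _⟩ := e
  · simp only [sh, mem_RE_false]; omega
  · simp only [sh, mem_RE_true]; omega

/-- Shift of a state. -/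
def shS (z : Vtx) (σ : St) : St := ((σ.1.1 + z.1, σ.1.2 + z.2), σ.2)

theorem ae_shS (z : Vtx) (σ : St) : ae (shS z σ) = sh z (ae σ) := by
  obtain ⟨⟨x, y⟩, k⟩ := σ
  obtain ⟨z1, z2⟩ := z
  cases k <;> simp only [shS, sh, ae_ne, ae_nw, ae_sw, ae_se, Prod.mk.injEq, and_true,
    true_and] <;> ring

theorem face_shS (z : Vtx) (σ : St) :
    face (shS z σ) = ((face σ).1 + z.1, (face σ).2 + z.2) := by
  obtain ⟨⟨x, y⟩, k⟩ := σ
  obtain ⟨z1, z2⟩ := z
  cases k
  · rfl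
  · simp only [shS, face_nw, Prod.mk.injEq, and_true]; ring
  · simp only [shS, face_sw, Prod.mk.injEq]; constructor <;> ring
  · simp only [shS, face_se, Prod.mk.injEq, true_and]; ring

theorem mv_shS (z : Vtx) (σ : St) : mv (shS z σ) = shS z (mv σ) := by
  obtain ⟨⟨x, y⟩, k⟩ := σ
  obtain ⟨z1, z2⟩ := z
  cases k <;> simp only [shS, mv_ne, mv_nw, mv_sw, mv_se, Prod.mk.injEq, and_true,
    true_and] <;> ring

theorem rt_shS (z : Vtx) (σ : St) : rt (shS z σ) = shS z (rt σ) := by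
  obtain ⟨⟨x, y⟩, k⟩ := σ
  cases k <;> rfl

theorem nxt_shS {z : Vtx} {F : Finset Edg} (σ : St) :
    nxt (↑F : Set Edg) (shS z σ) = shS z (nxt (↑(tr z F) : Set Edg) σ) := by
  by_cases h : ae σ ∈ (↑(tr z F) : Set Edg)
  · have h' : ae (shS z σ) ∈ (↑F : Set Edg) := by
      rw [ae_shS]
      exact Finset.mem_coe.mpr (mem_tr.mp (Finset.mem_coe.mp h))
    rw [nxt_open h, nxt_open h', mv_shS]
  · have h' : ae (shS z σ) ∉ (↑F : Set Edg) := by
      rw [ae_shS]
      exact fun h' => h (Finset.mem_coe.mpr (mem_tr.mpr (Finset.mem_coe.mp h')))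
    rw [nxt_closed h, nxt_closed h', rt_shS]

theorem orb_shS {z : Vtx} {F : Finset Edg} (σ : St) (s : ℕ) :
    orb (↑F : Set Edg) (shS z σ) s = shS z (orb (↑(tr z F) : Set Edg) σ s) := by
  induction s with
  | zero => rfl
  | succ s ih => rw [orb_succ, orb_succ, ih, nxt_shS]

theorem cutW_shift {κ K B U n : ℕ} {w w' : ℕ → Vtx} {v v' z : Vtx}
    (hw : ∀ s, w' s = ((w s).1 + z.1, (w s).2 + z.2)) (hv : v' = (v.1 + z.1, v.2 + z.2))
    (h : CutW κ K B U n w v) : CutW κ K B U n w' v' := by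
  have h1 : ∀ s, sd (w' s) v' = sd (w s) v := by
    intro s
    rw [hw, hv]
    simp only [sd, add_sub_add_right_eq_sub]
  have h2 : ∀ s s', sd (w' s) (w' s') = sd (w s) (w s') := by
    intro s s'
    rw [hw, hw]
    simp only [sd, add_sub_add_right_eq_sub]
  unfold CutW at h ⊢
  simp only [h1, h2]
  exact h

/-- The edges examined by the passage are near the core. -/
theorem in_RE {U : ℤ} (_hU : 128 ≤ U) {v : Vtx} (hv : v ∈ core4 U) {e : Edg}
    (h : lv v (src e) ≤ 16 * U - 1) :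
    e ∈ RE (-(200 * U)) (160 * U) (-(300 * U)) (300 * U) := by
  rw [mem_core4] at hv
  obtain ⟨⟨v1, v2⟩, v3, v4⟩ := hv
  obtain ⟨x, y, β⟩ := e
  have h1 : |x - v.1| ≤ 16 * U - 1 := le_trans (le_max_left _ _) h
  have h2 : |y - v.2| ≤ 16 * U - 1 := le_trans (le_max_right _ _) h
  rw [abs_le] at h1 h2
  cases β
  · rw [mem_RE_false]; omega
  · rw [mem_RE_true]; omega

/-- An edge whose dual edge is in a rectangle. -/
theorem dl_back {a b c d : ℤ} {e : Edg} (h : dl e ∈ RE a b c d) :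
    e ∈ RE (a - 1) (b + 1) (c - 1) (d + 1) := by
  obtain ⟨x, y, _ | _⟩ := e
  · rw [dl_f, mem_RE_true] at h
    rw [mem_RE_false]; omega
  · rw [dl_t, mem_RE_false] at h
    rw [mem_RE_true]; omega

end Y7

open Y7 in
/-- Deterministic part of a trial. -/
theorem det6 (hC : St_CUT6) (hO : St_CONO6) (hD : St_COND6) : St_DET6 := by
  intro M M' B N a0 L h2 ha0 hB hN hM hM'
  obtain ⟨κ, K, m1, hK, H1⟩ := hC M M' B N a0 L h2 ha0 hB hN hM hM'
  obtain ⟨m2, H2⟩ := hO M M' B N a0 L h2 ha0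
  obtain ⟨m3, H3⟩ := hD M M' B N a0 L h2 ha0
  refine ⟨κ, K, max (max m1 m2) (max m3 64), hK, ?_⟩
  intro m a F A y0 X Y T hv hf hm ha hst hL hUE v hvm hE
  have hm1 : m1 ≤ m := le_trans (le_trans (le_max_left _ _) (le_max_left _ _)) hm
  have hm2 : m2 ≤ m := le_trans (le_trans (le_max_right _ _) (le_max_left _ _)) hm
  have hm3 : m3 ≤ m := le_trans (le_trans (le_max_left _ _) (le_max_right _ _)) hm
  have h64 : 64 ≤ m := le_trans (le_trans (le_max_right _ _) (le_max_right _ _)) hm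
  obtain ⟨σ, τ, T1, T1', G, hG, hag, hGd, hCor⟩ := hE
  obtain ⟨hT1, n, hn, hlv, hcut⟩ := H1 _ G v m σ τ T1 T1' hm1 hG hag hGd
  have HO := H2 _ G v m σ τ T1 T1' hm2 hvm hG hag hCor
  have HD := H3 _ G v m σ τ T1 T1' hm3 hvm hG hag hCor
  clear H1 H2 H3 hG hag hGd hCor hm hm1 hm2 hm3
  have hLm : 128 ≤ L * m := by nlinarith
  have haU : (a : ℤ) = 6 * ((L * m : ℕ) : ℤ) := by exact_mod_cast ha
  have hU : (128 : ℤ) ≤ ((L * m : ℕ) : ℤ) := by exact_mod_cast hLm
  generalize hUd : ((L * m : ℕ) : ℤ) = U at *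
  set z : Vtx := (X + 32 * a, Y - 20 * U) with hz
  have hz1 : z.1 = X + 32 * a := rfl
  have hz2 : z.2 = Y - 20 * U := rfl
  have ha1 : 1 ≤ a := by omega
  set P : Set Edg := {e | sh z e ∈ ((↑F : Set Edg) ∩ ↑(Bl X Y a))} with hP
  set Q : Set Edg := {e | sh z e ∈ ((↑(Bl X Y a) : Set Edg) \ ↑F)} with hQ
  have hBl : ∀ e : Edg, e ∈ RE (-(200 * U)) (160 * U) (-(300 * U)) (300 * U) →
      sh z e ∈ Bl X Y a := by
    intro e he
    unfold Bl
    rw [sh_RE]
    exact RE_subset (by omega) (by omega) (by omega) (by omega) he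
  have hPs : (↑(tr z F) : Set Edg) ∩ ↑(RE (-(144 * U)) (144 * U) (-(28 * U)) (68 * U)) ⊆ P := by
    rintro e ⟨h3, h4⟩
    refine ⟨Finset.mem_coe.mpr (mem_tr.mp (Finset.mem_coe.mp h3)), ?_⟩
    exact Finset.mem_coe.mpr (hBl e (RE_subset (by omega) (by omega) (by omega) (by omega)
      (Finset.mem_coe.mp h4)))
  have hQs : (↑(RE (-(27 * U)) (27 * U) (-(28 * U)) (68 * U)) : Set Edg) \ ↑(tr z F) ⊆ Q := by
    rintro e ⟨h3, h4⟩
    refine ⟨Finset.mem_coe.mpr (hBl e (RE_subset (by omega) (by omega) (by omega) (by omega)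
      (Finset.mem_coe.mp h3))), ?_⟩
    exact fun h5 => h4 (Finset.mem_coe.mpr (mem_tr.mpr (Finset.mem_coe.mp h5)))
  have backP : ∀ {u u' : Vtx}, Reach P u u' → Reach ((↑F : Set Edg) ∩ ↑(Bl X Y a))
      (u.1 + z.1, u.2 + z.2) (u'.1 + z.1, u'.2 + z.2) :=
    fun h => reach_sh (fun e he => he) h
  have backQ : ∀ {u u' : Vtx}, DReach Q u u' → DReach ((↑(Bl X Y a) : Set Edg) \ ↑F)
      (u.1 + z.1, u.2 + z.2) (u'.1 + z.1, u'.2 + z.2) :=
    fun h => dreach_sh (fun e he => he) h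
  set W : Set Edg := ↑(Exm (↑F) (st0 A y0) T ∪ Bl X Y a) with hW
  have hWE : (↑(Exm (↑F) (st0 A y0) T) : Set Edg) ⊆ W := by
    rw [hW, Finset.coe_union]; exact Set.subset_union_left
  have hWB : (↑(Bl X Y a) : Set Edg) ⊆ W := by
    rw [hW, Finset.coe_union]; exact Set.subset_union_right
  -- the open side
  have hopen : Reach ((↑F : Set Edg) ∩ W) (st0 A y0).1 (orb (↑F : Set Edg) (shS z σ) 1).1 := by
    obtain ⟨yb, yc, hyb, hyc, hR1, c, ⟨s, hs, rfl⟩, hR2⟩ := hL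
    have hS := reach_sh (v := (-z.1, -z.2)) (G := (↑F : Set Edg) ∩ ↑(LS X Y a))
      (G' := (↑(tr z F) : Set Edg) ∩ ↑(RE (-(144 * U)) (144 * U) (-(28 * U)) (-(4 * U)))) (by
        rintro e ⟨h3, h4⟩
        refine ⟨Finset.mem_coe.mpr (mem_tr.mpr ?_), ?_⟩
        · rw [sh_neg]; exact Finset.mem_coe.mp h3
        · rw [Finset.mem_coe, sh_RE]
          have h5 := LRE_subset_RE (Finset.mem_coe.mp h4)
          exact RE_subset (by simp only; omega) (by simp only; omega) (by simp only; omega)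
            (by simp only; omega) h5) hR1
    have h6 := HO _ _ (by simp only; omega) (by simp only; omega) hS 1 Nat.one_pos hT1
    have h7 := backP (h6.mono hPs)
    simp only [neg_add_cancel_right] at h7
    have e3 : Reach ((↑F : Set Edg) ∩ ↑(Bl X Y a)) (X + 8 * a, yc) (orb (↑F) (st0 A y0) s).1 :=
      hR2.mono (by
        rintro e ⟨h0, h⟩
        exact ⟨h0, HkE_sub ha1 h.1⟩)
    have e4 := orb_reach (F := (↑F : Set Edg)) (W := ↑(Exm (↑F) (st0 A y0) T)) (σ := st0 A y0)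
      (T := T) (fun s hs => by exact_mod_cast mem_Exm.mpr ⟨s, hs, rfl⟩) hs
    rw [orb_shS]
    exact (e4.mono (Set.inter_subset_inter_right _ hWE)).trans
      ((e3.symm.trans h7).mono (Set.inter_subset_inter_right _ hWB))
  -- the dual side
  have hdual : DReach (W \ ↑F) (face (st0 A y0)) (face (orb (↑F : Set Edg) (shS z σ) 1)) := by
    obtain ⟨yb, yc, hyb, hyc, hR1, c, ⟨s, hs, rfl⟩, hR2⟩ := hUE
    have hsub : ∀ e ∈ (dE (US X Y a) : Set Edg) \ ↑F,
        dl (sh (-z.1, -z.2) e) ∈ RE (-(144 * U)) (144 * U) (44 * U) (68 * U) := by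
      rintro e ⟨h3, h4⟩
      have h5 : dl (sh (-z.1, -z.2) e) = sh (-z.1, -z.2) (dl e) := by
        obtain ⟨x, y, _ | _⟩ := e
        · simp only [sh, dl_f, Prod.mk.injEq, and_true]; ring
        · simp only [sh, dl_t, Prod.mk.injEq, and_true, true_and]; ring
      rw [h5, sh_RE]
      have h6 := LRE_subset_RE (show dl e ∈ LRE _ _ _ _ from h3)
      exact RE_subset (by simp only; omega) (by simp only; omega) (by simp only; omega)
        (by simp only; omega) h6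
    have hS := dreach_sh (v := (-z.1, -z.2)) (G := (dE (US X Y a) : Set Edg) \ ↑F)
      (G' := (fun e => sh (-z.1, -z.2) e) '' ((dE (US X Y a) : Set Edg) \ ↑F))
      (fun e he => ⟨e, he, rfl⟩) hR1
    have hS59 : ∀ {S : Finset Edg}, S ⊆ RE (X - 59 * a) (X + 59 * a) (Y - 59 * a) (Y + 59 * a) →
        dE S ⊆ ↑(Bl X Y a) := fun h => dE_sub ha1 h
    have h6 := HD _ _ _ (by simp only; omega) (by simp only; omega) (by
        rintro _ ⟨e, he, rfl⟩
        have h8 := hsub e he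
        refine ⟨dl_back h8, ?_, h8⟩
        intro h9
        have h10 := mem_tr.mp h9
        rw [sh_neg] at h10
        exact he.2 (Finset.mem_coe.mpr h10)) hS 1 Nat.one_pos hT1
    have h7 := backQ (h6.mono (by
      rintro e (⟨e, he, rfl⟩ | he)
      · show sh z (sh (-z.1, -z.2) e) ∈ ((↑(Bl X Y a) : Set Edg) \ ↑F)
        rw [sh_neg]
        refine ⟨hS59 ?_ he.1, he.2⟩
        unfold US
        exact LRE_subset_RE.trans (RE_subset (by omega) (by omega) (by omega) (by omega))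
      · exact hQs he))
    simp only [neg_add_cancel_right] at h7
    have e2 : DReach (↑(Bl X Y a) \ (↑F : Set Edg)) (X + 8 * a, yc)
        (face (orb (↑F) (st0 A y0) s)) :=
      hR2.mono (by
        rintro e ⟨h0, h⟩
        refine ⟨dE_sub ha1 ?_ h0.1, h⟩
        rintro ⟨x, y, _ | _⟩ h
        · simp only [HkE', Finset.mem_union, mem_RE_false] at h ⊢; omega
        · simp only [HkE', Finset.mem_union, mem_RE_true] at h ⊢; omega)
    have e4 := orb_dreach (F := (↑F : Set Edg)) (W := ↑(Exm (↑F) (st0 A y0) T)) (σ := st0 A y0)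
      (T := T) (fun s hs => by exact_mod_cast mem_Exm.mpr ⟨s, hs, rfl⟩) hs
    have e5 := e4.mono (Set.sdiff_subset_sdiff_left hWE)
    rw [orb_shS, face_shS]
    exact e5.trans ((e2.symm.trans h7).mono (Set.sdiff_subset_sdiff_left hWB))
  refine ⟨shS z σ, n, 1, hn, ?_, ⟨hopen, hdual⟩, ?_⟩
  · intro e he
    obtain ⟨s, hs, rfl⟩ := mem_Exm.mp he
    rw [orb_shS, ae_shS]
    exact hWB (Finset.mem_coe.mpr (hBl _ (in_RE hU hvm (hlv s hs))))
  · refine cutW_shift (z := z) (w := fun s => (orb (↑(tr z F) : Set Edg) σ s).1) (v := v)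
      (fun s => ?_) rfl hcut
    simp only [orb_shS]
    rfl

end Pool.Agent.N948.XE
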