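import Pool.Agent.N948.XE.Stm
import Pool.Agent.W806.PD.Tri

/-!
# Project XE, part Y8: probability of a trial (port of Pool.Agent.W806.PD.Tri)
-/

set_option autoImplicit false

namespace Pool.Agent.N948.XE

namespace Y8

open H974 H12S Finset H389NS H984P H984N H342P
open Pool.Agent.W92.DP Pool.Agent.W822.PD Pool.Agent.W52.DPInd
open H984P.Tr760
open Pool.Agent.W806.PDTri

theorem geoA {X Y U : ℤ} {a : ℕ} (ha : (a : ℤ) = 6 * U) (hU : 1 ≤ U) {e : Edg}
    (he : e ∈ SC U) (hy : e.2.1 < 44 * U) :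
    dl (she (X + 32 * a, Y - 20 * U) e) ∉ HkE' X Y a := by
  unfold SC at he
  obtain ⟨x, y, _ | _⟩ := e
  · rw [mem_RE_false] at he
    simp only [she, HkE', dl_f, Finset.mem_union, mem_RE_false, mem_RE_true] at hy ⊢
    omega
  · rw [mem_RE_true] at he
    simp only [she, HkE', dl_t, Finset.mem_union, mem_RE_false, mem_RE_true] at hy ⊢
    omega

theorem geoB {X Y U : ℤ} {a : ℕ} (ha : (a : ℤ) = 6 * U) (hU : 1 ≤ U) {e : Edg}
    (he : e ∈ SC U) (hy : -(4 * U) < e.2.1) :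
    she (X + 32 * a, Y - 20 * U) e ∉ HkE X Y a := by
  unfold SC at he
  obtain ⟨x, y, _ | _⟩ := e
  · rw [mem_RE_false] at he
    simp only [she, HkE, Finset.mem_union, mem_RE_false] at hy ⊢
    omega
  · rw [mem_RE_true] at he
    simp only [she, HkE, Finset.mem_union, mem_RE_true] at hy ⊢
    omega

theorem mid_sub {U : ℤ} (hU : 1 ≤ U) :
    RE (-(27 * U)) (27 * U) (-(3 * U)) (43 * U) ⊆ SC U := by
  unfold SC
  exact RE_subset (by omega) (by omega) (by omega) (by omega)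

theorem mid_y {U : ℤ} {e : Edg} (he : e ∈ RE (-(27 * U)) (27 * U) (-(3 * U)) (43 * U)) :
    -(3 * U) ≤ e.2.1 ∧ e.2.1 ≤ 43 * U := by
  obtain ⟨x, y, _ | _⟩ := e
  · rw [mem_RE_false] at he
    simp only
    omega
  · rw [mem_RE_true] at he
    simp only
    omega

/-- Probability of the hooks and many vertices. -/
theorem trialC : ∃ c1 : ℝ, 0 < c1 ∧ ∀ (M M' B N' a0 L κ K m : ℕ) (p cV EV t : ℝ), 1 ≤ L * m →
    100 * a0 ≤ L * m → 0 ≤ p →
    (∀ S : Finset Edg, SC (L * m : ℕ) ⊆ S → p ≤ PQ (1/2) S (fun F =>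
      cV ≤ ((V6 M M' B N' a0 L m F).card : ℝ) ∧ EnV t (V6 M M' B N' a0 L m F) ≤ EV)) →
    St_MONO6 →
    (∀ (a : ℕ) (F : Finset Edg) (A y0 X Y : ℤ) (T : ℕ) (hv hf : Vtx → ZMod 2),
      a = 6 * (L * m) → Strand (↑F : Set Edg) A y0 X Y T →
      LEv X Y a {v | ∃ s ≤ T, (orb (↑F) (st0 A y0) s).1 = v} (Tlow (↑F) A y0 X Y T a hv) ↑F →
      UEv X Y a {f | ∃ s ≤ T, face (orb (↑F) (st0 A y0) s) = f} (Tup (↑F) A y0 X Y T a hf) ↑F →
      ∀ v ∈ core4 (L * m : ℕ), E6 M M' B N' a0 L m v (tr (X + 32 * a, Y - 20 * (L * m : ℕ)) F) →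
        CutA κ K B (L * m) (st0 A y0) (↑(Exm (↑F) (st0 A y0) T ∪ Bl X Y a)) ↑F
          (v.1 + (X + 32 * a), v.2 + (Y - 20 * (L * m : ℕ)))) →
    ∀ (S k F0 : Finset Edg) (A y0 X Y : ℤ) (T a : ℕ), a = 6 * (L * m) →
    F0 ⊆ S → k ⊆ S → Strand (↑F0 : Set Edg) A y0 X Y T → A ≤ X - 9 * a →
    Bl X Y a ⊆ S → ((A - 1, y0, true) : Edg) ∈ k → Exm (↑F0) (st0 A y0) T ⊆ k →
    (∀ e ∈ k, e ∈ Bl X Y a → e ∈ Exm (↑F0) (st0 A y0) T) →
    p * (c1 * c1) ≤
      Pr (fun _ => (1/2:ℝ)) (S \ k) (fun G => ∃ V : Finset Vtx,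
        (cV ≤ (V.card : ℝ) ∧ EnV t V ≤ EV) ∧
        ∀ v ∈ V, CutA κ K B (L * m) (st0 A y0)
          (↑(Exm (↑F0) (st0 A y0) T ∪ Bl X Y a)) (↑((F0 ∩ k) ∪ G)) v) := by
  classical
  obtain ⟨c0', hc0', hpr⟩ := pr_hook
  refine ⟨c0', hc0', ?_⟩
  intro M M' B N' a0 L κ K m p cV EV t hLm ha0 hp hcen hmono hdet S k F0 A y0 X Y T a haeq hF0 hk
    hst hA hBl hent hEk hkE
  obtain ⟨U, hUdef⟩ : ∃ U : ℤ, U = ((L * m : ℕ) : ℤ) := ⟨_, rfl⟩
  have hU : 1 ≤ U := by rw [hUdef]; exact_mod_cast hLm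
  have haU : (a : ℤ) = 6 * U := by rw [haeq, hUdef]; push_cast; rfl
  have ha : 1 ≤ a := by omega
  have ha' : (1 : ℤ) ≤ a := by exact_mod_cast ha
  obtain ⟨hv, hf, hS⟩ := side_exists hst
  -- edges of the block which are not examined are fresh
  have fresh : ∀ e, e ∈ Bl X Y a → e ∉ Exm (↑F0) (st0 A y0) T → e ∈ S \ k := by
    intro e he he'
    rw [Finset.mem_sdiff]
    exact ⟨hBl he, fun h => he' (hkE e h he)⟩
  have notEx : ∀ e : Edg, X ≤ e.1 → e ∉ Exm (↑F0) (st0 A y0) T := by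
    intro e he h
    have := (exm_loc hst h).2.1
    omega
  set D := S \ k with hD
  set TL := Tlow (↑F0) A y0 X Y T a hv with hTL
  set TU := Tup (↑F0) A y0 X Y T a hf with hTU
  have TL_D : ∀ e ∈ TL, e ∈ D := fun e he => fresh e (H984P.Tr760.HkE_sub ha he.1) he.2.1
  have TU_D : ∀ e ∈ TU, e ∈ D := fun e he => fresh e (dHk_sub ha he.1) he.2.1
  have LS_TL : ∀ e ∈ LS X Y a, e ∈ TL := by
    intro e he
    obtain ⟨h1, h2, h3, h4, h5⟩ := LS_loc he
    refine ⟨LS_sub he, notEx e h5, ?_, ?_⟩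
    · exact (hS.rightv (src e).1 (src e).2 h1).2 h2
    · exact (hS.rightv (tgt e).1 (tgt e).2 h3).2 h4
  have US_TU : ∀ e, dl e ∈ US X Y a → e ∈ TU := by
    intro e he
    obtain ⟨h1, h2, h3, h4, h5⟩ := US_loc he
    refine ⟨US_sub he, notEx e h5, ?_, ?_⟩
    · exact (hS.rightf (dsrc e).1 (dsrc e).2 h1).2 h2
    · exact (hS.rightf (dtgt e).1 (dtgt e).2 h3).2 h4
  set T1 := D.filter (fun e => e ∈ TL) with hT1
  set T2 := D.filter (fun e => e ∈ TU) with hT2
  have mT1 : ∀ e, e ∈ T1 ↔ e ∈ TL := by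
    intro e
    rw [hT1, Finset.mem_filter]
    exact ⟨fun h => h.2, fun h => ⟨TL_D e h, h⟩⟩
  have mT2 : ∀ e, e ∈ T2 ↔ e ∈ TU := by
    intro e
    rw [hT2, Finset.mem_filter]
    exact ⟨fun h => h.2, fun h => ⟨TU_D e h, h⟩⟩
  have hdisj : Disjoint T1 T2 := by
    rw [Finset.disjoint_left]
    intro e h1 h2
    rw [mT1] at h1
    rw [mT2] at h2
    obtain ⟨h1a, h1b, h1c, h1d⟩ := h1
    obtain ⟨h2a, h2b, h2c, h2d⟩ := h2
    have hAe : A ≤ e.1 := by
      have := HkE_ge h1a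
      omega
    by_cases hray : X ≤ e.1 ∧ e.2.1 = Y
    · obtain ⟨x, y, _ | _⟩ := e
      · simp only at hray
        rw [tgt_false] at h1d
        have := (hS.rightv x (y + 1) hray.1).1 h1d
        omega
      · simp only at hray
        rw [dsrc_true] at h2c
        have := (hS.rightf x (y - 1) hray.1).1 h2c
        omega
    · obtain ⟨_, _, h3⟩ := hS.free e h1b hAe hray
      rw [h1c, h2d] at h3
      exact absurd h3 (by decide)
  set Lst : Set Vtx := {v | ∃ s ≤ T, (orb (↑F0) (st0 A y0) s).1 = v} with hLst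
  set Rst : Set Vtx := {f | ∃ s ≤ T, face (orb (↑F0) (st0 A y0) s) = f} with hRst
  set z : Vtx := (X + 32 * a, Y - 20 * U) with hz
  -- fresh edges
  have hSCD : ∀ e ∈ SC U, she z e ∈ D := fun e he =>
    fresh _ (geo_Bl haU hU he).1 (notEx _ (geo_Bl haU hU he).2)
  have hmono' : ∀ F G : Finset Edg,
      F ∩ RE (-(27 * U)) (27 * U) (-(3 * U)) (43 * U) =
        G ∩ RE (-(27 * U)) (27 * U) (-(3 * U)) (43 * U) →
      (∀ e ∈ SC U, e.2.1 ≤ 12 * U → e ∈ F → e ∈ G) →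
      (∀ e ∈ SC U, 12 * U ≤ e.2.1 → e ∈ G → e ∈ F) →
      ∀ v ∈ core4 U, E6 M M' B N' a0 L m v F → E6 M M' B N' a0 L m v G := by
    intro F G h1 h2 h3
    rw [hUdef] at h1 h2 h3 ⊢
    exact hmono M M' B N' a0 L m F G hLm ha0 h1 h2 h3
  set N : Finset Edg → Prop := fun G => ∃ V : Finset Vtx, V ⊆ core4 U ∧
    (cV ≤ (V.card : ℝ) ∧ EnV t V ≤ EV) ∧ ∀ v ∈ V, E6 M M' B N' a0 L m v (tr z G) with hN
  have key := harris_signed (p := fun _ : Edg => (1/2:ℝ)) ok_half (S := D) (T₁ := T1) (T₂ := T2)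
    (Finset.filter_subset _ _) (Finset.filter_subset _ _) hdisj
    (N := N)
    (f := fun G => LEv X Y a Lst TL (↑G : Set Edg))
    (g := fun G => UEv X Y a Rst TU (↑G : Set Edg))
    (by
      intro F _
      constructor
      · apply LEv_mono
        · intro e he heF
          rw [Finset.mem_coe, Finset.mem_inter]
          exact ⟨heF, (mT1 e).2 (LS_TL e he)⟩
        · intro e he heF
          rw [Finset.mem_coe, Finset.mem_inter]
          exact ⟨heF, (mT1 e).2 he⟩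
      · apply LEv_mono
        · intro e _ heF
          rw [Finset.mem_coe, Finset.mem_inter] at heF
          exact heF.1
        · intro e _ heF
          rw [Finset.mem_coe, Finset.mem_inter] at heF
          exact heF.1)
    (by
      intro F G hFG
      apply LEv_mono
      · intro e _ heF
        exact hFG heF
      · intro e _ heF
        exact hFG heF)
    (by
      intro F _
      constructor
      · apply UEv_mono
        · intro e _ heF
          rw [Finset.mem_coe, Finset.mem_inter] at heF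
          exact heF.1
        · intro e _ heF
          rw [Finset.mem_coe, Finset.mem_inter] at heF
          exact heF.1
      · apply UEv_mono
        · intro e he heF
          rw [Finset.mem_coe, Finset.mem_inter]
          exact ⟨heF, (mT2 e).2 (US_TU e he)⟩
        · intro e he heF
          rw [Finset.mem_coe, Finset.mem_inter]
          exact ⟨heF, (mT2 e).2 he⟩)
    (by
      intro F G hFG
      apply UEv_mono
      · intro e _ heF
        exact hFG heF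
      · intro e _ heF
        exact hFG heF)
    (by
      intro F G hFD hGD hout h1 h2 hNF
      have hO : ∀ e, dl e ∉ HkE' X Y a → e ∈ F → e ∈ G := by
        intro e he heF
        have hn2 : e ∉ T2 := fun h => he ((mT2 e).1 h).1
        by_cases hn1 : e ∈ T1
        · exact (Finset.mem_inter.1 (h1 (Finset.mem_inter.2 ⟨heF, hn1⟩))).1
        · have : e ∈ F \ (T1 ∪ T2) := by
            rw [Finset.mem_sdiff, Finset.mem_union]
            exact ⟨heF, fun h => h.elim hn1 hn2⟩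
          rw [hout, Finset.mem_sdiff] at this
          exact this.1
      have hD' : ∀ e, e ∉ HkE X Y a → e ∈ G → e ∈ F := by
        intro e he heG
        have hn1 : e ∉ T1 := fun h => he ((mT1 e).1 h).1
        by_cases hn2 : e ∈ T2
        · exact (Finset.mem_inter.1 (h2 (Finset.mem_inter.2 ⟨heG, hn2⟩))).1
        · have : e ∈ G \ (T1 ∪ T2) := by
            rw [Finset.mem_sdiff, Finset.mem_union]
            exact ⟨heG, fun h => h.elim hn1 hn2⟩
          rw [← hout, Finset.mem_sdiff] at this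
          exact this.1
      have hSAeq : tr z F ∩ RE (-(27 * U)) (27 * U) (-(3 * U)) (43 * U) =
          tr z G ∩ RE (-(27 * U)) (27 * U) (-(3 * U)) (43 * U) := by
        ext e
        rw [Finset.mem_inter, Finset.mem_inter, mem_tr, mem_tr]
        constructor
        · rintro ⟨h3, h4⟩
          exact ⟨hO _ (geoA haU hU (mid_sub hU h4) (by have := mid_y h4; omega)) h3, h4⟩
        · rintro ⟨h3, h4⟩
          exact ⟨hD' _ (geoB haU hU (mid_sub hU h4) (by have := mid_y h4; omega)) h3, h4⟩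
      obtain ⟨V, hV1, hV2, hV3⟩ := hNF
      refine ⟨V, hV1, hV2, fun v hv => ?_⟩
      refine hmono' (tr z F) (tr z G) hSAeq ?_ ?_ v (hV1 hv) (hV3 v hv)
      · intro e he hy heF
        rw [mem_tr] at heF ⊢
        exact hO _ (geoA haU hU he (by omega)) heF
      · intro e he hy heG
        rw [mem_tr] at heG ⊢
        exact hD' _ (geoB haU hU he (by omega)) heG)
  have hDS : D ⊆ S := Finset.sdiff_subset
  -- lower bound for the first hook
  have hPf : c0' ≤ Pr (fun _ => (1/2:ℝ)) D (fun G => LEv X Y a Lst TL (↑G : Set Edg)) := by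
    refine (hpr X Y a S ha hBl).1.trans ?_
    have e1 : Pr (fun _ => (1/2:ℝ)) D (fun G => LEv X Y a Lst TL (↑G : Set Edg)) =
        Pr (fun _ => (1/2:ℝ)) S (fun G => LEv X Y a Lst TL (↑(G ∩ D) : Set Edg)) := by
      rw [Pr_local (S := S) (S' := D) hDS (A := fun G => LEv X Y a Lst TL (↑(G ∩ D) : Set Edg))
        (fun F _ => by rw [Finset.inter_assoc, Finset.inter_self])]
      apply Pr_congr
      intro F hF
      rw [Finset.inter_eq_left.2 hF]
    rw [e1]
    apply Pr_mono ok_half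
    intro F hF hHk
    have h3 := low_side ha hst hS hA hHk
    refine LEv_mono ?_ ?_ h3
    · intro e he heF
      rw [Finset.mem_coe, Finset.mem_inter]
      exact ⟨heF, TL_D e (LS_TL e he)⟩
    · intro e he heF
      rw [Finset.mem_coe, Finset.mem_inter]
      exact ⟨heF, TL_D e he⟩
  have hPg : c0' ≤ Pr (fun _ => (1/2:ℝ)) D (fun G => UEv X Y a Rst TU (↑G : Set Edg)) := by
    refine (hpr X Y a S ha hBl).2.trans ?_
    have e1 : Pr (fun _ => (1/2:ℝ)) D (fun G => UEv X Y a Rst TU (↑G : Set Edg)) =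
        Pr (fun _ => (1/2:ℝ)) S (fun G => UEv X Y a Rst TU (↑(G ∩ D) : Set Edg)) := by
      rw [Pr_local (S := S) (S' := D) hDS (A := fun G => UEv X Y a Rst TU (↑(G ∩ D) : Set Edg))
        (fun F _ => by rw [Finset.inter_assoc, Finset.inter_self])]
      apply Pr_congr
      intro F hF
      rw [Finset.inter_eq_left.2 hF]
    rw [e1]
    apply Pr_mono ok_half
    intro F hF hHk
    have h3 := up_side ha hst hS hA hHk
    refine UEv_mono ?_ ?_ h3
    · intro e _ heF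
      rw [Finset.mem_coe, Finset.mem_inter] at heF
      exact heF.1
    · intro e _ heF
      rw [Finset.mem_coe, Finset.mem_inter] at heF
      exact heF.1
  have hPN : p ≤ Pr (fun _ => (1/2:ℝ)) D N := by
    have h1 := hcen (tr z D) (by
      rw [← hUdef]
      intro e he
      rw [mem_tr]
      exact hSCD e he)
    have h2 := (trl (-z.1) (-z.2)).pr (1/2) D (fun F =>
      cV ≤ ((V6 M M' B N' a0 L m F).card : ℝ) ∧ EnV t (V6 M M' B N' a0 L m F) ≤ EV)
    have h3 : PQ (1/2) (tr z D) (fun F =>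
      cV ≤ ((V6 M M' B N' a0 L m F).card : ℝ) ∧ EnV t (V6 M M' B N' a0 L m F) ≤ EV) =
      Pr (fun _ => (1/2:ℝ)) D (fun F =>
      cV ≤ ((V6 M M' B N' a0 L m (tr z F)).card : ℝ) ∧
        EnV t (V6 M M' B N' a0 L m (tr z F)) ≤ EV) := h2
    rw [h3] at h1
    refine h1.trans ?_
    apply Pr_mono ok_half
    intro F _ hF
    refine ⟨V6 M M' B N' a0 L m (tr z F), ?_, hF, ?_⟩
    · unfold V6
      rw [← hUdef]
      exact Finset.filter_subset _ _
    · intro v hv
      unfold V6 at hv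
      exact (Finset.mem_filter.1 hv).2
  have hNfg : p * (c0' * c0') ≤ Pr (fun _ => (1/2:ℝ)) D (fun F => N F ∧
      (LEv X Y a Lst TL (↑F : Set Edg) ∧ UEv X Y a Rst TU (↑F : Set Edg))) := by
    refine le_trans ?_ key
    exact mul_le_mul hPN (mul_le_mul hPf hPg hc0'.le (hc0'.le.trans hPf)) (by positivity)
      (hp.trans hPN)
  refine hNfg.trans ?_
  apply Pr_mono ok_half
  rintro G hG ⟨⟨V, hV1, hV2, hV3⟩, hL', hU'⟩
  -- the configuration with the examined edges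
  have hmem : ∀ e, e ∉ k → (e ∈ (F0 ∩ k) ∪ G ↔ e ∈ G) := by
    intro e he
    rw [Finset.mem_union, Finset.mem_inter]
    exact ⟨fun h => h.elim (fun h => absurd h.2 he) id, Or.inr⟩
  have hmemk : ∀ e, e ∈ k → (e ∈ F0 ↔ e ∈ (F0 ∩ k) ∪ G) := by
    intro e he
    rw [Finset.mem_union, Finset.mem_inter]
    exact ⟨fun h => Or.inl ⟨h, he⟩, fun h => h.elim (fun h => h.1)
      (fun h => absurd he (Finset.mem_sdiff.1 (hG h)).2)⟩
  have hagr : ∀ e ∈ Exm (↑F0 : Set Edg) (st0 A y0) T,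
      (e ∈ (↑F0 : Set Edg) ↔ e ∈ (↑((F0 ∩ k) ∪ G) : Set Edg)) := fun e he => hmemk e (hEk he)
  have hent' : ((A - 1, y0, true) : Edg) ∈ (↑((F0 ∩ k) ∪ G) : Set Edg) :=
    (hmemk _ hent).1 hst.ent
  have hst' := strand_congr hst hagr hent'
  have hEx : Exm (↑((F0 ∩ k) ∪ G) : Set Edg) (st0 A y0) T = Exm (↑F0 : Set Edg) (st0 A y0) T :=
    Exm_congr hagr
  have hLs : {v | ∃ s ≤ T, (orb (↑((F0 ∩ k) ∪ G) : Set Edg) (st0 A y0) s).1 = v} = Lst := by
    ext v
    constructor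
    · rintro ⟨s, hs, h⟩
      exact ⟨s, hs, by rw [← orb_congr hagr hs]; exact h⟩
    · rintro ⟨s, hs, h⟩
      exact ⟨s, hs, by rw [orb_congr hagr hs]; exact h⟩
  have hRs : {f | ∃ s ≤ T, face (orb (↑((F0 ∩ k) ∪ G) : Set Edg) (st0 A y0) s) = f} = Rst := by
    ext v
    constructor
    · rintro ⟨s, hs, h⟩
      exact ⟨s, hs, by rw [← orb_congr hagr hs]; exact h⟩
    · rintro ⟨s, hs, h⟩
      exact ⟨s, hs, by rw [orb_congr hagr hs]; exact h⟩
  have hTLs : Tlow (↑((F0 ∩ k) ∪ G) : Set Edg) A y0 X Y T a hv = TL := by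
    rw [hTL]
    unfold Tlow
    rw [hEx]
  have hTUs : Tup (↑((F0 ∩ k) ∪ G) : Set Edg) A y0 X Y T a hf = TU := by
    rw [hTU]
    unfold Tup
    rw [hEx]
  have notk : ∀ e ∈ D, e ∉ k := fun e he => (Finset.mem_sdiff.1 he).2
  have hSCeq : tr z ((F0 ∩ k) ∪ G) ∩ SC U = tr z G ∩ SC U := by
    ext e
    rw [Finset.mem_inter, Finset.mem_inter, mem_tr, mem_tr]
    constructor
    · rintro ⟨h3, h4⟩
      exact ⟨(hmem _ (notk _ (hSCD e h4))).1 h3, h4⟩
    · rintro ⟨h3, h4⟩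
      exact ⟨(hmem _ (notk _ (hSCD e h4))).2 h3, h4⟩
  have hE6 : ∀ v ∈ V, E6 M M' B N' a0 L m v (tr z ((F0 ∩ k) ∪ G)) := by
    intro v hv
    have hmemSC : ∀ e ∈ SC U, (e ∈ tr z G ↔ e ∈ tr z ((F0 ∩ k) ∪ G)) := by
      intro e he
      have h1 := Finset.ext_iff.1 hSCeq e
      rw [Finset.mem_inter, Finset.mem_inter] at h1
      exact ⟨fun h => (h1.2 ⟨h, he⟩).1, fun h => (h1.1 ⟨h, he⟩).1⟩
    refine hmono' (tr z G) (tr z ((F0 ∩ k) ∪ G)) ?_ ?_ ?_ v (hV1 hv) (hV3 v hv)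
    · ext e
      rw [Finset.mem_inter, Finset.mem_inter]
      constructor
      · rintro ⟨h3, h4⟩
        exact ⟨(hmemSC e (mid_sub hU h4)).1 h3, h4⟩
      · rintro ⟨h3, h4⟩
        exact ⟨(hmemSC e (mid_sub hU h4)).2 h3, h4⟩
    · intro e he _ h3
      exact (hmemSC e he).1 h3
    · intro e he _ h3
      exact (hmemSC e he).2 h3
  have hdd := hdet a ((F0 ∩ k) ∪ G) A y0 X Y T hv hf haeq hst'
    (by
      rw [hLs, hTLs]
      refine LEv_mono ?_ ?_ hL'
      · intro e _ he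
        exact Finset.mem_union_right _ he
      · intro e _ he
        exact Finset.mem_union_right _ he)
    (by
      rw [hRs, hTUs]
      refine UEv_mono ?_ ?_ hU'
      · intro e he heF
        exact (hmem e (notk e (TU_D e (US_TU e he)))).1 heF
      · intro e he heF
        exact (hmem e (notk e (TU_D e he))).1 heF)
  rw [hEx, ← hUdef] at hdd
  refine ⟨V.map (shv z), ⟨?_, ?_⟩, ?_⟩
  · rw [Finset.card_map]
    exact hV2.1
  · rw [EnV_shift]
    exact hV2.2
  · intro v hv'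
    rw [Finset.mem_map] at hv'
    obtain ⟨w, hw, rfl⟩ := hv'
    exact hdd w (hV1 hw) (hE6 w hw)

end Y8

open H974 H12S Finset H389NS H984P H984N H342P in
open Pool.Agent.W92.DP Pool.Agent.W822.PD Pool.Agent.W52.DPInd in
open H984P.Tr760 Y8 in
/-- Probability of a trial. -/
theorem tri6 (hG : St_GOOD6) (hM : St_MONO6) (hD : St_DET6) : St_TRI6 := by
  intro t ht ht'
  obtain ⟨c1, hc1, htr⟩ := trialC
  obtain ⟨L, M0, B, a, M, M', N, r0, c0, E0, p, hL, hM0, hB, ha, hM1, hM1', hN, hr0, hc0, hE0, hp,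
    hp1, hgood⟩ := hG t ht ht'
  obtain ⟨κ, K, m0, hK, hdet⟩ := hD M M' B N a L hL ha hB hN hM1 hM1'
  have hK' : (0 : ℝ) < ((6 * L : ℕ) : ℝ) := by
    have : 0 < 6 * L := by omega
    exact_mod_cast this
  refine ⟨κ, K, B, L * M0, r0 + m0 + 100 * a + 1, c0 * (((6 * L : ℕ) : ℝ) ^ (3/4 : ℝ))⁻¹, E0,
    p * (c1 * c1), hK, hB, Nat.mul_pos (by omega) (by omega), by positivity, hE0, by positivity, ?_⟩
  intro S A y0 r hr k F0 X Y T hF0 hk hst hA hBl hent hEk hkE
  have hm : r ≤ M0 * r := Nat.le_mul_of_pos_left r (by omega)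
  have hLm : M0 * r ≤ L * (M0 * r) := Nat.le_mul_of_pos_left _ (by omega)
  have haeq : 6 * (L * M0 * r) = 6 * (L * (M0 * r)) := by ring
  have h1 := htr M M' B N a L κ K (M0 * r) p (c0 * ((M0 * r : ℕ) : ℝ) ^ (3/4 : ℝ))
    (E0 * ((M0 * r : ℕ) : ℝ) ^ (3/2 - t)) t (by omega) (by omega) hp.le
    (fun S' hS' => hgood r S' (by omega) hS') hM
    (fun a' F A y0 X Y T hv hf => hdet (M0 * r) a' F A y0 X Y T hv hf (by omega))
    S k F0 A y0 X Y T (6 * (L * M0 * r)) haeq hF0 hk hst (by omega) hBl hent hEk hkE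
  refine h1.trans ?_
  apply Pr_mono ok_half
  rintro G _ ⟨V, ⟨hV1, hV2⟩, hV3⟩
  have hm0 : (0 : ℝ) < ((M0 * r : ℕ) : ℝ) := by
    have : 0 < M0 * r := by omega
    exact_mod_cast this
  have hcast : ((6 * (L * M0 * r) : ℕ) : ℝ) = ((6 * L : ℕ) : ℝ) * ((M0 * r : ℕ) : ℝ) := by
    push_cast
    ring
  refine ⟨V, ?_, ?_, ?_⟩
  · refine le_trans (le_of_eq ?_) hV1
    rw [hcast, Real.mul_rpow hK'.le hm0.le]
    have h3 : ((6 * L : ℕ) : ℝ) ^ (3/4 : ℝ) ≠ 0 := (Real.rpow_pos_of_pos hK' _).ne'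
    rw [mul_assoc, ← mul_assoc (((6 * L : ℕ) : ℝ) ^ (3/4 : ℝ))⁻¹, inv_mul_cancel₀ h3, one_mul]
  · refine hV2.trans ?_
    apply mul_le_mul_of_nonneg_left _ hE0.le
    apply Real.rpow_le_rpow hm0.le _ (by linarith)
    have h4 : M0 * r ≤ 6 * (L * M0 * r) := by
      rw [haeq]
      omega
    exact_mod_cast h4
  · intro v hv
    have h4 : 6 * (L * M0 * r) / 6 = L * (M0 * r) := by
      rw [haeq, Nat.mul_div_cancel_left _ (by norm_num)]
    unfold CutP
    rw [h4]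
    exact hV3 v hv

end Pool.Agent.N948.XE
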