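import Pool.Agent.N948.XE.Stm
import Pool.Agent.H984R3.Per.Basic
import Pool.Agent.H984R3.Per.Rot

set_option autoImplicit false

/-!
# Project XE, step Y9: the passages satisfy `OkP`
-/

namespace Pool.Agent.N948.XE

open H974 H906.Cyl H12S Finset H389NS H984P H984N H342P H984P.SideAux
open Pool.Agent.W92.DP Pool.Agent.W822.PD Pool.Agent.N948.IX

namespace Y9

theorem sd_rot' (v w : Vtx) : sd (rV v) (rV w) = sd v w := by
  simp only [sd, rV, Equiv.coe_fn_mk]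
  have h : -v.2 - -w.2 = -(v.2 - w.2) := by ring
  rw [h, abs_neg, max_comm]

theorem cutW_congr {κ M B U n : ℕ} {w w' : ℕ → Vtx} {v : Vtx} (h : ∀ s ≤ n, w' s = w s)
    (hw : CutW κ M B U n w v) : CutW κ M B U n w' v := by
  obtain ⟨i, j, l, hij, hjl, hln, h1, h2, h3, h4, h5, h6⟩ := hw
  refine ⟨i, j, l, hij, hjl, hln, ?_, ?_, ?_, ?_, ?_, ?_⟩
  · rw [h j (hjl.trans hln)]
    exact h1
  · rw [h i ((hij.trans hjl).trans hln)]
    exact h2
  · rw [h l hln]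
    exact h3
  · intro s s' his hss hsj
    rw [h s ((hss.trans hsj).trans (hjl.trans hln)), h s' (hsj.trans (hjl.trans hln))]
    exact h4 s s' his hss hsj
  · intro s s' hjs hss hsl
    rw [h s ((hss.trans hsl).trans hln), h s' (hsl.trans hln)]
    exact h5 s s' hjs hss hsl
  · intro s s' his hsj hjs hsl
    rw [h s (hsj.trans (hjl.trans hln)), h s' (hsl.trans hln)]
    exact h6 s s' his hsj hjs hsl

theorem cutW_rot {κ M B U n : ℕ} {w : ℕ → Vtx} {v : Vtx}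
    (hw : CutW κ M B U n (fun s => rV (w s)) (rV v)) : CutW κ M B U n w v := by
  unfold CutW at hw ⊢
  simp only [sd_rot'] at hw
  exact hw

theorem rS_surj (ρ : St) : ∃ ρ' : St, rS ρ' = ρ := by
  obtain ⟨x, q⟩ := ρ
  have hq : ∃ q', rQ q' = q := by
    cases q
    · exact ⟨.se, rfl⟩
    · exact ⟨.ne, rfl⟩
    · exact ⟨.nw, rfl⟩
    · exact ⟨.sw, rfl⟩
  obtain ⟨q', rfl⟩ := hq
  obtain ⟨x', rfl⟩ := rV.surjective x
  exact ⟨(x', q'), rfl⟩

theorem loc {κ K B U : ℕ} (σ : St) (W F G : Set Edg) (v : Vtx) (h : ∀ e ∈ W, (e ∈ F ↔ e ∈ G))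
    (hA : CutA κ K B U σ W F v) : CutA κ K B U σ W G v := by
  obtain ⟨ρ, n, s0, hs0, hE, ⟨hR, hD⟩, hC⟩ := hA
  have hE' : ∀ e ∈ Exm F ρ n, (e ∈ F ↔ e ∈ G) := fun e he => h e (hE e he)
  refine ⟨ρ, n, s0, hs0, ?_, ⟨?_, ?_⟩, ?_⟩
  · rw [Exm_congr hE']
    exact hE
  · rw [orb_congr hE' hs0]
    have e1 : G ∩ W = F ∩ W := by
      ext e
      constructor
      · rintro ⟨h1, h2⟩
        exact ⟨(h e h2).2 h1, h2⟩
      · rintro ⟨h1, h2⟩
        exact ⟨(h e h2).1 h1, h2⟩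
    rw [e1]
    exact hR
  · rw [orb_congr hE' hs0]
    have e1 : W \ G = W \ F := by
      ext e
      constructor
      · rintro ⟨h1, h2⟩
        exact ⟨h1, fun h3 => h2 ((h e h1).1 h3)⟩
      · rintro ⟨h1, h2⟩
        exact ⟨h1, fun h3 => h2 ((h e h1).2 h3)⟩
    rw [e1]
    exact hD
  · refine cutW_congr (fun s hs => ?_) hC
    show (orb G ρ s).1 = (orb F ρ s).1
    rw [orb_congr hE' hs]

theorem mono {κ K B U : ℕ} (σ : St) (W F : Set Edg) (v : Vtx)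
    (hA : CutA κ K B U σ W F v) : CutA κ K B U σ Set.univ F v := by
  obtain ⟨ρ, n, s0, hs0, -, ⟨hR, hD⟩, hC⟩ := hA
  refine ⟨ρ, n, s0, hs0, fun e _ => Set.mem_univ e, ⟨?_, ?_⟩, hC⟩
  · exact hR.mono (Set.inter_subset_inter_right _ (Set.subset_univ _))
  · exact hD.mono (show W \ F ⊆ Set.univ \ F from fun e he => ⟨Set.mem_univ e, he.2⟩)

theorem back {κ K B U : ℕ} (σ σ' : St) (F : Set Edg) (v : Vtx) (h1 : Reach F σ.1 σ'.1)
    (h2 : DReach Fᶜ (face σ) (face σ')) (hA : CutA κ K B U σ' Set.univ F v) :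
    CutA κ K B U σ Set.univ F v := by
  obtain ⟨ρ, n, s0, hs0, hE, ⟨hR, hD⟩, hC⟩ := hA
  rw [Set.inter_univ] at hR
  rw [← Set.compl_eq_univ_sdiff] at hD
  refine ⟨ρ, n, s0, hs0, hE, ⟨?_, ?_⟩, hC⟩
  · rw [Set.inter_univ]
    exact h1.trans hR
  · rw [← Set.compl_eq_univ_sdiff]
    exact h2.trans hD

theorem rot {κ K B U : ℕ} (σ : St) (F : Finset Edg) (v : Vtx)
    (hA : CutA κ K B U (rS σ) Set.univ (↑(rM F)) (rV v)) : CutA κ K B U σ Set.univ (↑F) v := by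
  obtain ⟨ρ', n, s0, hs0, -, ⟨hR, hD⟩, hC⟩ := hA
  obtain ⟨ρ, rfl⟩ := rS_surj ρ'
  rw [Set.inter_univ, rot_orb] at hR
  rw [← Set.compl_eq_univ_sdiff, rot_orb, rot_face, rot_face] at hD
  refine ⟨ρ, n, s0, hs0, fun e _ => Set.mem_univ e, ⟨?_, ?_⟩, ?_⟩
  · rw [Set.inter_univ]
    exact rot_reach.1 hR
  · rw [← Set.compl_eq_univ_sdiff]
    exact rot_dreach.1 hD
  · refine cutW_rot (cutW_congr (fun s _ => ?_) hC)
    show rV (orb (↑F) ρ s).1 = (orb (↑(rM F)) (rS ρ) s).1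
    rw [rot_orb]
    rfl

end Y9

/-- OKP: the passages have these properties. -/
theorem okp : St_OKP := fun _ _ _ _ =>
  { loc := fun σ W F G v h hA => Y9.loc σ W F G v h hA
    mono := fun σ W F v hA => Y9.mono σ W F v hA
    back := fun σ σ' F v h1 h2 hA => Y9.back σ σ' F v h1 h2 hA
    rot := fun σ F v hA => Y9.rot σ F v hA }

end Pool.Agent.N948.XE
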