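import Pool.Agent.N948.IX.Fin3
import Pool.Agent.N948.XE.Y1
import Pool.Agent.N948.XE.Y2
import Pool.Agent.N948.XE.Y3
import Pool.Agent.N948.XE.Y4
import Pool.Agent.N948.XE.Y5
import Pool.Agent.N948.XE.Y6
import Pool.Agent.N948.XE.Y7
import Pool.Agent.N948.XE.Y8
import Pool.Agent.N948.XE.Y9
import Pool.Agent.N948.XE.Y10
import Pool.Agent.N948.XE.Y11
import Pool.Agent.N948.XE.Y12
import Pool.Agent.N948.XE.Y13
import Pool.Agent.N948.XE.Y14
import Pool.Agent.N948.XE.Y15
import Pool.Agent.N948.XE.Y16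
import Pool.Agent.N948.XE.Y17
import Pool.Agent.N948.XE.Y18

/-!
# Project XE (helper948): assembly
-/

set_option autoImplicit false

namespace Pool.Agent.N948.XE

open H974 H12S Finset H389NS H984P H984N H342P H342L H342T
open MeasureTheory Filter Topology Pool.Agent.W92.DP Pool.Agent.W822.PD Pool.Agent.N948.IX
open scoped ENNReal NNReal

theorem hhitf' : St_HITf := hitf basic oBasic restr oRestr lkOut hflux
theorem hone6 : St_ONE6 :=
  one6 basic oBasic restr oRestr hmom hsh1 shl hioUp glw cor6 hpio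
theorem htwo6 : St_TWO6 := two6 basic restr hioUp
theorem hgood6 : St_GOOD6 := good6 hone6 htwo6
theorem hmono6 : St_MONO6 := mono6 basic oBasic
theorem hcut6 : St_CUT6 := cut6 basic oBasic restr oRestr hl1
theorem hcono6 : St_CONO6 := cono6 basic oBasic hhito
theorem hcond6 : St_COND6 := cond6 basic oBasic hhitd hhitf'
theorem hdet6 : St_DET6 := det6 hcut6 hcono6 hcond6
theorem htri6 : St_TRI6 := tri6 hgood6 hmono6 hdet6
theorem hpar6 : St_PAR6 := par6 htri6 okp (low6 ite6) big6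
theorem hll6 : St_LL6 := ll6 hpar6 cur6 llc6
theorem hul6 : St_UL6 := ul6 hioUp

theorem e34 : ENNReal.ofReal (3/4) = 3/4 := by
  rw [ENNReal.ofReal_div_of_pos (by norm_num)]
  norm_num

theorem lt2334 : (2/3 : ℝ≥0∞) < 3/4 := by
  rw [← e34, ← Y18.e23, ENNReal.ofReal_lt_ofReal_iff (by norm_num)]
  norm_num

theorem e54 : (2 : ℝ≥0∞) - ENNReal.ofReal (5/4) = 3/4 := by
  have h2 : (2 : ℝ≥0∞) = ENNReal.ofReal 2 := by norm_num
  rw [h2, ← ENNReal.ofReal_sub _ (by norm_num), ← e34]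
  norm_num

theorem fin {sel : (n : ℕ) → Finset Plain.Edge → ℤ × ℤ}
    {γ : (n : ℕ) → Finset Plain.Edge → Curve} (hT : Tr sel γ) {k : ℕ → ℕ}
    (hk : Tendsto k atTop atTop) {μ : ProbabilityMeasure Curve}
    (hμ : Tendsto (fun i => lawOf (k i) (γ (k i))) atTop (𝓝 μ)) :
    ∀ᵐ c : Curve ∂(μ : Measure Curve), dimH (LCc c.path) = 3/4 ∧
      dimH (LCc c.path ∩ Sq) = 3/4 ∧ dimH (LCc c.path \ Sq) ≤ 2/3 := by
  filter_upwards [hll6 sel γ hT k hk μ hμ, hul6 sel γ hT k hk μ hμ Set.univ,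
    bl6 sel γ hT k hk μ hμ] with c low up hout
  have hdim : dimH (Set.univ : Set ℂ) = 2 := by
    have h := Real.dimH_univ_eq_finrank ℂ
    rw [h, Complex.finrank_real_complex]
    norm_num
  have hin : dimH (LCc c.path ∩ Sq) ≤ 3/4 := by
    have h := up.1
    rw [Set.inter_univ, hdim, e54] at h
    exact h
  have hun : dimH (LCc c.path) = max (dimH (LCc c.path ∩ Sq)) (dimH (LCc c.path \ Sq)) := by
    rw [← dimH_union, Set.inter_union_sdiff]
  have heq : dimH (LCc c.path ∩ Sq) = 3/4 := by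
    apply le_antisymm hin
    rw [hun] at low
    rcases le_max_iff.mp low with h | h
    · exact h
    · exact absurd (h.trans hout) (not_le.mpr lt2334)
  refine ⟨?_, heq, hout⟩
  rw [hun, heq]
  exact max_eq_left (hout.trans lt2334.le)

end Pool.Agent.N948.XE
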