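import Pool.Agent.N948.IX.Ex1
import Pool.Agent.W822.PD.Stm

/-!
# Project XE (helper948): local cut points of the limits of the perimeter of the largest cluster.
Definitions and statements on the lattice (as propositions, nothing is assumed).
-/

set_option autoImplicit false

namespace Pool.Agent.N948.XE

open H974 H906.Cyl H12S Finset H389NS H984P H984N H342P H984P.SideAux
open Pool.Agent.W92.DP Pool.Agent.W822.PD Pool.Agent.N948.IX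

/-! ### The event, with corridors to the two strips -/

/-- Open and dual corridors to the strips `-28U ≤ y ≤ -4U` (open) and `44U ≤ y ≤ 68U` (dual). -/
def CorX (c : Vtx) (U : ℤ) (G : Finset Edg) : Prop :=
  (LRc (c.1 - 14 * U) (c.1 + 6 * U) (c.2 - 14 * U) (c.2 - 12 * U) G ∧
    TBc (c.1 - 14 * U) (c.1 - 12 * U) (c.2 - 14 * U) (c.2 + 4 * U) G ∧
    TBc (c.1 + 2 * U) (c.1 + 6 * U) (-(28 * U)) (c.2 - 12 * U) G) ∧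
  (DLR (c.1 - 10 * U) (c.1 + 6 * U) (c.2 - 10 * U) (c.2 - 8 * U) G ∧
    DTB (c.1 - 10 * U) (c.1 - 8 * U) (c.2 - 10 * U) (68 * U) G)

/-- The event in the fresh configuration. -/
def QX (a : ℕ) (c : Vtx) (U : ℤ) (G : Finset Edg) : Prop := Gd2 c a (↑G : Set Edg) ∧ CorX c U G

/-- It has positive probability. -/
def St_COR6 : Prop := ∀ a : ℕ, 2 ≤ a → ∃ (k : ℝ) (U0 : ℕ), 0 < k ∧ ∀ (U : ℕ) (S : Finset Edg),
  U0 ≤ U → SC U ⊆ S → ∀ c ∈ core4 (U : ℤ), k ≤ PQ (1/2) S (QX a c U)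

/-- **The event**: a good pair, joined at the core and connected to the strips. -/
def E6 (M M' B N a L m : ℕ) (c : Vtx) (F : Finset Edg) : Prop :=
  ∃ (σ τ : St) (T T' : ℕ) (G : Finset Edg), GIOm M M' B N L m c a (↑F : Set Edg) σ τ T T' ∧
    (∀ e, e ∉ Exm (↑F : Set Edg) σ T → e ∉ Exm (↑F : Set Edg) τ T' → (e ∈ F ↔ e ∈ G)) ∧
    QX a c (L * m : ℕ) G

/-- One-point lower bound. -/
def St_ONE6 : Prop := ∃ (L M0 B a M M' N r0 : ℕ) (k : ℝ), 2 ≤ L ∧ 64 ≤ M0 ∧ 2 ≤ B ∧ 2 ≤ a ∧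
  1 ≤ M ∧ 1 ≤ M' ∧ 81 ≤ N ∧ 1 ≤ r0 ∧ 0 < k ∧ ∀ (r : ℕ) (S : Finset Edg), r0 ≤ r →
    SC (L * (M0 * r) : ℕ) ⊆ S → ∀ c ∈ core4 (L * (M0 * r) : ℕ),
    k * ((M0 * r : ℕ) : ℝ) ^ (-(5/4) : ℝ) ≤ PQ (1/2) S (E6 M M' B N a L (M0 * r) c)

/-- Two-point upper bound. -/
def St_TWO6 : Prop := ∀ M M' B N a L : ℕ, 2 ≤ L → 2 ≤ a → ∃ (C : ℝ) (m0 : ℕ), 0 < C ∧ 64 ≤ m0 ∧
  ∀ m : ℕ, m0 ≤ m → ∀ v ∈ core4 (L * m : ℕ), ∀ w ∈ core4 (L * m : ℕ), ∀ S : Finset Edg,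
    SC (L * m : ℕ) ⊆ S →
    PQ (1/2) S (fun F => E6 M M' B N a L m v F ∧ E6 M M' B N a L m w F) ≤
      C * ((max (sd v w) 1 : ℤ) : ℝ) ^ (-(5/4) : ℝ) * (m : ℝ) ^ (-(5/4) : ℝ)

open Classical in
/-- The vertices of the core with the event `E6`. -/
noncomputable def V6 (M M' B N a L m : ℕ) (F : Finset Edg) : Finset Vtx :=
  (core4 (L * m : ℕ)).filter (fun v => E6 M M' B N a L m v F)

/-- Many vertices, small energy, probability bounded below. -/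
def St_GOOD6 : Prop := ∀ t : ℝ, 0 < t → t < 3/4 →
  ∃ (L M0 B a M M' N r0 : ℕ) (c0 E0 p : ℝ), 2 ≤ L ∧ 64 ≤ M0 ∧ 2 ≤ B ∧ 2 ≤ a ∧ 1 ≤ M ∧ 1 ≤ M' ∧
    81 ≤ N ∧ 1 ≤ r0 ∧ 0 < c0 ∧ 0 < E0 ∧ 0 < p ∧ p ≤ 1 ∧
    ∀ (r : ℕ) (S : Finset Edg), r0 ≤ r → SC (L * (M0 * r) : ℕ) ⊆ S →
      p ≤ PQ (1/2) S (fun F =>
        c0 * ((M0 * r : ℕ) : ℝ) ^ (3/4 : ℝ) ≤ ((V6 M M' B N a L (M0 * r) F).card : ℝ) ∧
        EnV t (V6 M M' B N a L (M0 * r) F) ≤ E0 * ((M0 * r : ℕ) : ℝ) ^ (3/2 - t))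

/-- The event is monotone in the strips and depends only on the edges of `SC U`. -/
def St_MONO6 : Prop := ∀ (M M' B N a L m : ℕ) (F G : Finset Edg), 1 ≤ L * m → 100 * a ≤ L * m →
  F ∩ RE (-(27 * (L * m : ℕ))) (27 * (L * m : ℕ)) (-(3 * (L * m : ℕ))) (43 * (L * m : ℕ)) =
    G ∩ RE (-(27 * (L * m : ℕ))) (27 * (L * m : ℕ)) (-(3 * (L * m : ℕ))) (43 * (L * m : ℕ)) →
  (∀ e ∈ SC (L * m : ℕ), e.2.1 ≤ 12 * (L * m : ℕ) → e ∈ F → e ∈ G) →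
  (∀ e ∈ SC (L * m : ℕ), 12 * (L * m : ℕ) ≤ e.2.1 → e ∈ G → e ∈ F) →
  ∀ v ∈ core4 (L * m : ℕ), E6 M M' B N a L m v F → E6 M M' B N a L m v G

/-! ### Passages of the interface -/

/-- A passage of the interface near `v`, with separated sides, which belongs to the same interface
as `σ`: its vertices are joined to the vertex of `σ` by open edges of `W`, its faces to the face of
`σ` by closed edges of `W`. Only the edges of `W` are used. -/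
def CutA (κ K B U : ℕ) (σ : St) (W F : Set Edg) (v : Vtx) : Prop :=
  ∃ (ρ : St) (n s0 : ℕ), s0 ≤ n ∧ (∀ e ∈ Exm F ρ n, e ∈ W) ∧
    (Reach (F ∩ W) σ.1 (orb F ρ s0).1 ∧ DReach (W \ F) (face σ) (face (orb F ρ s0))) ∧
    CutW κ K B U n (fun s => (orb F ρ s).1) v

/-- The same with the parameter `a = 6 U`. -/
def CutP (κ K B a : ℕ) (σ : St) (W F : Set Edg) (v : Vtx) : Prop := CutA κ K B (a / 6) σ W F v

/-- CUT: the passage (in the configuration with the good pair). -/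
def St_CUT6 : Prop := ∀ M M' B N a L : ℕ, 2 ≤ L → 2 ≤ a → 2 ≤ B → 81 ≤ N → 1 ≤ M → 1 ≤ M' →
  ∃ κ K m0 : ℕ, 1 ≤ K ∧ ∀ (F G : Finset Edg) (c : Vtx) (m : ℕ) (σ τ : St) (T T' : ℕ), m0 ≤ m →
    GIOm M M' B N L m c a (↑F : Set Edg) σ τ T T' →
    (∀ e, e ∉ Exm (↑F : Set Edg) σ T → e ∉ Exm (↑F : Set Edg) τ T' → (e ∈ F ↔ e ∈ G)) →
    Gd2 c a (↑G : Set Edg) → 1 < T ∧ ∃ n : ℕ, 1 ≤ n ∧
      (∀ s < n, lv c (src (ae (orb (↑F : Set Edg) σ s))) ≤ 16 * (L * m : ℕ) - 1) ∧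
      CutW κ K B (L * m) n (fun s => (orb (↑F : Set Edg) σ s).1) c

/-- CONO: the right vertices of the inward crossing are joined to the lower strip. -/
def St_CONO6 : Prop := ∀ M M' B N a L : ℕ, 2 ≤ L → 2 ≤ a → ∃ m0 : ℕ,
  ∀ (F G : Finset Edg) (c : Vtx) (m : ℕ) (σ τ : St) (T T' : ℕ), m0 ≤ m → c ∈ core4 (L * m : ℕ) →
    GIOm M M' B N L m c a (↑F : Set Edg) σ τ T T' →
    (∀ e, e ∉ Exm (↑F : Set Edg) σ T → e ∉ Exm (↑F : Set Edg) τ T' → (e ∈ F ↔ e ∈ G)) →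
    CorX c (L * m : ℕ) G → ∀ p q : Vtx, p.1 ≤ -(27 * (L * m : ℕ)) → 27 * (L * m : ℕ) ≤ q.1 →
    Reach (↑F ∩ ↑(RE (-(144 * (L * m : ℕ))) (144 * (L * m : ℕ)) (-(28 * (L * m : ℕ)))
      (-(4 * (L * m : ℕ)))) : Set Edg) p q →
    ∀ s, 0 < s → s < T → Reach (↑F ∩ ↑(RE (-(144 * (L * m : ℕ))) (144 * (L * m : ℕ))
      (-(28 * (L * m : ℕ))) (68 * (L * m : ℕ))) : Set Edg) p (orb (↑F : Set Edg) σ s).1

/-- COND: the left faces of the inward crossing are joined to the upper strip. -/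
def St_COND6 : Prop := ∀ M M' B N a L : ℕ, 2 ≤ L → 2 ≤ a → ∃ m0 : ℕ,
  ∀ (F G : Finset Edg) (c : Vtx) (m : ℕ) (σ τ : St) (T T' : ℕ), m0 ≤ m → c ∈ core4 (L * m : ℕ) →
    GIOm M M' B N L m c a (↑F : Set Edg) σ τ T T' →
    (∀ e, e ∉ Exm (↑F : Set Edg) σ T → e ∉ Exm (↑F : Set Edg) τ T' → (e ∈ F ↔ e ∈ G)) →
    CorX c (L * m : ℕ) G → ∀ (p q : Vtx) (D : Set Edg), p.1 ≤ -(27 * (L * m : ℕ)) →
    27 * (L * m : ℕ) ≤ q.1 →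
    (∀ e ∈ D, e ∈ RE (-(144 * (L * m : ℕ)) - 1) (144 * (L * m : ℕ) + 1) (44 * (L * m : ℕ) - 1)
      (68 * (L * m : ℕ) + 1) ∧ e ∉ F ∧
      dl e ∈ RE (-(144 * (L * m : ℕ))) (144 * (L * m : ℕ)) (44 * (L * m : ℕ)) (68 * (L * m : ℕ))) →
    DReach D p q → ∀ s, 0 < s → s < T →
    DReach (D ∪ (↑(RE (-(27 * (L * m : ℕ))) (27 * (L * m : ℕ)) (-(28 * (L * m : ℕ)))
      (68 * (L * m : ℕ))) \ ↑F) : Set Edg) p (face (orb (↑F : Set Edg) σ s))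

/-- DET: deterministic part of a trial, `U = L m`, `a = 6 U`, `z = (X + 32 a, Y - 20 U)`. -/
def St_DET6 : Prop := ∀ M M' B N a0 L : ℕ, 2 ≤ L → 2 ≤ a0 → 2 ≤ B → 81 ≤ N → 1 ≤ M → 1 ≤ M' →
  ∃ κ K m0 : ℕ, 1 ≤ K ∧ ∀ (m a : ℕ) (F : Finset Edg) (A y0 X Y : ℤ) (T : ℕ)
  (hv hf : Vtx → ZMod 2), m0 ≤ m → a = 6 * (L * m) → Strand (↑F : Set Edg) A y0 X Y T →
  LEv X Y a {v | ∃ s ≤ T, (orb (↑F) (st0 A y0) s).1 = v} (Tlow (↑F) A y0 X Y T a hv) ↑F →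
  UEv X Y a {f | ∃ s ≤ T, face (orb (↑F) (st0 A y0) s) = f} (Tup (↑F) A y0 X Y T a hf) ↑F →
  ∀ v ∈ core4 (L * m : ℕ), E6 M M' B N a0 L m v (tr (X + 32 * a, Y - 20 * (L * m : ℕ)) F) →
    CutA κ K B (L * m) (st0 A y0) (↑(Exm (↑F) (st0 A y0) T ∪ Bl X Y a)) ↑F
      (v.1 + (X + 32 * a), v.2 + (Y - 20 * (L * m : ℕ)))

/-! ### The trials, for a general predicate -/

/-- Many vertices with the property `P`, with small energy. -/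
def RP (P : St → Set Edg → Set Edg → Vtx → Prop) (t c E : ℝ) (a : ℕ) (σ : St)
    (W F : Set Edg) : Prop :=
  ∃ V : Finset Vtx, c * (a : ℝ) ^ (3/4 : ℝ) ≤ (V.card : ℝ) ∧
    EnV t V ≤ E * (a : ℝ) ^ (3/2 - t) ∧ ∀ v ∈ V, P σ W F v

/-- Trials create many vertices with the property `P` with probability at least `δ`. -/
def TrialP (P : St → Set Edg → Set Edg → Vtx → Prop) (t c E : ℝ) (S : Finset Edg) (A y0 : ℤ)
    (a : ℕ) (δ : ℝ) : Prop :=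
  ∀ (k F0 : Finset Edg) (X Y : ℤ) (T : ℕ),
    F0 ⊆ S → k ⊆ S → Strand (↑F0 : Set Edg) A y0 X Y T → A + 100 * a ≤ X →
    Bl X Y a ⊆ S → ((A - 1, y0, true) : Edg) ∈ k → Exm (↑F0) (st0 A y0) T ⊆ k →
    (∀ e ∈ k, e ∈ Bl X Y a → e ∈ Exm (↑F0) (st0 A y0) T) →
    δ ≤ Pr (fun _ => (1/2:ℝ)) (S \ k) (fun G => RP P t c E a (st0 A y0)
        (↑(Exm (↑F0) (st0 A y0) T ∪ Bl X Y a)) (↑((F0 ∩ k) ∪ G)))

/-- Locality, monotonicity, dependence on the interface only, and rotation invariance. -/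
structure OkP (P : St → Set Edg → Set Edg → Vtx → Prop) : Prop where
  loc : ∀ (σ : St) (W F G : Set Edg) (v : Vtx), (∀ e ∈ W, (e ∈ F ↔ e ∈ G)) → P σ W F v → P σ W G v
  mono : ∀ (σ : St) (W F : Set Edg) (v : Vtx), P σ W F v → P σ Set.univ F v
  back : ∀ (σ σ' : St) (F : Set Edg) (v : Vtx), Reach F σ.1 σ'.1 →
    DReach Fᶜ (face σ) (face σ') → P σ' Set.univ F v → P σ Set.univ F v
  rot : ∀ (σ : St) (F : Finset Edg) (v : Vtx), P (rS σ) Set.univ (↑(rM F)) (rV v) →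
    P σ Set.univ (↑F) v

/-- OKP: the passages have these properties. -/
def St_OKP : Prop := ∀ κ K B a : ℕ, OkP (CutP κ K B a)

/-- TRI: trials create many passages with a probability bounded below. -/
def St_TRI6 : Prop := ∀ t : ℝ, 0 < t → t < 3/4 → ∃ (κ K B M r0 : ℕ) (c E δ : ℝ), 1 ≤ K ∧ 2 ≤ B ∧
  0 < M ∧ 0 < c ∧ 0 < E ∧ 0 < δ ∧ ∀ (S : Finset Edg) (A y0 : ℤ) (r : ℕ), r0 ≤ r →
    TrialP (CutP κ K B (6 * (M * r))) t c E S A y0 (6 * (M * r)) δ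

/-- ITE: iteration of the trials. -/
def St_ITE6 : Prop := ∀ (P : St → Set Edg → Set Edg → Vtx → Prop), OkP P →
  ∀ (t c E : ℝ) (S : Finset Edg) (A y0 H : ℤ) (a K : ℕ) (δ : ℝ), 1 ≤ a →
  1 ≤ K → 0 ≤ δ → δ ≤ 1 →
  RE (A - 60 * a) (A + 121 * a * K + 60 * a) (y0 - H - 60 * a) (y0 + H + 60 * a) ⊆ S →
  TrialP P t c E S A y0 a δ →
  Pr (fun _ => (1/2:ℝ)) S
      (fun F => Long' A y0 H a K (↑F) ∧ ¬ RP P t c E a (st0 A y0) Set.univ (↑F)) ≤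
    (1 - δ) ^ K * Pr (fun _ => (1/2:ℝ)) S (fun F => Long' A y0 H a 1 (↑F))

/-- LOW: union bound over the starts and the four directions. -/
def St_LOW6 : Prop := ∃ C : ℝ, 0 < C ∧ ∀ (P : St → Set Edg → Set Edg → Vtx → Prop), OkP P →
  ∀ (t c E : ℝ) (n a K : ℕ) (δ : ℝ) (R : ℤ), 5 ≤ a →
    1 ≤ K → 0 ≤ δ → δ ≤ 1 →
    (∀ b c' A y0 : ℤ, TrialP P t c E (RE b (b + n) c' (c' + n)) A y0 a δ) →
    121 * a * K + a + 2 ≤ R →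
    Pr (fun _ => (1/2:ℝ)) (RE 0 n 0 n) (fun F => ∃ σ : St,
      inR (3 * R + 60 * a) (n - 3 * R - 60 * a) (3 * R + 60 * a) (n - 3 * R - 60 * a) σ.1 ∧
      (∃ t, Far σ.1 R (orb (↑F) σ t).1) ∧ ¬ RP P t c E a σ Set.univ (↑F)) ≤
      C * ((n:ℝ) / a + 1) ^ 2 * (1 - δ) ^ K

/-- BIG: deterministic conclusion for the largest cluster. -/
def St_BIG6 : Prop := ∀ (P : St → Set Edg → Set Edg → Vtx → Prop) (t c E : ℝ) (a n : ℕ)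
  (F : Finset Edg) (R R1 m : ℤ), F ⊆ RE 0 n 0 n →
  Big n m (↑F) → 1 ≤ R → R1 < m → 2 * R < m → ¬ LayEv n R1 m (↑F) →
  (¬ ∃ σ : St, inR R1 (n - R1) R1 (n - R1) σ.1 ∧
      (∃ t, Far σ.1 R (orb (↑F) σ t).1) ∧ ¬ RP P t c E a σ Set.univ (↑F)) →
  ∀ v, IsMax n (↑F) v → ∃ σ : St, Reach (↑F) v σ.1 ∧ Outer (↑F) v (face σ) ∧
    RP P t c E a σ Set.univ (↑F)

/-- PAR: choice of the parameters. -/
def St_PAR6 : Prop := ∀ t : ℝ, 0 < t → t < 3/4 → ∃ κ K B : ℕ, 1 ≤ K ∧ 2 ≤ B ∧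
  ∀ δ : ℝ, 0 < δ → ∃ ρ c E : ℝ, 0 < ρ ∧ 0 < c ∧ 0 < E ∧ ∃ n0 : ℕ, ∀ n : ℕ, n0 ≤ n →
    Pr (fun _ => (1/2:ℝ)) (RE 0 n 0 n)
    (fun F => ∃ v, IsMax n (↑F) v ∧ ¬ ∃ (u : ℕ) (σ : St), ρ * n ≤ (u : ℝ) ∧ u ≤ n ∧
      Reach (↑F) v σ.1 ∧ Outer (↑F) v (face σ) ∧
      RP (CutA κ K B u) t c E n σ Set.univ (↑F)) ≤ δ

end Pool.Agent.N948.XE
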