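import Pool.Agent.N948.XE.Stm
import Pool.Agent.W822.PD.StmC

/-!
# Project XE (helper948): local cut points of the limits of the perimeter of the largest cluster.
Statements on the curves (as propositions, nothing is assumed).
-/

set_option autoImplicit false

namespace Pool.Agent.N948.XE

open H974 H906.Cyl H12S Finset H389NS H984P H984N H342P H342L H342T H984P.SideAux
open MeasureTheory Filter Topology
open Pool.Agent.W92.DP Pool.Agent.W822.PD Pool.Agent.N948.IX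
open scoped ENNReal NNReal

/-- The local cut points: the points `f t` such that for some `s < t < u` the pieces `f [s, t]` and
`f [t, u]` have no other point in common, and neither `f s` nor `f u` is this point. -/
def LCc (f : C(unitInterval, ℂ)) : Set ℂ :=
  {z | ∃ s t u : unitInterval, s < t ∧ t < u ∧ f t = z ∧ f s ≠ z ∧ f u ≠ z ∧
    f '' Set.Icc s t ∩ f '' Set.Icc t u ⊆ {z}}

/-- A compact square. -/
def K2 : Set ℂ := Set.Icc (-1) 2 ×ℂ Set.Icc (-1) 2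

/-- CUR: the tracing path runs through the passages. -/
def St_CUR6 : Prop := ∀ κ K B : ℕ, 1 ≤ B → ∀ (n : ℕ) (F : Finset Plain.Edge) (v : Vtx) (c : Curve),
  0 < n → κ + 1 ≤ n → F ⊆ Plain.edges n → IsTrace n F v c → ∃ x0 : Vtx, ∀ (u d : ℕ) (σ : St)
  (w : Vtx), κ + 2 ≤ d → d ≤ 3 * u → Reach (↑F) v σ.1 → H342P.Outer (↑F) v (face σ) →
    CutA κ K B u σ Set.univ (↑F) w → (d : ℤ) ≤ sd w x0 →
    ∀ q ε' : ℝ, (u : ℝ) / n ≤ q → (2 * (κ : ℝ) + 3) / n ≤ ε' →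
      pt n w ∈ QQ ((d : ℝ) / n) (8 * K * q + 8 + 4 ^ B * (K * q ^ (B - 1) + 1)) B ε' K2 c.path

/-- LLC: abstract passage to the limit. -/
def St_LLC6 : Prop := ∀ (μs : ℕ → ProbabilityMeasure Curve) (μ : ProbabilityMeasure Curve),
  Tendsto μs atTop (𝓝 μ) → ∀ t : ℝ, 0 < t →
  (∀ ε : ℝ≥0∞, 0 < ε → ∃ (c η M : ℝ) (B : ℕ) (K : Set ℂ), 0 < c ∧ 0 < η ∧ 0 < M ∧ 1 ≤ B ∧
    IsCompact K ∧ ∀ ε' : ℝ, 0 < ε' → ∀ᶠ i in atTop,
      (μs i : Measure Curve) {γ | ¬ Pool.Agent.H389R2.Dim.Good t ε' c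
        (QQ η M B ε' K γ.path)} ≤ ε) →
  ∀ᵐ γ : Curve ∂(μ : Measure Curve), ENNReal.ofReal t ≤ dimH (LCc γ.path)

/-- LL: lower bound for the dimension. -/
def St_LL6 : Prop := ∀ (sel : (n : ℕ) → Finset Plain.Edge → ℤ × ℤ)
  (γ : (n : ℕ) → Finset Plain.Edge → Curve), Tr sel γ → ∀ (k : ℕ → ℕ), Tendsto k atTop atTop →
  ∀ μ : ProbabilityMeasure Curve, Tendsto (fun i => lawOf (k i) (γ (k i))) atTop (𝓝 μ) →
    ∀ᵐ c : Curve ∂(μ : Measure Curve), 3/4 ≤ dimH (LCc c.path)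

/-- UL: upper bound for the local cut points in a fixed set in the open square. -/
def St_UL6 : Prop := ∀ (sel : (n : ℕ) → Finset Plain.Edge → ℤ × ℤ)
  (γ : (n : ℕ) → Finset Plain.Edge → Curve), Tr sel γ → ∀ (k : ℕ → ℕ), Tendsto k atTop atTop →
  ∀ μ : ProbabilityMeasure Curve, Tendsto (fun i => lawOf (k i) (γ (k i))) atTop (𝓝 μ) →
    ∀ T : Set ℂ, ∀ᵐ c : Curve ∂(μ : Measure Curve),
      dimH (LCc c.path ∩ T ∩ Sq) ≤ dimH T - ENNReal.ofReal (5/4) ∧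
      (μH[5/4] T = 0 → LCc c.path ∩ T ∩ Sq = ∅)

/-- BL: the local cut points at the boundary of the square have dimension at most `2/3`. -/
def St_BL6 : Prop := ∀ (sel : (n : ℕ) → Finset Plain.Edge → ℤ × ℤ)
  (γ : (n : ℕ) → Finset Plain.Edge → Curve), Tr sel γ → ∀ (k : ℕ → ℕ), Tendsto k atTop atTop →
  ∀ μ : ProbabilityMeasure Curve, Tendsto (fun i => lawOf (k i) (γ (k i))) atTop (𝓝 μ) →
    ∀ᵐ c : Curve ∂(μ : Measure Curve), dimH (LCc c.path \ Sq) ≤ 2/3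

end Pool.Agent.N948.XE
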