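import Pool.Agent.N948.XE.Stm2
import Pool.Agent.N948.IX.X19
import Pool.Agent.W822.PD.LL

/-!
# Project XE (helper948), Y16 (helper301): lower bound for the local cut points of the limits
-/

set_option autoImplicit false

namespace Pool.Agent.N948.XE

open H974 H12S Finset H389NS H984P H984N H342P H342L H342T
open MeasureTheory Filter Topology Pool.Agent.W92.DP
open Pool.Agent.H389R2.Dim (Good good_of_energy)
open Pool.Agent.W822.PD Pool.Agent.N948.IX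
open scoped ENNReal NNReal

namespace Y16

theorem three_quarters_le {x : ℝ≥0∞}
    (h : ∀ n : ℕ, ENNReal.ofReal (3/4 - (1/2) / ((n : ℝ) + 1)) ≤ x) : 3/4 ≤ x := by
  have h1 : Tendsto (fun n : ℕ => ENNReal.ofReal (3/4 - (1/2) / ((n : ℝ) + 1))) atTop
      (𝓝 (ENNReal.ofReal (3/4))) := by
    apply ENNReal.tendsto_ofReal
    have h2 : Tendsto (fun n : ℕ => (1/2 : ℝ) / ((n : ℝ) + 1)) atTop (𝓝 0) := by
      have := (tendsto_one_div_add_atTop_nhds_zero_nat (𝕜 := ℝ)).const_mul (1/2)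
      rw [mul_zero] at this
      refine this.congr fun n => ?_
      ring
    have := h2.const_sub (3/4 : ℝ)
    rwa [sub_zero] at this
  have h2 := le_of_tendsto' h1 h
  refine le_trans (le_of_eq ?_) h2
  rw [ENNReal.ofReal_div_of_pos (by norm_num)]
  norm_num

/-! ### Closedness -/

theorem QQ_rep (η M : ℝ) (B : ℕ) (ε : ℝ) (K : Set ℂ) (f : C(unitInterval, ℂ))
    (φ : unitInterval ≃o unitInterval) : QQ η M B ε K (rep f φ) = QQ η M B ε K f := by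
  have key : ∀ (g : C(unitInterval, ℂ)) (ψ : unitInterval ≃o unitInterval),
      QQ η M B ε K (rep g ψ) ⊆ QQ η M B ε K g := by
    rintro g ψ z ⟨hz, s, u, v, h1, h2, h3, h4, h5, h6, h7, h8⟩
    refine ⟨hz, ψ s, ψ u, ψ v, ψ.monotone h1, ψ.monotone h2, h3, h4, h5, ?_, ?_, ?_⟩
    · intro x y hx hxy hy
      have := h6 (ψ.symm x) (ψ.symm y) (ψ.le_symm_apply.2 hx) (ψ.symm.monotone hxy)
        (ψ.symm_apply_le.2 hy)
      rwa [rep_apply, rep_apply, OrderIso.apply_symm_apply, OrderIso.apply_symm_apply] at this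
    · intro x y hx hxy hy
      have := h7 (ψ.symm x) (ψ.symm y) (ψ.le_symm_apply.2 hx) (ψ.symm.monotone hxy)
        (ψ.symm_apply_le.2 hy)
      rwa [rep_apply, rep_apply, OrderIso.apply_symm_apply, OrderIso.apply_symm_apply] at this
    · intro x y hx hxy hy hyv
      have := h8 (ψ.symm x) (ψ.symm y) (ψ.le_symm_apply.2 hx) (ψ.symm_apply_le.2 hxy)
        (ψ.le_symm_apply.2 hy) (ψ.symm_apply_le.2 hyv)
      rwa [rep_apply, rep_apply, OrderIso.apply_symm_apply, OrderIso.apply_symm_apply] at this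
  refine Set.Subset.antisymm (key f φ) ?_
  have h1 := key (rep f φ) φ.symm
  have h2 : rep (rep f φ) φ.symm = f := by
    ext t
    rw [rep_apply, rep_apply, OrderIso.apply_symm_apply]
  rwa [h2] at h1

theorem closed_good {t δ c η M : ℝ} {B : ℕ} {ε : ℝ} {K : Set ℂ} (hK : IsCompact K) :
    IsClosed {γ : Curve | Good t δ c (QQ η M B ε K γ.path)} :=
  isClosed_curve (X19.isClosed_good hK) (fun f φ h => by rwa [QQ_rep])

theorem QQ_eta {η η' M : ℝ} (h : η ≤ η') {B : ℕ} {ε : ℝ} {K : Set ℂ} {f : C(unitInterval, ℂ)} :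
    QQ η' M B ε K f ⊆ QQ η M B ε K f := by
  rintro z ⟨hz, s, u, v, h1, h2, h3, h4, h5, h6⟩
  exact ⟨hz, s, u, v, h1, h2, h3, h.trans h4, h.trans h5, h6⟩

theorem isCompact_K2 : IsCompact K2 := isCompact_Icc.reProdIm isCompact_Icc

/-! ### Energy -/

theorem sd_tri (a b c : Vtx) : sd a c ≤ sd a b + sd b c := by
  unfold sd
  refine max_le ?_ ?_
  · exact (abs_sub_le _ b.1 _).trans (add_le_add (le_max_left _ _) (le_max_left _ _))
  · exact (abs_sub_le _ b.2 _).trans (add_le_add (le_max_right _ _) (le_max_right _ _))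

theorem sd_comm' (a b : Vtx) : sd a b = sd b a := by
  unfold sd
  rw [abs_sub_comm a.1, abs_sub_comm a.2]

theorem term_nonneg (t : ℝ) (v w : Vtx) : 0 ≤ ((max (sd v w) 1 : ℤ) : ℝ) ^ (-t) := by
  apply Real.rpow_nonneg
  have : (1 : ℝ) ≤ ((max (sd v w) 1 : ℤ) : ℝ) := by exact_mod_cast le_max_right (sd v w) 1
  linarith

theorem EnV_mono (t : ℝ) {V W : Finset Vtx} (h : V ⊆ W) : EnV t V ≤ EnV t W := by
  unfold EnV
  refine (Finset.sum_le_sum fun v _ => ?_).trans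
    (Finset.sum_le_sum_of_subset_of_nonneg h fun v _ _ => ?_)
  · exact Finset.sum_le_sum_of_subset_of_nonneg h fun w _ _ => term_nonneg t v w
  · exact Finset.sum_nonneg fun w _ => term_nonneg t v w

theorem exists_eps {t c0 E0 ρ : ℝ} (ht : 0 < t) (hc0 : 0 < c0) (hE0 : 0 < E0) (hρ : 0 < ρ) :
    ∃ e0 : ℝ, 0 < e0 ∧ e0 ≤ ρ ∧ E0 * (4 * e0) ^ t ≤ (c0 / 2) ^ 2 := by
  obtain ⟨A, hA⟩ : ∃ A : ℝ, A = ((c0 / 2) ^ 2 / E0) ^ (1 / t) := ⟨_, rfl⟩
  have hA0 : 0 < A := by rw [hA]; positivity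
  refine ⟨min ρ (A / 4), lt_min hρ (by positivity), min_le_left _ _, ?_⟩
  have h1 : 4 * min ρ (A / 4) ≤ A := by
    have := min_le_right ρ (A / 4)
    linarith
  have h0 : 0 ≤ 4 * min ρ (A / 4) := by
    have := (lt_min hρ (by positivity : 0 < A / 4)).le
    linarith
  have h2 : (4 * min ρ (A / 4)) ^ t ≤ A ^ t := Real.rpow_le_rpow h0 h1 ht.le
  have h3 : A ^ t = (c0 / 2) ^ 2 / E0 := by
    rw [hA, ← Real.rpow_mul (by positivity), one_div, inv_mul_cancel₀ ht.ne', Real.rpow_one]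
  rw [h3] at h2
  calc E0 * (4 * min ρ (A / 4)) ^ t ≤ E0 * ((c0 / 2) ^ 2 / E0) :=
        mul_le_mul_of_nonneg_left h2 hE0.le
    _ = (c0 / 2) ^ 2 := by field_simp

/-- Removing the vertices near one point. -/
theorem remove {t c0 E0 e0 : ℝ} (ht : 0 < t) (hc0 : 0 < c0) (he0 : 0 < e0)
    (he : E0 * (4 * e0) ^ t ≤ (c0 / 2) ^ 2) {n d : ℕ} (hn : 0 < n) (hd1 : 1 ≤ d)
    (hd : (d : ℝ) ≤ 2 * e0 * n) (V : Finset Vtx)
    (hcard : c0 * (n : ℝ) ^ (3/4 : ℝ) ≤ (V.card : ℝ))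
    (hEn : EnV t V ≤ E0 * (n : ℝ) ^ (3/2 - t)) (x0 : Vtx) :
    c0 / 2 * (n : ℝ) ^ (3/4 : ℝ) ≤ ((V.filter (fun w => (d : ℤ) ≤ sd w x0)).card : ℝ) ∧
      EnV t (V.filter (fun w => (d : ℤ) ≤ sd w x0)) ≤ E0 * (n : ℝ) ^ (3/2 - t) := by
  classical
  have hn' : (0:ℝ) < n := by exact_mod_cast hn
  have hd' : (1 : ℝ) ≤ d := by exact_mod_cast hd1
  refine ⟨?_, (EnV_mono t (Finset.filter_subset _ _)).trans hEn⟩
  obtain ⟨V0, hV0⟩ : ∃ V0, V0 = V.filter (fun w => ¬ (d : ℤ) ≤ sd w x0) := ⟨_, rfl⟩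
  have hsplit : ((V.filter (fun w => (d : ℤ) ≤ sd w x0)).card : ℝ) + (V0.card : ℝ) =
      (V.card : ℝ) := by
    rw [hV0]
    exact_mod_cast Finset.card_filter_add_card_filter_not (s := V) (fun w => (d : ℤ) ≤ sd w x0)
  have h1 : (V0.card : ℝ) ^ 2 * (4 * e0 * n) ^ (-t) ≤ EnV t V := by
    refine le_trans ?_ (EnV_mono t (show V0 ⊆ V by rw [hV0]; exact Finset.filter_subset _ _))
    unfold EnV
    have h2 : (V0.card : ℝ) ^ 2 * (4 * e0 * n) ^ (-t) =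
        ∑ v ∈ V0, ∑ w ∈ V0, (4 * e0 * n) ^ (-t) := by
      rw [Finset.sum_const, Finset.sum_const, nsmul_eq_mul, nsmul_eq_mul]
      ring
    rw [h2]
    refine Finset.sum_le_sum fun v hv => Finset.sum_le_sum fun w hw => ?_
    rw [hV0, Finset.mem_filter, not_le] at hv hw
    have h3 : sd v w ≤ 2 * d := by
      have h4 := sd_tri v x0 w
      have h5 := sd_comm' x0 w
      have h6 := hv.2
      have h7 := hw.2
      omega
    have h8 : max (sd v w) 1 ≤ 2 * (d : ℤ) := max_le h3 (by omega)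
    have h9 : ((max (sd v w) 1 : ℤ) : ℝ) ≤ 2 * (d : ℝ) := by exact_mod_cast h8
    have h10 : (1 : ℝ) ≤ ((max (sd v w) 1 : ℤ) : ℝ) := by exact_mod_cast le_max_right (sd v w) 1
    exact Real.rpow_le_rpow_of_nonpos (by linarith) (by linarith) (by linarith)
  have h2 : (V0.card : ℝ) ^ 2 ≤ (c0 / 2 * (n : ℝ) ^ (3/4 : ℝ)) ^ 2 := by
    have e1 : (4 * e0 * n : ℝ) ^ (-t) = (4 * e0) ^ (-t) * (n : ℝ) ^ (-t) :=
      Real.mul_rpow (by positivity) hn'.le
    have h3 := h1.trans hEn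
    rw [e1] at h3
    have hp1 : 0 < (4 * e0) ^ t := by positivity
    have hp2 : 0 < (n : ℝ) ^ t := by positivity
    have e2 : (4 * e0) ^ (-t) * (4 * e0) ^ t = 1 := by
      rw [← Real.rpow_add (by positivity), neg_add_cancel, Real.rpow_zero]
    have e3 : (n : ℝ) ^ (-t) * (n : ℝ) ^ t = 1 := by
      rw [← Real.rpow_add hn', neg_add_cancel, Real.rpow_zero]
    have e4 : (n : ℝ) ^ (3/2 - t) * (n : ℝ) ^ t = (n : ℝ) ^ (3/2 : ℝ) := by
      rw [← Real.rpow_add hn']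
      congr 1
      ring
    have e5 : (c0 / 2 * (n : ℝ) ^ (3/4 : ℝ)) ^ 2 = (c0 / 2) ^ 2 * (n : ℝ) ^ (3/2 : ℝ) := by
      rw [mul_pow, ← Real.rpow_natCast ((n : ℝ) ^ (3/4 : ℝ)) 2, ← Real.rpow_mul hn'.le]
      norm_num
    rw [e5]
    calc (V0.card : ℝ) ^ 2 = (V0.card : ℝ) ^ 2 * (((4 * e0) ^ (-t) * (4 * e0) ^ t) *
          ((n : ℝ) ^ (-t) * (n : ℝ) ^ t)) := by rw [e2, e3]; ring
      _ = ((V0.card : ℝ) ^ 2 * ((4 * e0) ^ (-t) * (n : ℝ) ^ (-t))) *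
          ((4 * e0) ^ t * (n : ℝ) ^ t) := by ring
      _ ≤ (E0 * (n : ℝ) ^ (3/2 - t)) * ((4 * e0) ^ t * (n : ℝ) ^ t) :=
          mul_le_mul_of_nonneg_right h3 (by positivity)
      _ = (E0 * (4 * e0) ^ t) * ((n : ℝ) ^ (3/2 - t) * (n : ℝ) ^ t) := by ring
      _ ≤ (c0 / 2) ^ 2 * ((n : ℝ) ^ (3/2 - t) * (n : ℝ) ^ t) :=
          mul_le_mul_of_nonneg_right he (by positivity)
      _ = (c0 / 2) ^ 2 * (n : ℝ) ^ (3/2 : ℝ) := by rw [e4]
  have h3 : (V0.card : ℝ) ≤ c0 / 2 * (n : ℝ) ^ (3/4 : ℝ) :=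
    (pow_le_pow_iff_left₀ (Nat.cast_nonneg _) (by positivity) two_ne_zero).1 h2
  linarith

/-- Many vertices with small energy whose images belong to `K` make `K` good. -/
theorem good_of_set {n : ℕ} (hn : 0 < n) {t c0 E0 ε' : ℝ}
    (ht : 0 < t) (hc0 : 0 < c0) (hE0 : 0 < E0) (hε' : 1 / (n : ℝ) ≤ ε') (V : Finset Vtx)
    (hcard : c0 * (n : ℝ) ^ (3/4 : ℝ) ≤ (V.card : ℝ))
    (hEn : EnV t V ≤ E0 * (n : ℝ) ^ (3/2 - t)) {K : Set ℂ} (hV : ∀ w ∈ V, pt n w ∈ K) :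
    Good t ε' (2 ^ (-t) / (E0 / c0 ^ 2)) K := by
  classical
  have hn' : (0:ℝ) < n := by exact_mod_cast hn
  have hcpos : (0 : ℝ) < (V.card : ℝ) := lt_of_lt_of_le (by positivity) hcard
  have hne : V.Nonempty := by
    rw [← Finset.card_pos]; exact_mod_cast hcpos
  have hε0 : 0 < ε' := lt_of_lt_of_le (by positivity) hε'
  refine good_of_energy hε0 ht.le (by positivity) (V.image (pt n)) (hne.image _) ?_ ?_
  · intro z hz
    rw [Finset.mem_coe, Finset.mem_image] at hz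
    obtain ⟨w, hw, rfl⟩ := hz
    exact hV w hw
  · rw [Finset.sum_image (fun a _ b _ hab => pt_inj hn hab),
      Finset.card_image_of_injective _ (pt_inj hn)]
    have e1 : ∀ v ∈ V, ∑ y ∈ V.image (pt n), (max (dist (pt n v) y) ε') ^ (-t) ≤
        ∑ w ∈ V, ((n:ℝ)⁻¹) ^ (-t) * ((max (sd v w) 1 : ℤ) : ℝ) ^ (-t) := by
      intro v _
      rw [Finset.sum_image (fun a _ b _ hab => pt_inj hn hab)]
      refine Finset.sum_le_sum fun w _ => ?_
      have hm : (1 : ℝ) ≤ ((max (sd v w) 1 : ℤ) : ℝ) := by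
        exact_mod_cast le_max_right (sd v w) 1
      rw [← Real.mul_rpow (by positivity) (by linarith)]
      refine Real.rpow_le_rpow_of_nonpos (by positivity) ?_ (by linarith)
      have h6 := pt_dist hn v w
      rcases max_cases (sd v w) 1 with h | h
      · rw [h.1]; exact h6.trans (le_max_left _ _)
      · rw [h.1]; push_cast; rw [mul_one]
        refine le_trans ?_ (le_max_right _ _)
        rwa [one_div] at hε'
    refine (Finset.sum_le_sum e1).trans ?_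
    have e2 : ∑ v ∈ V, ∑ w ∈ V, ((n:ℝ)⁻¹) ^ (-t) * ((max (sd v w) 1 : ℤ) : ℝ) ^ (-t)
        = ((n:ℝ)⁻¹) ^ (-t) * EnV t V := by
      unfold EnV
      rw [Finset.mul_sum]
      refine Finset.sum_congr rfl fun v _ => ?_
      rw [Finset.mul_sum]
    rw [e2]
    have e3 : (c0 * (n : ℝ) ^ (3/4 : ℝ)) ^ 2 ≤ (V.card : ℝ) ^ 2 :=
      pow_le_pow_left₀ (by positivity) hcard 2
    have e4 : (c0 * (n : ℝ) ^ (3/4 : ℝ)) ^ 2 = c0 ^ 2 * (n : ℝ) ^ (3/2 : ℝ) := by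
      rw [mul_pow, ← Real.rpow_natCast ((n : ℝ) ^ (3/4 : ℝ)) 2, ← Real.rpow_mul hn'.le]
      norm_num
    rw [e4] at e3
    have e5 : ((n:ℝ)⁻¹) ^ (-t) = (n:ℝ) ^ t := by
      rw [Real.inv_rpow hn'.le, Real.rpow_neg hn'.le, inv_inv]
    rw [e5]
    calc (n:ℝ) ^ t * EnV t V ≤ (n:ℝ) ^ t * (E0 * (n : ℝ) ^ (3/2 - t)) :=
          mul_le_mul_of_nonneg_left hEn (by positivity)
      _ = E0 / c0 ^ 2 * (c0 ^ 2 * (n : ℝ) ^ (3/2 : ℝ)) := by
          have : (n:ℝ) ^ t * (n : ℝ) ^ (3/2 - t) = (n : ℝ) ^ (3/2 : ℝ) := by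
            rw [← Real.rpow_add hn']
            congr 1
            ring
          rw [← this]
          field_simp
      _ ≤ E0 / c0 ^ 2 * (V.card : ℝ) ^ 2 := mul_le_mul_of_nonneg_left e3 (by positivity)

end Y16

open Y16 in
/-- **Lower bound for the dimension of the local cut points.** -/
theorem ll6 (hP : St_PAR6) (hC : St_CUR6) (hL : St_LLC6) : St_LL6 := by
  rintro sel γ ⟨hsel, htr⟩ k hk μ hμ
  have key : ∀ᵐ c : Curve ∂(μ : Measure Curve), ∀ m : ℕ,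
      ENNReal.ofReal (3/4 - (1/2) / ((m : ℝ) + 1)) ≤ dimH (LCc c.path) := by
    rw [ae_all_iff]
    intro m
    obtain ⟨t, ht⟩ : ∃ t : ℝ, t = 3/4 - (1/2) / ((m : ℝ) + 1) := ⟨_, rfl⟩
    rw [← ht]
    have hm1 : (1/2 : ℝ) / ((m : ℝ) + 1) ≤ 1/2 := by
      rw [div_le_iff₀ (by positivity)]
      have : (0:ℝ) ≤ m := Nat.cast_nonneg m
      linarith
    have hm2 : (0 : ℝ) < (1/2 : ℝ) / ((m : ℝ) + 1) := by positivity
    have ht0 : 0 < t := by rw [ht]; linarith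
    have ht1 : t < 3/4 := by rw [ht]; linarith
    refine hL _ μ hμ t ht0 ?_
    intro ε hε
    obtain ⟨δ, hδ, hδε⟩ : ∃ δ : ℝ, 0 < δ ∧ ENNReal.ofReal δ ≤ ε := by
      rcases eq_or_ne ε ∞ with h | h
      · exact ⟨1, one_pos, by rw [h]; exact le_top⟩
      · exact ⟨ε.toReal, ENNReal.toReal_pos hε.ne' h, by rw [ENNReal.ofReal_toReal h]⟩
    obtain ⟨κ, K, B, hK, hB, hP1⟩ := hP t ht0 ht1
    obtain ⟨ρ, c0, E0, hρ, hc0, hE0, n0, hn0⟩ := hP1 δ hδ
    obtain ⟨e0, he0, he0ρ, he0E⟩ := exists_eps ht0 hc0 hE0 hρ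
    refine ⟨2 ^ (-t) / (E0 / (c0 / 2) ^ 2), e0,
      8 * K * 1 + 8 + 4 ^ B * (K * 1 ^ (B - 1) + 1), B, K2, by positivity, he0, by positivity,
      by omega, isCompact_K2, ?_⟩
    intro ε' hε'
    obtain ⟨n1, hn1⟩ := exists_nat_gt ((2 * (κ : ℝ) + 3) / ε')
    obtain ⟨n2, hn2⟩ := exists_nat_gt (((κ : ℝ) + 2) / e0)
    have hev : ∀ᶠ i in atTop, max (max n0 n1) (max n2 (κ + 1)) ≤ k i := tendsto_atTop.mp hk _
    filter_upwards [hev] with i hi
    rw [max_le_iff, max_le_iff, max_le_iff] at hi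
    obtain ⟨⟨hi0, hi1⟩, hi2, hi3⟩ := hi
    obtain ⟨n, hn⟩ : ∃ n, n = k i := ⟨_, rfl⟩
    rw [← hn] at hi0 hi1 hi2 hi3 ⊢
    have hnpos : 0 < n := by omega
    have hopen : IsOpen {p : Curve | ¬ Good t ε' (2 ^ (-t) / (E0 / (c0 / 2) ^ 2))
        (QQ e0 (8 * K * 1 + 8 + 4 ^ B * (K * 1 ^ (B - 1) + 1)) B ε' K2 p.path)} :=
      (closed_good isCompact_K2).isOpen_compl
    rw [lawOf_apply _ _ hopen.measurableSet]
    refine le_trans (ENNReal.ofReal_le_ofReal ?_) hδε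
    have hn' : (0:ℝ) < n := by exact_mod_cast hnpos
    have hk1 : (n1 : ℝ) ≤ n := by exact_mod_cast hi1
    have hk2 : (n2 : ℝ) ≤ n := by exact_mod_cast hi2
    have hκ0 : (0 : ℝ) ≤ κ := Nat.cast_nonneg κ
    have hεn : (2 * (κ : ℝ) + 3) / n ≤ ε' := by
      rw [div_lt_iff₀ hε'] at hn1
      rw [div_le_iff₀ hn']
      nlinarith
    have h1n : 1 / (n : ℝ) ≤ ε' := by
      refine le_trans ?_ hεn
      apply div_le_div_of_nonneg_right _ hn'.le
      linarith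
    have he0n : (κ : ℝ) + 2 ≤ e0 * n := by
      rw [div_lt_iff₀ he0] at hn2
      nlinarith
    refine le_trans (Plain.prob_le_of_pr ?_) (hn0 n hi0)
    intro F hF hbad
    refine ⟨sel n F, Plain.isMax_of_largest (hsel _ _ hnpos hF), fun hcon => hbad ?_⟩
    obtain ⟨u, σ, hu, hun, hR, hO, V, hcard, hEn, hV⟩ := hcon
    obtain ⟨x0, hx0⟩ := hC κ K B (by omega) n F (sel n F) (γ n F) hnpos hi3 hF
      (htr _ _ hnpos hF)
    obtain ⟨d, hd⟩ : ∃ d : ℕ, d = ⌈e0 * n⌉₊ := ⟨_, rfl⟩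
    have hd1 : e0 * n ≤ d := by rw [hd]; exact Nat.le_ceil _
    have hd2 : (d : ℝ) < e0 * n + 1 := by
      rw [hd]
      exact Nat.ceil_lt_add_one (by positivity)
    have hd3 : (d : ℝ) ≤ 2 * e0 * n := by linarith
    have hκd : κ + 2 ≤ d := by
      have : ((κ + 2 : ℕ) : ℝ) ≤ d := by
        push_cast
        linarith
      exact_mod_cast this
    have hdu : d ≤ 3 * u := by
      have h1 : e0 * n ≤ ρ * n := mul_le_mul_of_nonneg_right he0ρ hn'.le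
      have h2 : (d : ℝ) ≤ ((3 * u : ℕ) : ℝ) := by
        push_cast
        have : (0 : ℝ) ≤ u := Nat.cast_nonneg u
        linarith
      exact_mod_cast h2
    obtain ⟨hcard', hEn'⟩ := remove ht0 hc0 he0 he0E hnpos (by omega) hd3 V hcard hEn x0
    refine good_of_set hnpos ht0 (by positivity) hE0 h1n _ hcard' hEn' (fun w hw => ?_)
    rw [Finset.mem_filter] at hw
    refine QQ_eta (η' := (d : ℝ) / n) ?_ (hx0 u d σ w hκd hdu hR hO (hV w hw.1) hw.2 1 ε' ?_ hεn)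
    · rw [le_div_iff₀ hn']
      exact hd1
    · rw [div_le_one hn']
      exact_mod_cast hun
  filter_upwards [key] with c hc
  exact three_quarters_le hc

end Pool.Agent.N948.XE
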